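import Mathlib

set_option autoImplicit false

namespace Pool.Agent.H27.KQ

open Finset Filter Topology

theorem fract_sub_int (y : ℝ) : ∃ k : ℤ, Int.fract y = y - k := ⟨⌊y⌋, rfl⟩

/-- two numbers congruent mod 1 at distance less than one are equal -/
theorem eq_of_int_diff {a b : ℝ} (k : ℤ) (h : a - b = k) (h1 : a - b < 1) (h2 : -1 < a - b) :
    a = b := by
  rw [h] at h1 h2
  have h3 : k < 1 := by exact_mod_cast h1
  have h4 : -1 < k := by exact_mod_cast h2
  have h5 : k = 0 := by omega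
  rw [h5] at h
  simp at h
  linarith

/-- a lift of the increment function by `n` commuting with the increments by elements of `S` -/
def Good (S : Set ℤ) (c : ℤ → ℝ) (n : ℤ) : Prop :=
  ∃ ψ : ℤ → ℝ, (∀ x, ∃ k : ℤ, ψ x = c (x + n) - c x + k) ∧
    (∀ s ∈ S, ∀ x, ψ x + Int.fract (c (x + n + s) - c (x + n)) =
      Int.fract (c (x + s) - c x) + ψ (x + s)) ∧
    ∃ B : ℝ, ∀ x, |ψ x| ≤ B

theorem good_zero (S : Set ℤ) (c : ℤ → ℝ) : Good S c 0 := by
  refine ⟨fun _ => 0, ?_, ?_, 0, ?_⟩
  · intro x; exact ⟨0, by simp⟩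
  · intro s _ x; simp
  · intro x; simp

theorem good_add (S : Set ℤ) (c : ℤ → ℝ) (m n : ℤ) (hm : Good S c m) (hn : Good S c n) :
    Good S c (m + n) := by
  obtain ⟨ψ, h1, h2, B, h3⟩ := hm
  obtain ⟨χ, g1, g2, B', g3⟩ := hn
  refine ⟨fun x => ψ x + χ (x + m), ?_, ?_, B + B', ?_⟩
  · intro x
    obtain ⟨k, hk⟩ := h1 x
    obtain ⟨l, hl⟩ := g1 (x + m)
    refine ⟨k + l, ?_⟩
    simp only
    rw [hk, hl, add_assoc x m n]
    push_cast
    ring
  · intro s hs x
    have e1 := h2 s hs x
    have e2 := g2 s hs (x + m)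
    simp only
    rw [show x + (m + n) = x + m + n by ring, show x + s + m = x + m + s by ring]
    linarith
  · intro x
    exact (abs_add_le _ _).trans (add_le_add (h3 x) (g3 _))

theorem good_neg (S : Set ℤ) (c : ℤ → ℝ) (m : ℤ) (hm : Good S c m) : Good S c (-m) := by
  obtain ⟨ψ, h1, h2, B, h3⟩ := hm
  refine ⟨fun x => - ψ (x - m), ?_, ?_, B, ?_⟩
  · intro x
    obtain ⟨k, hk⟩ := h1 (x - m)
    refine ⟨-k, ?_⟩
    simp only
    rw [hk, sub_add_cancel, ← sub_eq_add_neg]
    push_cast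
    ring
  · intro s hs x
    have e1 := h2 s hs (x - m)
    rw [sub_add_cancel, show x - m + s = x + s - m by ring] at e1
    simp only
    rw [show x + -m + s = x + s - m by ring, show x + -m = x - m by ring]
    linarith
  · intro x
    rw [abs_neg]; exact h3 _

theorem good_mem (S : Set ℤ) (δ : ℝ) (hδ : 1 / 4 < δ) (c : ℤ → ℝ)
    (h : ∀ s ∈ S, ∀ x, δ ≤ Int.fract (c (x + s) - c x) ∧ Int.fract (c (x + s) - c x) ≤ 1 - δ)
    (s : ℤ) (hs : s ∈ S) : Good S c s := by
  refine ⟨fun x => Int.fract (c (x + s) - c x), ?_, ?_, 1, ?_⟩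
  · intro x
    exact ⟨-⌊c (x + s) - c x⌋, by simp only [Int.fract]; push_cast; ring⟩
  · intro t ht x
    simp only
    have a1 := h s hs x
    have a2 := h s hs (x + t)
    have a3 := h t ht x
    have a4 := h t ht (x + s)
    have e : x + s + t = x + t + s := by ring
    rw [e] at a4 ⊢
    obtain ⟨k1, hk1⟩ := fract_sub_int (c (x + s) - c x)
    obtain ⟨k2, hk2⟩ := fract_sub_int (c (x + t + s) - c (x + t))
    obtain ⟨k3, hk3⟩ := fract_sub_int (c (x + t) - c x)
    obtain ⟨k4, hk4⟩ := fract_sub_int (c (x + t + s) - c (x + s))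
    refine eq_of_int_diff (k3 + k2 - k1 - k4) ?_ ?_ ?_
    · rw [hk1, hk2, hk3, hk4]; push_cast; ring
    · linarith [a1.1, a1.2, a2.1, a2.2, a3.1, a3.2, a4.1, a4.2]
    · linarith [a1.1, a1.2, a2.1, a2.2, a3.1, a3.2, a4.1, a4.2]
  · intro x
    rw [abs_of_nonneg (Int.fract_nonneg _)]
    exact (Int.fract_lt_one _).le

theorem good_closure (S : Set ℤ) (δ : ℝ) (hδ : 1 / 4 < δ) (c : ℤ → ℝ)
    (h : ∀ s ∈ S, ∀ x, δ ≤ Int.fract (c (x + s) - c x) ∧ Int.fract (c (x + s) - c x) ≤ 1 - δ)
    (n : ℤ) (hn : n ∈ AddSubgroup.closure S) : Good S c n := by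
  induction hn using AddSubgroup.closure_induction with
  | mem x hx => exact good_mem S δ hδ c h x hx
  | zero => exact good_zero S c
  | add x y _ _ hx hy => exact good_add S c x y hx hy
  | neg x _ hx => exact good_neg S c x hx

/-- double telescoping -/
theorem double_tele (C : ℕ → ℝ) (t n : ℕ) :
    ∑ i ∈ range n, (C (i + t) - C i) = ∑ j ∈ range t, (C (n + j) - C j) := by
  induction n with
  | zero => simp
  | succ n ih =>
    rw [sum_range_succ, ih]
    have h : ∑ j ∈ range t, (C (n + 1 + j) - C j) =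
        ∑ j ∈ range t, (C (n + j) - C j) + ∑ j ∈ range t, (C (n + (j + 1)) - C (n + j)) := by
      rw [← sum_add_distrib]
      apply sum_congr rfl
      intro j _
      rw [show n + 1 + j = n + (j + 1) by ring]
      ring
    rw [h, sum_range_sub (fun j => C (n + j))]
    simp

theorem rotation (C : ℕ → ℝ) (B : ℝ) (hB : ∀ n, |C (n + 1) - C n| ≤ B) (hC0 : C 0 = 0) :
    ∃ θ : ℝ, ∀ (t : ℕ) (p q : ℝ), (∀ n, p ≤ C (n + t) - C n) → (∀ n, C (n + t) - C n ≤ q) →
      p ≤ t * θ ∧ t * θ ≤ q := by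
  have hB0 : 0 ≤ B := (abs_nonneg _).trans (hB 0)
  have hbd : ∀ n, |C n| ≤ n * B := by
    intro n
    induction n with
    | zero => simp [hC0]
    | succ n ih =>
      have h1 : C (n + 1) = (C (n + 1) - C n) + C n := by ring
      rw [h1]
      calc |(C (n + 1) - C n) + C n| ≤ |C (n + 1) - C n| + |C n| := abs_add_le _ _
        _ ≤ B + n * B := add_le_add (hB n) ih
        _ = ((n + 1 : ℕ) : ℝ) * B := by push_cast; ring
  have hshift : ∀ n j, |C (n + j) - C n| ≤ j * B := by
    intro n j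
    induction j with
    | zero => simp
    | succ j ih =>
      have h1 : C (n + (j + 1)) - C n = (C (n + j + 1) - C (n + j)) + (C (n + j) - C n) := by
        rw [← add_assoc]; ring
      rw [h1]
      calc |(C (n + j + 1) - C (n + j)) + (C (n + j) - C n)|
          ≤ |C (n + j + 1) - C (n + j)| + |C (n + j) - C n| := abs_add_le _ _
        _ ≤ B + j * B := add_le_add (hB _) ih
        _ = ((j + 1 : ℕ) : ℝ) * B := by push_cast; ring
  have hmem : ∀ n : ℕ, C (n + 1) / ((n + 1 : ℕ) : ℝ) ∈ Set.Icc (-B) B := by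
    intro n
    have hpos : (0 : ℝ) < ((n + 1 : ℕ) : ℝ) := by positivity
    have := hbd (n + 1)
    rw [abs_le] at this
    constructor
    · rw [le_div_iff₀ hpos]; linarith [this.1]
    · rw [div_le_iff₀ hpos]; linarith [this.2]
  obtain ⟨θ, _, φ, hφ, hlim⟩ := isCompact_Icc.tendsto_subseq hmem
  refine ⟨θ, ?_⟩
  intro t p q hp hq
  obtain ⟨K, hK⟩ : ∃ K : ℝ, ∀ n : ℕ, n * p - K ≤ t * C n ∧ t * C n ≤ n * q + K := by
    refine ⟨t * (t * B) + t * (t * B), ?_⟩
    intro n
    have e := double_tele C t n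
    have hl : (n : ℝ) * p ≤ ∑ i ∈ range n, (C (i + t) - C i) := by
      calc (n : ℝ) * p = ∑ i ∈ range n, p := by rw [sum_const, card_range, nsmul_eq_mul]
        _ ≤ _ := sum_le_sum (fun i _ => hp i)
    have hu : ∑ i ∈ range n, (C (i + t) - C i) ≤ (n : ℝ) * q := by
      calc ∑ i ∈ range n, (C (i + t) - C i) ≤ ∑ i ∈ range n, q := sum_le_sum (fun i _ => hq i)
        _ = (n : ℝ) * q := by rw [sum_const, card_range, nsmul_eq_mul]
    have hr : |∑ j ∈ range t, (C (n + j) - C j) - t * C n| ≤ t * (t * B) + t * (t * B) := by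
      have h0 : (t : ℝ) * C n = ∑ j ∈ range t, C n := by rw [sum_const, card_range, nsmul_eq_mul]
      have : ∑ j ∈ range t, (C (n + j) - C j) - t * C n =
          ∑ j ∈ range t, ((C (n + j) - C n) - C j) := by
        rw [h0, ← sum_sub_distrib]
        apply sum_congr rfl; intro j _; ring
      rw [this]
      calc |∑ j ∈ range t, ((C (n + j) - C n) - C j)|
          ≤ ∑ j ∈ range t, |(C (n + j) - C n) - C j| := abs_sum_le_sum_abs _ _
        _ ≤ ∑ j ∈ range t, (t * B + t * B) := by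
            apply sum_le_sum
            intro j hj
            have hj' : (j : ℝ) ≤ t := by exact_mod_cast (mem_range.mp hj).le
            have h1 := hshift n j
            have h2 := hbd j
            calc |(C (n + j) - C n) - C j| ≤ |C (n + j) - C n| + |C j| := abs_sub _ _
              _ ≤ j * B + j * B := add_le_add h1 h2
              _ ≤ t * B + t * B := by nlinarith
        _ = t * (t * B) + t * (t * B) := by rw [sum_const, card_range, nsmul_eq_mul]; ring
    rw [← e, abs_le] at hr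
    constructor
    · linarith [hr.1, hr.2]
    · linarith [hr.1, hr.2]
  have hφt : Tendsto (fun m => K / (((φ m + 1 : ℕ)) : ℝ)) atTop (𝓝 0) := by
    apply Tendsto.div_atTop tendsto_const_nhds
    exact tendsto_natCast_atTop_atTop.comp ((tendsto_add_atTop_nat 1).comp hφ.tendsto_atTop)
  have hlim2 : Tendsto (fun m => (t : ℝ) * (C (φ m + 1) / (((φ m + 1 : ℕ)) : ℝ))) atTop
      (𝓝 (t * θ)) := hlim.const_mul _
  constructor
  · have h1 : Tendsto (fun m => p - K / (((φ m + 1 : ℕ)) : ℝ)) atTop (𝓝 (p - 0)) :=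
      hφt.const_sub p
    rw [sub_zero] at h1
    refine le_of_tendsto_of_tendsto' h1 hlim2 ?_
    intro m
    have hpos : (0 : ℝ) < ((φ m + 1 : ℕ) : ℝ) := by positivity
    have h2 := (hK (φ m + 1)).1
    have h3 : p - K / ((φ m + 1 : ℕ) : ℝ) = (((φ m + 1 : ℕ) : ℝ) * p - K) / ((φ m + 1 : ℕ) : ℝ) := by
      field_simp
    rw [h3, ← mul_div_assoc]
    exact (div_le_div_iff_of_pos_right hpos).mpr h2
  · have h1 : Tendsto (fun m => q + K / (((φ m + 1 : ℕ)) : ℝ)) atTop (𝓝 (q + 0)) :=
      hφt.const_add q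
    rw [add_zero] at h1
    refine le_of_tendsto_of_tendsto' hlim2 h1 ?_
    intro m
    have hpos : (0 : ℝ) < ((φ m + 1 : ℕ) : ℝ) := by positivity
    have h2 := (hK (φ m + 1)).2
    have h3 : q + K / ((φ m + 1 : ℕ) : ℝ) = (((φ m + 1 : ℕ) : ℝ) * q + K) / ((φ m + 1 : ℕ) : ℝ) := by
      field_simp
    rw [h3, ← mul_div_assoc]
    exact (div_le_div_iff_of_pos_right hpos).mpr h2

/-- **Circle colourings.** If the increments of `c` along `S` stay at distance at least `δ > 1/4`
from the integers, then some rotation does as well. -/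
theorem circle (S : Set ℤ) (δ : ℝ) (hδ : 1 / 4 < δ) (c : ℤ → ℝ)
    (h : ∀ s ∈ S, ∀ x, δ ≤ Int.fract (c (x + s) - c x) ∧ Int.fract (c (x + s) - c x) ≤ 1 - δ) :
    ∃ θ : ℝ, ∀ s ∈ S, δ ≤ Int.fract (θ * s) ∧ Int.fract (θ * s) ≤ 1 - δ := by
  obtain ⟨g, hg⟩ := Int.subgroup_cyclic (AddSubgroup.closure S)
  have hSg : ∀ s ∈ S, ∃ k : ℤ, s = g * k := by
    intro s hs
    have : s ∈ AddSubgroup.closure S := AddSubgroup.subset_closure hs
    rw [hg, AddSubgroup.mem_closure_singleton] at this
    obtain ⟨k, hk⟩ := this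
    exact ⟨k, by rw [← hk, smul_eq_mul, mul_comm]⟩
  have hgmem : g ∈ AddSubgroup.closure S := by
    rw [hg]; exact AddSubgroup.subset_closure rfl
  by_cases hg0 : g = 0
  · refine ⟨0, ?_⟩
    intro s hs
    obtain ⟨k, hk⟩ := hSg s hs
    rw [hg0, zero_mul] at hk
    have := (h s hs 0).1
    rw [hk] at this
    simp at this
    linarith
  obtain ⟨ψ, h1, h2, B, h3⟩ := good_closure S δ hδ c h g hgmem
  set C : ℕ → ℝ := fun n => ∑ i ∈ range n, ψ (g * i) with hC
  have hCs : ∀ n, C (n + 1) - C n = ψ (g * n) := by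
    intro n
    simp only [hC]
    rw [sum_range_succ]; ring
  have hCc : ∀ n : ℕ, ∃ k : ℤ, C n = c (g * n) - c 0 + k := by
    intro n
    induction n with
    | zero => exact ⟨0, by simp [hC]⟩
    | succ n ih =>
      obtain ⟨k, hk⟩ := ih
      obtain ⟨l, hl⟩ := h1 (g * n)
      refine ⟨k + l, ?_⟩
      have : C (n + 1) = C n + ψ (g * n) := by linarith [hCs n]
      rw [this, hk, hl, show g * (n : ℤ) + g = g * ((n + 1 : ℕ) : ℤ) by push_cast; ring]
      push_cast
      ring
  obtain ⟨θ, hθ⟩ := rotation C B (fun n => by rw [hCs]; exact h3 _) (by simp [hC])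
  refine ⟨θ / g, ?_⟩
  have hgr : (g : ℝ) ≠ 0 := by exact_mod_cast hg0
  intro s hs
  obtain ⟨k, hk⟩ := hSg s hs
  have hfr : ∀ (y : ℝ) (E : ℤ), (E : ℝ) + δ ≤ y → y ≤ E + 1 - δ →
      δ ≤ Int.fract y ∧ Int.fract y ≤ 1 - δ := by
    intro y E hy1 hy2
    have hfl : ⌊y⌋ = E := by
      rw [Int.floor_eq_iff]
      constructor
      · linarith
      · linarith
    rw [Int.fract, hfl]
    constructor
    · linarith
    · linarith
  have hsk : θ / g * s = θ * k := by
    rw [hk]; push_cast; field_simp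
  rw [hsk]
  rcases le_or_gt 0 k with hk0 | hk0
  · obtain ⟨t, rfl⟩ := Int.eq_ofNat_of_zero_le hk0
    have hE : ∃ E : ℤ, ∀ n : ℕ, C (n + t) - C n = Int.fract (c (g * n + s) - c (g * n)) + E := by
      obtain ⟨l, hl⟩ := hCc t
      refine ⟨l + ⌊c s - c 0⌋, ?_⟩
      intro n
      induction n with
      | zero =>
        have hC00 : C 0 = 0 := by simp [hC]
        have hf := Int.floor_add_fract (c s - c 0)
        rw [zero_add, hl, hC00, show g * ((0 : ℕ) : ℤ) + s = s by simp,
          show g * ((0 : ℕ) : ℤ) = 0 by simp, show g * (t : ℤ) = s from hk.symm]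
        push_cast
        linarith
      | succ n ih =>
        have e1 := h2 s hs (g * n)
        have e2 := hCs n
        have e3 := hCs (n + t)
        have e4 : g * (n : ℤ) + s = g * ((n + t : ℕ) : ℤ) := by rw [hk]; push_cast; ring
        have e5 : g * (n : ℤ) + g = g * ((n + 1 : ℕ) : ℤ) := by push_cast; ring
        rw [e5, e4] at e1
        rw [e4] at ih
        rw [show n + 1 + t = n + t + 1 by ring]
        have e6 : C (n + t + 1) - C (n + 1) = (C (n + t + 1) - C (n + t)) + (C (n + t) - C n)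
          - (C (n + 1) - C n) := by ring
        rw [e6, e3, e2, ih]
        linarith
    obtain ⟨E, hE⟩ := hE
    have := hθ t (E + δ) (E + 1 - δ) (fun n => by rw [hE]; linarith [(h s hs (g * n)).1])
      (fun n => by rw [hE]; linarith [(h s hs (g * n)).2])
    apply hfr _ E
    · push_cast; linarith [this.1]
    · push_cast; linarith [this.2]
  · obtain ⟨t, ht⟩ := Int.eq_ofNat_of_zero_le (show 0 ≤ -k by omega)
    have hkt : k = -(t : ℤ) := by omega
    have hE : ∃ E : ℤ, ∀ n : ℕ, C (n + t) - C n =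
        - Int.fract (c (g * (n + t : ℕ) + s) - c (g * (n + t : ℕ))) + E := by
      obtain ⟨l, hl⟩ := hCc t
      refine ⟨l - ⌊c (g * t + s) - c (g * t)⌋, ?_⟩
      intro n
      induction n with
      | zero =>
        have hC00 : C 0 = 0 := by simp [hC]
        have e0 : g * (t : ℤ) + s = 0 := by rw [hk, hkt]; ring
        rw [e0]
        have hf := Int.floor_add_fract (c 0 - c (g * t))
        rw [zero_add, hl, hC00, e0]
        push_cast
        linarith
      | succ n ih =>
        have e1 := h2 s hs (g * (n + t : ℕ))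
        have e2 := hCs n
        have e3 := hCs (n + t)
        have e4 : g * ((n + t : ℕ) : ℤ) + s = g * n := by rw [hk, hkt]; push_cast; ring
        have e5 : g * ((n + t : ℕ) : ℤ) + g = g * ((n + 1 + t : ℕ) : ℤ) := by push_cast; ring
        have e7 : g * ((n + 1 + t : ℕ) : ℤ) + s = g * ((n + 1 : ℕ) : ℤ) := by
          rw [hk, hkt]; push_cast; ring
        rw [e5, e4, e7] at e1
        rw [e4] at ih
        rw [e7]
        rw [show n + 1 + t = n + t + 1 by ring] at e1 ⊢
        have e6 : C (n + t + 1) - C (n + 1) = (C (n + t + 1) - C (n + t)) + (C (n + t) - C n)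
          - (C (n + 1) - C n) := by ring
        rw [e6, e3, e2, ih]
        linarith
    obtain ⟨E, hE⟩ := hE
    have := hθ t (E - 1 + δ) (E - δ)
      (fun n => by rw [hE]; linarith [(h s hs (g * (n + t : ℕ))).2])
      (fun n => by rw [hE]; linarith [(h s hs (g * (n + t : ℕ))).1])
    apply hfr _ (-E)
    · rw [hkt]; push_cast; linarith [this.2]
    · rw [hkt]; push_cast; linarith [this.1]

end Pool.Agent.H27.KQ
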