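import Mathlib
import Pool.Agent.H27.KQCircle

set_option autoImplicit false

namespace Pool.Agent.H27.KQ

open Finset

/-- discrete intermediate value theorem -/
theorem discrete_ivt (Q : ℕ → ℤ) (hQ : ∀ i, |Q (i + 1) - Q i| ≤ 1) (q : ℤ) (i j : ℕ)
    (hi : Q i ≤ q) (hj : q ≤ Q j) : ∃ m, Q m = q := by
  rcases le_total i j with hij | hij
  · obtain ⟨d, rfl⟩ := Nat.exists_eq_add_of_le hij
    clear hij
    induction d with
    | zero => exact ⟨i, le_antisymm hi (by simpa using hj)⟩
    | succ d ih =>
      by_cases h : q ≤ Q (i + d)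
      · exact ih h
      · push Not at h
        have := hQ (i + d)
        rw [abs_le] at this
        refine ⟨i + d + 1, ?_⟩
        have hj' : q ≤ Q (i + d + 1) := hj
        omega
  · obtain ⟨d, rfl⟩ := Nat.exists_eq_add_of_le hij
    clear hij
    induction d with
    | zero => exact ⟨j, le_antisymm (by simpa using hi) hj⟩
    | succ d ih =>
      by_cases h : Q (j + d) ≤ q
      · exact ih h
      · push Not at h
        have := hQ (j + d)
        rw [abs_le] at this
        refine ⟨j + d + 1, ?_⟩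
        have hi' : Q (j + d + 1) ≤ q := hi
        omega

/-- window sums of a 0-1 sequence take all values near the average -/
theorem window (b : ℕ → ℤ) (hb : ∀ i, b i = 0 ∨ b i = 1) :
    ∃ β : ℝ, 0 ≤ β ∧ β ≤ 1 ∧ ∀ (k : ℕ) (q : ℤ), |(q : ℝ) - β * k| < 1 →
      ∃ i, ∑ j ∈ range k, b (i + j) = q := by
  set C : ℕ → ℤ := fun n => ∑ i ∈ range n, b i with hC
  have hCk : ∀ n k, C (n + k) - C n = ∑ j ∈ range k, b (n + j) := by
    intro n k
    simp only [hC]
    rw [sum_range_add]; ring
  obtain ⟨β, hβ⟩ := rotation (fun n => (C n : ℝ)) 1 (by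
    intro n
    have h := hCk n 1
    rw [sum_range_one, add_zero] at h
    have h' : ((C (n + 1) : ℝ) - C n) = (b n : ℝ) := by exact_mod_cast h
    rw [h']
    rcases hb n with h0 | h0 <;> simp [h0]) (by simp [hC])
  have hW : ∀ (k : ℕ) (p q : ℤ), (∀ n, p ≤ ∑ j ∈ range k, b (n + j)) →
      (∀ n, ∑ j ∈ range k, b (n + j) ≤ q) → (p : ℝ) ≤ k * β ∧ k * β ≤ q := by
    intro k p q hp hq
    apply hβ k p q
    · intro n
      have := hp n
      rw [← hCk] at this
      exact_mod_cast this
    · intro n
      have := hq n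
      rw [← hCk] at this
      exact_mod_cast this
  have hlow : ∀ (k n : ℕ), 0 ≤ ∑ j ∈ range k, b (n + j) := by
    intro k n
    apply sum_nonneg
    intro j _
    rcases hb (n + j) with h0 | h0 <;> simp [h0]
  have hup : ∀ (k n : ℕ), ∑ j ∈ range k, b (n + j) ≤ k := by
    intro k n
    calc ∑ j ∈ range k, b (n + j) ≤ ∑ j ∈ range k, (1 : ℤ) := by
          apply sum_le_sum
          intro j _
          rcases hb (n + j) with h0 | h0 <;> simp [h0]
      _ = k := by simp
  have h1 := hW 1 0 1 (fun n => by simpa using hlow 1 n) (fun n => by simpa using hup 1 n)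
  refine ⟨β, by simpa using h1.1, by simpa using h1.2, ?_⟩
  intro k q hq
  rw [abs_lt] at hq
  have hi : ∃ i, ∑ j ∈ range k, b (i + j) ≤ q := by
    by_contra hcon
    push Not at hcon
    have := (hW k (q + 1) k (fun n => hcon n) (hup k)).1
    push_cast at this
    linarith [hq.1]
  have hj : ∃ i, q ≤ ∑ j ∈ range k, b (i + j) := by
    by_contra hcon
    push Not at hcon
    have := (hW k 0 (q - 1) (hlow k) (fun n => by have := hcon n; omega)).2
    push_cast at this
    linarith [hq.2]
  obtain ⟨i, hi⟩ := hi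
  obtain ⟨j, hj⟩ := hj
  apply discrete_ivt (fun i => ∑ j ∈ range k, b (i + j)) ?_ q i j hi hj
  intro i
  have e : ∑ j ∈ range k, b (i + 1 + j) + b i = ∑ j ∈ range k, b (i + j) + b (i + k) := by
    rw [← sum_range_succ (fun j => b (i + j)), sum_range_succ' (fun j => b (i + j))]
    simp only [add_zero]
    congr 1
    apply sum_congr rfl
    intro j _
    rw [show i + 1 + j = i + (j + 1) by ring]
  have e2 : ∑ j ∈ range k, b (i + 1 + j) - ∑ j ∈ range k, b (i + j) = b (i + k) - b i := by
    linarith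
  rw [e2, abs_le]
  rcases hb (i + k) with h0 | h0 <;> rcases hb i with h1 | h1 <;> rw [h0, h1] <;> norm_num

/-- two consecutive differences -/
theorem two_gaps (a : ℕ → ℤ) (u v : ℤ) (hu : 0 < u) (hv : 0 < v)
    (h : ∀ i, a (i + 1) = a i + u ∨ a (i + 1) = a i + v) :
    ∃ θ : ℝ, ∀ n : ℤ, (Int.gcd u v : ℤ) ∣ n →
      |θ * n - round (θ * n)| < (Int.gcd u v : ℝ) / (max u v : ℤ) →
      ∃ i j, n = a i - a j := by
  classical
  set b : ℕ → ℤ := fun i => if a (i + 1) = a i + v then 1 else 0 with hbdef
  have hb : ∀ i, b i = 0 ∨ b i = 1 := by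
    intro i
    simp only [hbdef]
    split_ifs
    · right; rfl
    · left; rfl
  have hstep : ∀ i, a (i + 1) - a i = u + (v - u) * b i := by
    intro i
    simp only [hbdef]
    split_ifs with h1
    · rw [h1]; ring
    · rcases h i with h2 | h2
      · rw [h2]; ring
      · exact absurd h2 h1
  have hwin : ∀ k i, a (i + k) - a i = u * k + (v - u) * ∑ j ∈ range k, b (i + j) := by
    intro k i
    induction k with
    | zero => simp
    | succ k ih =>
      rw [sum_range_succ, mul_add, ← add_assoc i k 1]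
      have := hstep (i + k)
      push_cast
      linarith
  obtain ⟨β, hβ0, hβ1, hβ⟩ := window b hb
  set d : ℤ := (Int.gcd u v : ℤ) with hd
  have hdpos : 0 < d := by
    rw [hd]
    exact_mod_cast Int.gcd_pos_of_ne_zero_left v hu.ne'
  obtain ⟨u', hu'⟩ : d ∣ u := Int.gcd_dvd_left u v
  obtain ⟨v', hv'⟩ : d ∣ v := Int.gcd_dvd_right u v
  have hu'pos : 0 < u' := by
    by_contra hcon
    push Not at hcon
    nlinarith
  have hv'pos : 0 < v' := by
    by_contra hcon
    push Not at hcon
    nlinarith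
  obtain ⟨x, y, hxy⟩ : ∃ x y : ℤ, u' * x + v' * y = 1 := by
    have h1 := Int.gcd_eq_gcd_ab u v
    refine ⟨Int.gcdA u v, Int.gcdB u v, ?_⟩
    have h2 : d * (u' * Int.gcdA u v + v' * Int.gcdB u v) = d * 1 := by
      calc d * (u' * Int.gcdA u v + v' * Int.gcdB u v)
          = (d * u') * Int.gcdA u v + (d * v') * Int.gcdB u v := by ring
        _ = u * Int.gcdA u v + v * Int.gcdB u v := by rw [← hu', ← hv']
        _ = d * 1 := by rw [← h1, hd]; ring
    exact mul_left_cancel₀ hdpos.ne' h2
  -- k = x + y, q = y : u' k + (v' - u') q = 1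
  set m : ℝ := (1 - β) * u' + β * v' with hm
  have hu'r : (0 : ℝ) < u' := by exact_mod_cast hu'pos
  have hv'r : (0 : ℝ) < v' := by exact_mod_cast hv'pos
  have hmpos : 0 < m := by
    rcases hβ0.eq_or_lt with h0 | h0
    · rw [hm, ← h0]; simpa using hu'r
    · have : 0 < β * v' := mul_pos h0 hv'r
      have h2 : 0 ≤ (1 - β) * u' := mul_nonneg (by linarith) hu'r.le
      linarith
  have hdr : (0 : ℝ) < d := by exact_mod_cast hdpos
  have hmmax : m ≤ ((max u v : ℤ) : ℝ) / d := by
    rw [le_div_iff₀ hdr]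
    have h1 : (u : ℝ) = d * u' := by exact_mod_cast hu'
    have h2 : (v : ℝ) = d * v' := by exact_mod_cast hv'
    push_cast
    have h3 : (u : ℝ) ≤ max (u : ℝ) v := le_max_left _ _
    have h4 : (v : ℝ) ≤ max (u : ℝ) v := le_max_right _ _
    calc m * d = (1 - β) * u + β * v := by rw [h1, h2, hm]; ring
      _ ≤ (1 - β) * max (u : ℝ) v + β * max (u : ℝ) v :=
          add_le_add (mul_le_mul_of_nonneg_left h3 (by linarith)) (mul_le_mul_of_nonneg_left h4 hβ0)
      _ = max (u : ℝ) v := by ring
  have main : ∀ n' : ℤ, 0 < n' → ∀ t : ℤ, |(y - β * (x + y)) / m * n' - t| * m < 1 →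
      ∃ i j, d * n' = a i - a j := by
    intro n' hn' t ht
    set k : ℤ := n' * (x + y) + t * (v' - u') with hk
    set q : ℤ := n' * y - t * u' with hq
    have hkq : u' * k + (v' - u') * q = n' := by
      rw [hk, hq]
      linear_combination n' * hxy
    have hqk : |(q : ℝ) - β * k| < 1 := by
      have e : (q : ℝ) - β * k = ((y - β * (x + y)) / m * n' - t) * m := by
        rw [hk, hq]
        push_cast
        have : (y - β * (x + y)) / m * n' * m = (y - β * (x + y)) * n' := by field_simp
        rw [sub_mul, this, hm]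
        ring
      rw [e, abs_mul, abs_of_pos hmpos]
      exact ht
    have hkpos : 0 < k := by
      by_contra hcon
      push Not at hcon
      have hkr : (k : ℝ) ≤ 0 := by exact_mod_cast hcon
      rw [abs_lt] at hqk
      have h1 : (q : ℝ) < 1 := by nlinarith [hqk.2]
      have h2 : ((k - q : ℤ) : ℝ) < 1 := by push_cast; nlinarith [hqk.1]
      have h3 : q < 1 := by exact_mod_cast h1
      have h4 : k - q < 1 := by exact_mod_cast h2
      have h5 : n' = u' * (k - q) + v' * q := by rw [← hkq]; ring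
      nlinarith
    obtain ⟨k', hk'⟩ := Int.eq_ofNat_of_zero_le hkpos.le
    obtain ⟨i, hi⟩ := hβ k' q (by rw [hk'] at hqk; exact_mod_cast hqk)
    refine ⟨i + k', i, ?_⟩
    rw [hwin, hi, ← hkq]
    have hkk : (k' : ℤ) = k := hk'.symm
    rw [hkk]
    linear_combination (-(k - q)) * hu' - q * hv'
  refine ⟨(y - β * (x + y)) / m / d, ?_⟩
  intro n hn hclose
  obtain ⟨n', rfl⟩ := hn
  have hnr : (y - β * (x + y)) / m / d * ((d * n' : ℤ) : ℝ) = (y - β * (x + y)) / m * n' := by
    push_cast; field_simp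
  rw [hnr] at hclose
  have hclose2 : |(y - β * (x + y)) / m * n' - round ((y - β * (x + y)) / m * n')| * m < 1 := by
    have hmax : (0 : ℝ) < ((max u v : ℤ) : ℝ) := by
      exact_mod_cast lt_max_of_lt_left hu
    calc |(y - β * (x + y)) / m * n' - round ((y - β * (x + y)) / m * n')| * m
        < (d : ℝ) / ((max u v : ℤ) : ℝ) * m := by
          apply mul_lt_mul_of_pos_right _ hmpos
          exact_mod_cast hclose
      _ ≤ (d : ℝ) / ((max u v : ℤ) : ℝ) * (((max u v : ℤ) : ℝ) / d) := by
          apply mul_le_mul_of_nonneg_left hmmax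
          positivity
      _ = 1 := by field_simp
  rcases lt_trichotomy n' 0 with h0 | h0 | h0
  · have h2 : |(y - β * (x + y)) / m * ((-n' : ℤ) : ℝ) - ((-round ((y - β * (x + y)) / m * n') : ℤ) : ℝ)|
        * m < 1 := by
      have e : (y - β * (x + y)) / m * ((-n' : ℤ) : ℝ) - ((-round ((y - β * (x + y)) / m * n') : ℤ) : ℝ)
          = -((y - β * (x + y)) / m * n' - round ((y - β * (x + y)) / m * n')) := by
        push_cast; ring
      rw [e, abs_neg]; exact hclose2
    obtain ⟨i, j, hij⟩ := main (-n') (by omega) _ h2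
    exact ⟨j, i, by linarith⟩
  · exact ⟨0, 0, by rw [h0]; ring⟩
  · exact main n' h0 _ hclose2

end Pool.Agent.H27.KQ
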