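import Mathlib

set_option autoImplicit false

namespace Pool.Agent.H27.PC

open Polynomial Finset

noncomputable section

/-- linear endomorphisms of `ℤ[X]` -/
abbrev EndP := Module.End ℤ (Polynomial ℤ)

/-- the endomorphism with prescribed values on monomials -/
def mk (f : ℕ → Polynomial ℤ) : EndP :=
  Polynomial.lsum (fun i => LinearMap.toSpanSingleton ℤ (Polynomial ℤ) (f i))

theorem mk_X_pow (f : ℕ → Polynomial ℤ) (k : ℕ) : mk f (X ^ k) = f k := by
  rw [mk, Polynomial.lsum_apply, ← Polynomial.monomial_one_right_eq_X_pow,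
    Polynomial.sum_monomial_index]
  · simp
  · simp

theorem end_ext {A B : EndP} (h : ∀ k : ℕ, A (X ^ k) = B (X ^ k)) : A = B := by
  apply (Polynomial.basisMonomials ℤ).ext
  intro i
  rw [Polynomial.coe_basisMonomials]
  have := h i
  rw [← Polynomial.monomial_one_right_eq_X_pow] at this
  exact this

/-- `E q^k = ∑_{i ≤ k} q^i` -/
def E : EndP := mk (fun k => ∑ i ∈ range (k + 1), X ^ i)

/-- `Y q^k = ∑_{i ≤ k} (i+1) q^i` -/
def Y : EndP := mk (fun k => ∑ i ∈ range (k + 1), ((i : Polynomial ℤ) + 1) * X ^ i)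

/-- multiplication by `q` -/
def q : EndP := mk (fun k => X ^ (k + 1))

/-- `Q q^(k+1) = q^k`, `Q 1 = 0` -/
def Q : EndP := mk (fun k => if k = 0 then 0 else X ^ (k - 1))

/-- evaluation at one, as a constant polynomial -/
def ε : EndP := mk (fun _ => 1)

theorem E_pow (k : ℕ) : E (X ^ k) = ∑ i ∈ range (k + 1), X ^ i := mk_X_pow _ _
theorem Y_pow (k : ℕ) : Y (X ^ k) = ∑ i ∈ range (k + 1), ((i : Polynomial ℤ) + 1) * X ^ i :=
  mk_X_pow _ _
theorem q_pow (k : ℕ) : q (X ^ k) = X ^ (k + 1) := mk_X_pow _ _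
theorem Q_zero : Q (X ^ 0) = 0 := by rw [Q, mk_X_pow]; simp
theorem Q_succ (k : ℕ) : Q (X ^ (k + 1)) = X ^ k := by rw [Q, mk_X_pow]; simp
theorem ε_pow (k : ℕ) : ε (X ^ k) = 1 := mk_X_pow _ _

theorem q_apply (p : Polynomial ℤ) : q p = X * p := by
  have : q = LinearMap.mulLeft ℤ (X : Polynomial ℤ) := by
    apply end_ext
    intro k
    rw [q_pow, LinearMap.mulLeft_apply, pow_succ']
  rw [this, LinearMap.mulLeft_apply]

theorem E_one : E 1 = 1 := by
  have := E_pow 0
  simpa using this

theorem Y_one : Y 1 = 1 := by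
  have := Y_pow 0
  simpa using this

theorem Q_one : Q 1 = 0 := by
  have := Q_zero
  simpa using this

theorem hEq : E * q = q * E + ε := by
  apply end_ext
  intro k
  rw [Module.End.mul_apply, LinearMap.add_apply, Module.End.mul_apply, q_pow, E_pow, E_pow, ε_pow,
    map_sum, Finset.sum_range_succ']
  simp [q_pow]

theorem hYq : Y * q = q * Y + E * q := by
  apply end_ext
  intro k
  rw [Module.End.mul_apply, LinearMap.add_apply, Module.End.mul_apply, Module.End.mul_apply, q_pow,
    Y_pow, Y_pow, E_pow, q_apply, Finset.mul_sum, Finset.sum_range_succ']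
  rw [Finset.sum_range_succ' (fun i => (X : Polynomial ℤ) ^ i)]
  simp only [Nat.cast_zero, zero_add, pow_zero, mul_one]
  rw [← add_assoc, ← Finset.sum_add_distrib]
  congr 1
  apply Finset.sum_congr rfl
  intro i _
  push_cast
  ring

theorem hEε : E * ε = ε := by
  apply end_ext
  intro k
  rw [Module.End.mul_apply, ε_pow, E_one]

theorem hYε : Y * ε = ε := by
  apply end_ext
  intro k
  rw [Module.End.mul_apply, ε_pow, Y_one]

theorem hEQ : E = 1 + E * Q := by
  apply end_ext
  intro k
  rw [LinearMap.add_apply, Module.End.mul_apply, Module.End.one_apply]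
  cases k with
  | zero => rw [Q_zero, map_zero, pow_zero, E_one, add_zero]
  | succ k => rw [Q_succ, E_pow, E_pow, Finset.sum_range_succ, add_comm]

/-- the transfer operator `T q^k = q^(k+1) + ∑_{i ≤ k} i q^i` -/
def T : EndP := q + Y - E

theorem T_pow (k : ℕ) : T (X ^ k) = X ^ (k + 1) + ∑ i ∈ range (k + 1), (i : Polynomial ℤ) * X ^ i := by
  rw [T, LinearMap.sub_apply, LinearMap.add_apply, q_pow, Y_pow, E_pow, add_sub_assoc,
    ← Finset.sum_sub_distrib]
  congr 1
  apply Finset.sum_congr rfl
  intro i _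
  ring

theorem hQT : Q * T = 1 + Y * Q := by
  apply end_ext
  intro k
  rw [LinearMap.add_apply, Module.End.mul_apply, Module.End.mul_apply, Module.End.one_apply, T_pow,
    map_add, Q_succ, map_sum]
  congr 1
  have h1 : ∀ i : ℕ, Q ((i : Polynomial ℤ) * X ^ i) = (i : Polynomial ℤ) * Q (X ^ i) := by
    intro i
    have : ((i : Polynomial ℤ) * X ^ i) = (i : ℤ) • (X ^ i : Polynomial ℤ) := by
      rw [zsmul_eq_mul]; simp
    rw [this, map_smul, zsmul_eq_mul]; simp
  simp only [h1]
  cases k with
  | zero => simp [Q_one]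
  | succ k =>
    rw [Q_succ, Y_pow, Finset.sum_range_succ']
    simp only [Nat.cast_zero, zero_mul, add_zero]
    apply Finset.sum_congr rfl
    intro i _
    rw [Q_succ]
    push_cast
    ring

theorem εq : ε * q = ε := by
  apply end_ext
  intro k
  rw [Module.End.mul_apply, q_pow, ε_pow, ε_pow]

theorem εε : ε * ε = ε := by
  apply end_ext
  intro k
  have := ε_pow 0
  rw [pow_zero] at this
  rw [Module.End.mul_apply, ε_pow, this]

/-- evaluation functional identity -/
theorem hεY : ε * Y = ε * E * E := by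
  apply end_ext
  intro k
  rw [Module.End.mul_apply, Module.End.mul_apply, Module.End.mul_apply, Y_pow, E_pow, map_sum,
    map_sum, map_sum]
  apply Finset.sum_congr rfl
  intro i _
  rw [E_pow, map_sum]
  simp only [ε_pow]
  have : ((i : Polynomial ℤ) + 1) * X ^ i = ((i : ℤ) + 1) • (X ^ i : Polynomial ℤ) := by
    rw [zsmul_eq_mul]; simp
  rw [this, map_smul, ε_pow]
  simp

theorem gen_comm {R : Type*} [Ring R] (E Y q ε : R) (hEq : E * q = q * E + ε)
    (hYq : Y * q = q * Y + E * q) (hEε : E * ε = ε) (hYε : Y * ε = ε) (hεY : ε * Y = ε * E * E) :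
    (E * Y - Y * E - (E - 1) * E * E) * q = q * (E * Y - Y * E - (E - 1) * E * E) := by
  have h3 : E * E * q = E * q * E + ε := by
    rw [mul_assoc E E q, hEq, mul_add, hEε, ← mul_assoc, hEq]
  have h1 : E * Y * q = q * (E * Y) + ε * Y + E * E * q := by
    calc E * Y * q = E * (Y * q) := by noncomm_ring
      _ = (E * q) * Y + E * E * q := by rw [hYq]; noncomm_ring
      _ = q * (E * Y) + ε * Y + E * E * q := by
        rw [show (E * q) * Y = (q * E + ε) * Y by rw [hEq]]; noncomm_ring
  have h2 : Y * E * q = q * (Y * E) + E * q * E + ε := by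
    calc Y * E * q = Y * (E * q) := by noncomm_ring
      _ = (Y * q) * E + Y * ε := by rw [hEq]; noncomm_ring
      _ = (q * Y + E * q) * E + ε := by rw [hYq, hYε]
      _ = q * (Y * E) + E * q * E + ε := by noncomm_ring
  have h5 : E * q * E = q * E * E + ε * E := by rw [hEq, add_mul]
  have h4 : (E - 1) * E * E * q = q * ((E - 1) * E * E) + ε * E * E := by
    have h7 : (E - 1) * ε = 0 := by rw [sub_mul, hEε, one_mul, sub_self]
    have h8 : (E - 1) * q = q * (E - 1) + ε := by
      rw [sub_mul, hEq, mul_sub]; noncomm_ring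
    calc (E - 1) * E * E * q = (E - 1) * (E * E * q) := by noncomm_ring
      _ = (E - 1) * (q * E * E + ε * E + ε) := by rw [h3, h5]
      _ = ((E - 1) * q) * E * E + ((E - 1) * ε) * E + (E - 1) * ε := by noncomm_ring
      _ = (q * (E - 1) + ε) * E * E := by rw [h8, h7]; noncomm_ring
      _ = q * ((E - 1) * E * E) + ε * E * E := by noncomm_ring
  calc (E * Y - Y * E - (E - 1) * E * E) * q
      = E * Y * q - Y * E * q - (E - 1) * E * E * q := by noncomm_ring
    _ = (q * (E * Y) + ε * Y + (E * q * E + ε)) - (q * (Y * E) + E * q * E + ε)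
        - (q * ((E - 1) * E * E) + ε * E * E) := by rw [h1, h2, h4, h3]
    _ = q * (E * Y - Y * E - (E - 1) * E * E) + (ε * Y - ε * E * E) := by noncomm_ring
    _ = q * (E * Y - Y * E - (E - 1) * E * E) := by rw [hεY, sub_self, add_zero]

theorem hEY : E * Y = Y * E + (E - 1) * E * E := by
  have hD := gen_comm E Y q ε hEq hYq hEε hYε hεY
  have h0 : E * Y - Y * E - (E - 1) * E * E = 0 := by
    apply end_ext
    intro k
    induction k with
    | zero =>
      simp [E_one, Y_one]
    | succ k ih =>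
      have hc : (X : Polynomial ℤ) ^ (k + 1) = q (X ^ k) := (q_pow k).symm
      rw [hc, ← Module.End.mul_apply, hD, Module.End.mul_apply, ih]
      simp
  have h1 : E * Y = (E * Y - Y * E - (E - 1) * E * E) + (Y * E + (E - 1) * E * E) := by
    generalize (E - 1) * E * E = A
    generalize E * Y = B
    generalize Y * E = C
    abel
  rw [h1, h0, zero_add]

/-- iterated commutators of `E - 1` with `Y` -/
def Z : ℕ → EndP
  | 0 => E - 1
  | (j + 1) => Z j * Y - Y * Z j

theorem gen_Z_E {R : Type*} [Ring R] (E Y z : R) (hEY : E * Y = Y * E + (E - 1) * E * E)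
    (ih : z * E = E * z) : (z * Y - Y * z) * E = E * (z * Y - Y * z) := by
  have h1 : Y * E = E * Y - (E - 1) * E * E := by rw [hEY]; noncomm_ring
  have c : Commute z E := ih
  have h2 : z * ((E - 1) * E * E) = ((E - 1) * E * E) * z :=
    ((c.sub_right (Commute.one_right z)).mul_right c).mul_right c
  calc (z * Y - Y * z) * E = z * (Y * E) - Y * (z * E) := by noncomm_ring
    _ = z * (E * Y - (E - 1) * E * E) - Y * (E * z) := by rw [h1, ih]
    _ = (z * E) * Y - z * ((E - 1) * E * E) - (Y * E) * z := by noncomm_ring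
    _ = (E * z) * Y - ((E - 1) * E * E) * z - (E * Y - (E - 1) * E * E) * z := by rw [ih, h1, h2]
    _ = E * (z * Y - Y * z) := by noncomm_ring

theorem Z_E (j : ℕ) : Z j * E = E * Z j := by
  induction j with
  | zero => simp only [Z]; noncomm_ring
  | succ j ih => exact gen_Z_E E Y (Z j) hEY ih

theorem gen_Z_q {R : Type*} [Ring R] (E Y q ε z w : R)
    (hYq : Y * q = q * Y + E * q) (hEε : E * ε = ε) (hYε : Y * ε = ε)
    (hz : z * E = E * z) (ih : z * q = q * z + ε * w) :
    (z * Y - Y * z) * q = q * (z * Y - Y * z) + ε * (w * Y) := by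
  calc (z * Y - Y * z) * q = z * (Y * q) - Y * (z * q) := by noncomm_ring
    _ = z * (q * Y + E * q) - Y * (q * z + ε * w) := by rw [hYq, ih]
    _ = (z * q) * Y + (z * E) * q - (Y * q) * z - (Y * ε) * w := by noncomm_ring
    _ = (q * z + ε * w) * Y + (E * z) * q - (q * Y + E * q) * z - ε * w := by
        rw [ih, hz, hYq, hYε]
    _ = q * (z * Y - Y * z) + ε * (w * Y) + E * (z * q) - E * q * z - ε * w := by noncomm_ring
    _ = q * (z * Y - Y * z) + ε * (w * Y) + E * (q * z + ε * w) - E * q * z - ε * w := by rw [ih]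
    _ = q * (z * Y - Y * z) + ε * (w * Y) + (E * ε) * w - ε * w := by noncomm_ring
    _ = q * (z * Y - Y * z) + ε * (w * Y) := by rw [hEε]; noncomm_ring

theorem Z_q (j : ℕ) : Z j * q = q * Z j + ε * Y ^ j := by
  induction j with
  | zero =>
    simp only [Z, pow_zero, mul_one]
    rw [sub_mul, hEq, mul_sub, one_mul, mul_one]
    abel
  | succ j ih =>
    rw [pow_succ]
    exact gen_Z_q E Y q ε (Z j) (Y ^ j) hYq hEε hYε (Z_E j) ih

theorem gen_Z_T {R : Type*} [Ring R] (E Y q ε z w : R)
    (hz : z * E = E * z) (ih : z * q = q * z + ε * w) :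
    z * (q + Y - E) = (q + Y - E) * z + ε * w + (z * Y - Y * z) := by
  calc z * (q + Y - E) = z * q + z * Y - z * E := by noncomm_ring
    _ = (q * z + ε * w) + z * Y - E * z := by rw [ih, hz]
    _ = (q + Y - E) * z + ε * w + (z * Y - Y * z) := by noncomm_ring

theorem Z_T (j : ℕ) : Z j * T = T * Z j + ε * Y ^ j + Z (j + 1) :=
  gen_Z_T E Y q ε (Z j) (Y ^ j) (Z_E j) (Z_q j)

theorem Z_one (j : ℕ) : Z j 1 = 0 := by
  induction j with
  | zero => simp [Z, E_one]
  | succ j ih =>
    simp only [Z, LinearMap.sub_apply, Module.End.mul_apply]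
    rw [Y_one, ih, map_zero, sub_zero]

end

end Pool.Agent.H27.PC
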