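import Mathlib
import Pool.Agent.H27.PCAlg

set_option autoImplicit false

namespace Pool.Agent.H27.PC

open Polynomial Finset

noncomputable section

/-- the powered Catalan polynomials -/
def Cn : ℕ → Polynomial ℤ
  | 0 => 1
  | (n + 1) => T (Cn n)

/-- the functional `p ↦ (Y^j p)(1)` -/
def φ (j : ℕ) (p : Polynomial ℤ) : ℤ := eval 1 ((Y ^ j) p)

theorem ε_apply (p : Polynomial ℤ) : ε p = C (eval 1 p) := by
  have h : ε = (Algebra.linearMap ℤ (Polynomial ℤ)).comp (Polynomial.leval (1 : ℤ)) := by
    apply end_ext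
    intro k
    rw [ε_pow]
    simp
  rw [h]
  simp

theorem φ_add (j : ℕ) (p r : Polynomial ℤ) : φ j (p + r) = φ j p + φ j r := by
  simp [φ]

theorem φ_smul (j : ℕ) (a : ℤ) (p : Polynomial ℤ) : φ j (a • p) = a * φ j p := by
  unfold φ
  rw [map_smul, eval_smul, smul_eq_mul]

theorem φ_zero (j : ℕ) : φ j 0 = 0 := by simp [φ]

theorem φ_sum {ι : Type*} (j : ℕ) (s : Finset ι) (f : ι → Polynomial ℤ) :
    φ j (∑ i ∈ s, f i) = ∑ i ∈ s, φ j (f i) := by
  simp [φ, eval_finsetSum]

theorem φ_succ (j : ℕ) (p : Polynomial ℤ) : φ (j + 1) p = φ j (Y p) := by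
  simp [φ, pow_succ, Module.End.mul_apply]

/-- coefficients of `Z j (Cn n)` -/
def dd (j s c : ℕ) : ℤ := ∑ u ∈ range s, ((u + c).choose c : ℤ) * φ (j + u) (Cn (s - 1 - u))

theorem dd_zero (j c : ℕ) : dd j 0 c = 0 := by simp [dd]

theorem dd_succ_zero (j s : ℕ) : dd j (s + 1) 0 = φ j (Cn s) + dd (j + 1) s 0 := by
  unfold dd
  rw [Finset.sum_range_succ', add_comm]
  congr 1
  · simp
  · apply Finset.sum_congr rfl
    intro u _
    have h1 : s + 1 - 1 - (u + 1) = s - 1 - u := by omega
    have h2 : j + (u + 1) = j + 1 + u := by omega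
    rw [h1, h2]
    simp

theorem dd_succ_succ (j s c : ℕ) :
    dd j (s + 1) (c + 1) = dd j (s + 1) c + dd (j + 1) s (c + 1) := by
  have hA : dd (j + 1) s (c + 1) = ∑ u ∈ range (s + 1), ((u + c).choose (c + 1) : ℤ) *
      φ (j + u) (Cn (s + 1 - 1 - u)) := by
    rw [Finset.sum_range_succ']
    have : (0 + c).choose (c + 1) = 0 := by
      rw [zero_add]; exact Nat.choose_succ_self c
    rw [this]
    simp only [Nat.cast_zero, zero_mul, add_zero]
    unfold dd
    apply Finset.sum_congr rfl
    intro u _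
    have h1 : s + 1 - 1 - (u + 1) = s - 1 - u := by omega
    have h2 : j + (u + 1) = j + 1 + u := by omega
    have h3 : u + 1 + c = u + (c + 1) := by omega
    rw [h1, h2, h3]
  rw [hA]
  unfold dd
  rw [← Finset.sum_add_distrib]
  apply Finset.sum_congr rfl
  intro u _
  rw [← add_mul]
  have : u + (c + 1) = (u + c) + 1 := by omega
  rw [this, Nat.choose_succ_succ]
  push_cast
  rfl

theorem Z_Cn (j n : ℕ) : Z j (Cn n) = ∑ t ∈ range n, dd j (n - t) t • Cn t := by
  induction n generalizing j with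
  | zero => simp [Cn, Z_one]
  | succ n ih =>
    have h1 : Z j (Cn (n + 1)) = T (Z j (Cn n)) + (C (φ j (Cn n)) : Polynomial ℤ)
        + Z (j + 1) (Cn n) := by
      show Z j (T (Cn n)) = _
      rw [← Module.End.mul_apply, Z_T]
      simp only [LinearMap.add_apply, Module.End.mul_apply]
      rw [ε_apply]
      rfl
    rw [h1, ih j, ih (j + 1), map_sum, Finset.sum_range_succ']
    have h2 : ∀ t, T (dd j (n - t) t • Cn t) = dd j (n - t) t • Cn (t + 1) := by
      intro t
      rw [map_smul]; rfl
    simp only [h2]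
    have h3 : dd j (n + 1 - 0) 0 • Cn 0 = (C (φ j (Cn n)) : Polynomial ℤ)
        + dd (j + 1) n 0 • Cn 0 := by
      rw [Nat.sub_zero, dd_succ_zero, add_smul]
      congr 1
      simp [Cn]
    rw [h3]
    have h4 : ∑ t ∈ range n, dd (j + 1) (n - t) t • Cn t =
        (∑ t ∈ range n, dd (j + 1) (n - (t + 1)) (t + 1) • Cn (t + 1)) + dd (j + 1) n 0 • Cn 0 := by
      have := Finset.sum_range_succ' (fun t => dd (j + 1) (n - t) t • Cn t) n
      rw [Finset.sum_range_succ] at this
      simp only [Nat.sub_self, dd_zero, zero_smul, add_zero, Nat.sub_zero] at this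
      exact this
    rw [h4]
    have h5 : ∑ t ∈ range n, dd j (n + 1 - (t + 1)) (t + 1) • Cn (t + 1) =
        ∑ t ∈ range n, dd j (n - t) t • Cn (t + 1) +
        ∑ t ∈ range n, dd (j + 1) (n - (t + 1)) (t + 1) • Cn (t + 1) := by
      rw [← Finset.sum_add_distrib]
      apply Finset.sum_congr rfl
      intro t ht
      rw [← add_smul]
      congr 1
      have ht' : t < n := Finset.mem_range.mp ht
      obtain ⟨m, rfl⟩ : ∃ m, n = t + 1 + m := ⟨n - (t + 1), by omega⟩
      have e1 : t + 1 + m + 1 - (t + 1) = m + 1 := by omega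
      have e2 : t + 1 + m - t = m + 1 := by omega
      have e3 : t + 1 + m - (t + 1) = m := by omega
      rw [e1, e2, e3]
      exact dd_succ_succ j m t
    rw [h5]
    abel

/-- the numbers `B_{s,c}` -/
def bb (s c : ℕ) : ℤ :=
  if s = 0 then 1 else ∑ u ∈ range s, ((u + 1 + c).choose c : ℤ) * φ u (Cn (s - 1 - u))

theorem bb_zero (c : ℕ) : bb 0 c = 1 := by simp [bb]

theorem bb_succ_zero (s : ℕ) : bb (s + 1) 0 = dd 0 (s + 1) 0 := by
  simp [bb, dd]

theorem bb_succ_succ (s c : ℕ) : bb (s + 1) (c + 1) = bb (s + 1) c + dd 0 (s + 1) (c + 1) := by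
  have hs : ¬ (s + 1 = 0) := by omega
  simp only [bb, dd, if_neg hs]
  rw [← Finset.sum_add_distrib]
  apply Finset.sum_congr rfl
  intro u _
  rw [zero_add, ← add_mul]
  congr 1
  have : u + 1 + (c + 1) = (u + 1 + c) + 1 := by omega
  have h2 : u + (c + 1) = u + 1 + c := by omega
  rw [this, Nat.choose_succ_succ, h2]
  push_cast
  ring

theorem hqQT : q * Q * T = T := by
  apply end_ext
  intro k
  rw [Module.End.mul_apply, Module.End.mul_apply, T_pow]
  have h1 : ∀ i : ℕ, q (Q ((i : Polynomial ℤ) * X ^ i)) = (i : Polynomial ℤ) * X ^ i := by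
    intro i
    have h0 : ((i : Polynomial ℤ) * X ^ i) = (i : ℤ) • (X ^ i : Polynomial ℤ) := by
      rw [zsmul_eq_mul]; simp
    rw [h0, map_smul, map_smul]
    cases i with
    | zero => simp
    | succ i => rw [Q_succ, q_pow]
  rw [map_add, map_add, Q_succ, q_pow, map_sum, map_sum]
  simp only [h1]

theorem hQT2 : Q * T = T * Q + Z 0 + (1 - q * Q) := by
  rw [hQT]
  have h1 : Z 0 = E * Q := by
    show E - 1 = E * Q
    nth_rewrite 1 [hEQ]
    simp
  rw [h1, T]
  noncomm_ring

theorem Q_Cn_succ_succ (n : ℕ) : Q (Cn (n + 2)) = T (Q (Cn (n + 1))) + Z 0 (Cn (n + 1)) := by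
  show Q (T (Cn (n + 1))) = _
  rw [← Module.End.mul_apply, hQT2]
  simp only [LinearMap.add_apply, LinearMap.sub_apply, Module.End.mul_apply, Module.End.one_apply]
  have h : q (Q (Cn (n + 1))) = Cn (n + 1) := by
    show q (Q (T (Cn n))) = T (Cn n)
    rw [← Module.End.mul_apply, ← Module.End.mul_apply, hqQT]
  rw [h, sub_self, add_zero]

theorem X_mul_Q_Cn (n : ℕ) : X * Q (Cn (n + 1)) = Cn (n + 1) := by
  rw [← q_apply]
  show q (Q (T (Cn n))) = T (Cn n)
  rw [← Module.End.mul_apply, ← Module.End.mul_apply, hqQT]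

theorem T_one : T 1 = X := by
  have := T_pow 0
  simpa using this

theorem Q_Cn (n : ℕ) : Q (Cn (n + 1)) = ∑ t ∈ range (n + 1), bb (n - t) t • Cn t := by
  induction n with
  | zero =>
    have h1 : Cn 1 = X := by
      show T 1 = X
      exact T_one
    have h2 : Q (X : Polynomial ℤ) = 1 := by
      have := Q_succ 0
      simpa using this
    rw [zero_add, h1, h2]
    simp [bb_zero, Cn]
  | succ n ih =>
    rw [Q_Cn_succ_succ, ih, Z_Cn, map_sum]
    have h2 : ∀ t, T (bb (n - t) t • Cn t) = bb (n - t) t • Cn (t + 1) := by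
      intro t
      rw [map_smul]; rfl
    simp only [h2]
    rw [Finset.sum_range_succ' (fun t => bb (n + 1 - t) t • Cn t),
      Finset.sum_range_succ' (fun t => dd 0 (n + 1 - t) t • Cn t),
      Finset.sum_range_succ (fun t => bb (n - t) t • Cn (t + 1)),
      Finset.sum_range_succ (fun t => bb (n + 1 - (t + 1)) (t + 1) • Cn (t + 1))]
    simp only [Nat.sub_zero, Nat.sub_self, bb_zero, bb_succ_zero]
    have h5 : ∑ t ∈ range n, bb (n + 1 - (t + 1)) (t + 1) • Cn (t + 1) =
        ∑ t ∈ range n, bb (n - t) t • Cn (t + 1) +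
        ∑ t ∈ range n, dd 0 (n + 1 - (t + 1)) (t + 1) • Cn (t + 1) := by
      rw [← Finset.sum_add_distrib]
      apply Finset.sum_congr rfl
      intro t ht
      rw [← add_smul]
      congr 1
      have ht' : t < n := Finset.mem_range.mp ht
      obtain ⟨m, rfl⟩ : ∃ m, n = t + 1 + m := ⟨n - (t + 1), by omega⟩
      have e1 : t + 1 + m + 1 - (t + 1) = m + 1 := by omega
      have e2 : t + 1 + m - t = m + 1 := by omega
      rw [e1, e2]
      exact bb_succ_succ m t
    rw [h5]
    abel

/-- `D_{s,c}` with the convention `D_{0,c} = 1`. -/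
def d1 (s c : ℕ) : ℤ := if s = 0 then 1 else dd 0 s c

theorem E_Cn (n : ℕ) : E (Cn n) = ∑ t ∈ range (n + 1), d1 (n - t) t • Cn t := by
  have h : E (Cn n) = Z 0 (Cn n) + Cn n := by
    show E (Cn n) = (E - 1) (Cn n) + Cn n
    simp
  rw [h, Z_Cn, Finset.sum_range_succ, Nat.sub_self]
  congr 1
  · apply Finset.sum_congr rfl
    intro t ht
    have ht' : t < n := Finset.mem_range.mp ht
    have : ¬ (n - t = 0) := by omega
    rw [d1, if_neg this]
  · simp [d1]

theorem Cn_monic_natDegree (n : ℕ) : (Cn n).natDegree ≤ n ∧ (Cn n).coeff n = 1 := by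
  induction n with
  | zero => simp [Cn]
  | succ n ih =>
    obtain ⟨h1, h2⟩ := ih
    have hT : ∀ p : Polynomial ℤ, p.natDegree ≤ n → (T p).natDegree ≤ n + 1 ∧
        (T p).coeff (n + 1) = p.coeff n := by
      intro p hp
      rw [Polynomial.as_sum_range' p (n + 1) (by omega), map_sum]
      have h3 : ∀ i : ℕ, T (monomial i (p.coeff i)) = p.coeff i • T (X ^ i) := by
        intro i
        rw [← map_smul]
        congr 1
        rw [smul_X_eq_monomial]
      simp only [h3, T_pow]
      constructor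
      · apply Polynomial.natDegree_sum_le_of_forall_le
        intro i hi
        have hi' : i < n + 1 := Finset.mem_range.mp hi
        refine (Polynomial.natDegree_smul_le _ _).trans ?_
        apply Polynomial.natDegree_add_le_of_degree_le
        · rw [natDegree_X_pow]; omega
        · apply Polynomial.natDegree_sum_le_of_forall_le
          intro j hj
          have hj' : j < i + 1 := Finset.mem_range.mp hj
          have h4 : ((j : Polynomial ℤ) * X ^ j) = C (j : ℤ) * X ^ j := by simp
          rw [h4]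
          exact (Polynomial.natDegree_C_mul_X_pow_le _ _).trans (by omega)
      · rw [Polynomial.finsetSum_coeff, Polynomial.finsetSum_coeff]
        apply Finset.sum_congr rfl
        intro i hi
        have hi' : i < n + 1 := Finset.mem_range.mp hi
        have h5 : (∑ j ∈ range (i + 1), (j : Polynomial ℤ) * X ^ j).coeff (n + 1) = 0 := by
          rw [Polynomial.finsetSum_coeff]
          apply Finset.sum_eq_zero
          intro j hj
          have hj' : j < i + 1 := Finset.mem_range.mp hj
          have h4 : ((j : Polynomial ℤ) * X ^ j) = C (j : ℤ) * X ^ j := by simp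
          rw [h4, Polynomial.coeff_C_mul_X_pow, if_neg (by omega)]
        rw [Polynomial.coeff_smul, Polynomial.coeff_add, h5, add_zero, Polynomial.coeff_X_pow,
          Polynomial.coeff_monomial]
        by_cases hin : i = n
        · subst hin; simp
        · rw [if_neg (by omega), if_neg hin]; simp
    obtain ⟨h3, h4⟩ := hT (Cn n) h1
    exact ⟨h3, by show (T (Cn n)).coeff (n + 1) = 1; rw [h4, h2]⟩

theorem Cn_indep (n : ℕ) (x : ℕ → ℤ) (h : ∑ t ∈ range n, x t • Cn t = 0) :
    ∀ t < n, x t = 0 := by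
  induction n with
  | zero => intro t ht; omega
  | succ n ih =>
    rw [Finset.sum_range_succ] at h
    have h1 : (∑ t ∈ range n, x t • Cn t).coeff n = 0 := by
      rw [Polynomial.finsetSum_coeff]
      apply Finset.sum_eq_zero
      intro t ht
      have ht' : t < n := Finset.mem_range.mp ht
      rw [Polynomial.coeff_smul, Polynomial.coeff_eq_zero_of_natDegree_lt
        (lt_of_le_of_lt (Cn_monic_natDegree t).1 ht'), smul_zero]
    have h2 := congrArg (fun p : Polynomial ℤ => p.coeff n) h
    simp only [Polynomial.coeff_add, h1, Polynomial.coeff_smul, (Cn_monic_natDegree n).2,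
      Polynomial.coeff_zero, zero_add, smul_eq_mul, mul_one] at h2
    rw [h2, zero_smul, add_zero] at h
    intro t ht
    by_cases htn : t = n
    · rw [htn]; exact h2
    · exact ih h t (by omega)

theorem Cn_indep' (n : ℕ) (x y : ℕ → ℤ)
    (h : ∑ t ∈ range n, x t • Cn t = ∑ t ∈ range n, y t • Cn t) :
    ∀ t < n, x t = y t := by
  have h1 : ∑ t ∈ range n, (x t - y t) • Cn t = 0 := by
    simp only [sub_smul, Finset.sum_sub_distrib, h, sub_self]
  intro t ht
  exact sub_eq_zero.mp (Cn_indep n (fun t => x t - y t) h1 t ht)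

/-- the fundamental convolution identity -/
theorem dd_conv (s c : ℕ) :
    dd 0 (s + 1) c = ∑ t ∈ range (s + 1), d1 t c * bb (s - t) (t + c) := by
  have h1 : Z 0 (Cn (s + 1 + c)) = E (Q (Cn (s + 1 + c))) := by
    have : Z 0 = E * Q := by
      show E - 1 = E * Q
      nth_rewrite 1 [hEQ]
      simp
    rw [this, Module.End.mul_apply]
  have h0 : s + 1 + c = s + c + 1 := by omega
  have h2 : E (Q (Cn (s + 1 + c))) = ∑ r ∈ range (s + c + 1),
      (∑ N ∈ range (s + c + 1), if r ≤ N then bb (s + c - N) N * d1 (N - r) r else 0) • Cn r := by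
    rw [h0, Q_Cn, map_sum]
    simp only [map_smul, E_Cn, Finset.smul_sum, smul_smul]
    have h3 : ∀ N ∈ range (s + c + 1), (∑ r ∈ range (N + 1),
        (bb (s + c - N) N * d1 (N - r) r) • Cn r) = ∑ r ∈ range (s + c + 1),
        (if r ≤ N then bb (s + c - N) N * d1 (N - r) r else 0) • Cn r := by
      intro N hN
      have hN' : N < s + c + 1 := Finset.mem_range.mp hN
      have hsub : range (N + 1) ⊆ range (s + c + 1) := Finset.range_subset_range.mpr (by omega)
      rw [← Finset.sum_subset hsub]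
      · apply Finset.sum_congr rfl
        intro r hr
        have hr' : r < N + 1 := Finset.mem_range.mp hr
        rw [if_pos (by omega)]
      · intro r _ hr
        have hr' : ¬ r < N + 1 := fun h => hr (Finset.mem_range.mpr h)
        rw [if_neg (by omega), zero_smul]
    rw [Finset.sum_congr rfl h3, Finset.sum_comm]
    simp only [Finset.sum_smul]
  rw [h2, h0, Z_Cn] at h1
  have h4 := Cn_indep' _ _ _ h1 c (by omega)
  have e1 : s + c + 1 - c = s + 1 := by omega
  rw [e1] at h4
  rw [h4]
  have h5 : s + c + 1 = c + (s + 1) := by omega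
  rw [h5, Finset.sum_range_add]
  have h6 : ∑ N ∈ range c, (if c ≤ N then bb (s + c - N) N * d1 (N - c) c else 0) = 0 := by
    apply Finset.sum_eq_zero
    intro N hN
    have hN' : N < c := Finset.mem_range.mp hN
    rw [if_neg (by omega)]
  rw [h6, zero_add]
  apply Finset.sum_congr rfl
  intro t ht
  have ht' : t < s + 1 := Finset.mem_range.mp ht
  rw [if_pos (by omega)]
  have e2 : s + c - (c + t) = s - t := by omega
  have e3 : c + t - c = t := by omega
  rw [e2, e3, add_comm c t, mul_comm]

/-- `U*_{n}(u)`, `u ≥ 1` shifted: `us m i = U*_{m+i+1}(i+1)`. -/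
def us (m i : ℕ) : ℤ := φ i (Cn m)

/-- `gs m i = G*_{m+i+1}(i+1)` -/
def gs (m i : ℕ) : ℤ := ∑ r ∈ range (m + 1), us (m - r) (i + r)

theorem φ_Q_succ (i m : ℕ) : φ i (Q (Cn (m + 1))) = φ i (Cn m) + φ (i + 1) (Q (Cn m)) := by
  have : Q (Cn (m + 1)) = Cn m + Y (Q (Cn m)) := by
    show Q (T (Cn m)) = _
    rw [← Module.End.mul_apply, hQT]
    simp [Module.End.mul_apply]
  rw [this, φ_add, φ_succ]

theorem gs_eq (m i : ℕ) : gs m i = φ i (Q (Cn (m + 1))) := by
  induction m generalizing i with
  | zero =>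
    rw [φ_Q_succ]
    simp [gs, us, Cn, Q_one, φ_zero]
  | succ m ih =>
    rw [φ_Q_succ, ← ih, gs, Finset.sum_range_succ', add_comm]
    congr 1
    · unfold gs
      apply Finset.sum_congr rfl
      intro r _
      have e1 : m + 1 - (r + 1) = m - r := by omega
      have e2 : i + (r + 1) = i + 1 + r := by omega
      rw [e1, e2]

theorem gs_conv (m i : ℕ) : gs m i = ∑ t ∈ range (m + 1), us t i * bb (m - t) t := by
  rw [gs_eq, Q_Cn, φ_sum]
  apply Finset.sum_congr rfl
  intro t _
  rw [φ_smul, us, mul_comm]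

end

end Pool.Agent.H27.PC
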