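import Mathlib

set_option autoImplicit false

namespace Pool.Agent.H27.PC

open Finset

/-- avoidance of the vincular pattern 23-1-4 for words -/
def Av (l : List ℕ) : Prop :=
  ∀ i j k, i + 1 < j → j < k → k < l.length →
    l.getD j 0 < l.getD i 0 → l.getD i 0 < l.getD (i + 1) 0 → l.getD k 0 ≤ l.getD (i + 1) 0

/-- all ascent tops of `l` are greater than `z` -/
def TopsGT (l : List ℕ) (z : ℕ) : Prop :=
  ∀ i, i + 1 < l.length → l.getD i 0 < l.getD (i + 1) 0 → z < l.getD (i + 1) 0

theorem getD_mem (l : List ℕ) (i : ℕ) (h : i < l.length) : l.getD i 0 ∈ l := by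
  rw [List.getD_eq_getElem _ _ h]
  exact List.getElem_mem h

theorem mem_getD {l : List ℕ} {x : ℕ} (h : x ∈ l) : ∃ i, i < l.length ∧ l.getD i 0 = x := by
  obtain ⟨i, hi, e⟩ := List.mem_iff_getElem.mp h
  exact ⟨i, hi, by rw [List.getD_eq_getElem _ _ hi]; exact e⟩

theorem getD_app_left (γ β : List ℕ) (i : ℕ) (h : i < γ.length) :
    (γ ++ β).getD i 0 = γ.getD i 0 := List.getD_append _ _ _ _ h

theorem getD_app_right (γ β : List ℕ) (i : ℕ) :
    (γ ++ β).getD (γ.length + i) 0 = β.getD i 0 := by
  rw [List.getD_append_right _ _ _ _ (by omega)]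
  congr 1
  omega

theorem topsGT_append (γ : List ℕ) (s : ℕ) (β' : List ℕ) (hs : ∀ x ∈ γ, s < x) (z : ℕ) :
    TopsGT (γ ++ s :: β') z ↔ TopsGT γ z ∧ TopsGT (s :: β') z := by
  constructor
  · intro h
    constructor
    · intro i hi hlt
      have := h i (by rw [List.length_append]; omega)
      rw [getD_app_left _ _ _ (by omega), getD_app_left _ _ _ hi] at this
      exact this hlt
    · intro i hi hlt
      have := h (γ.length + i) (by rw [List.length_append]; omega)
      rw [getD_app_right, add_assoc, getD_app_right] at this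
      exact this hlt
  · rintro ⟨h1, h2⟩ i hi hlt
    rw [List.length_append] at hi
    by_cases hc : i + 1 < γ.length
    · rw [getD_app_left _ _ _ (by omega), getD_app_left _ _ _ hc] at hlt
      rw [getD_app_left _ _ _ hc]
      exact h1 i hc hlt
    · by_cases hc2 : i + 1 = γ.length
      · exfalso
        rw [getD_app_left _ _ _ (by omega)] at hlt
        have h3 : (γ ++ s :: β').getD (i + 1) 0 = s := by
          have := getD_app_right γ (s :: β') 0
          rw [add_zero, ← hc2] at this
          rw [this]; rfl
        rw [h3] at hlt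
        have := hs _ (getD_mem γ i (by omega))
        omega
      · obtain ⟨j, rfl⟩ : ∃ j, i = γ.length + j := ⟨i - γ.length, by omega⟩
        rw [getD_app_right, add_assoc, getD_app_right] at hlt
        rw [add_assoc, getD_app_right]
        exact h2 j (by omega) hlt

theorem av_append (γ : List ℕ) (s : ℕ) (β' : List ℕ) (hs : ∀ x ∈ γ, s < x)
    (hd : ∀ x ∈ γ, ∀ y ∈ s :: β', x ≠ y) :
    Av (γ ++ s :: β') ↔ Av γ ∧ Av (s :: β') ∧ ∀ z ∈ s :: β', TopsGT γ z := by
  constructor
  · intro h
    refine ⟨?_, ?_, ?_⟩
    · intro i j k hij hjk hk h1 h2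
      have := h i j k hij hjk (by rw [List.length_append]; omega)
      rw [getD_app_left _ _ i (by omega), getD_app_left _ _ j (by omega),
        getD_app_left _ _ k (by omega), getD_app_left _ _ (i + 1) (by omega)] at this
      exact this h1 h2
    · intro i j k hij hjk hk h1 h2
      have := h (γ.length + i) (γ.length + j) (γ.length + k) (by omega) (by omega)
        (by rw [List.length_append]; omega)
      rw [add_assoc] at this
      simp only [getD_app_right] at this
      exact this h1 h2
    · intro z hz i hi hlt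
      obtain ⟨k', hk', rfl⟩ := mem_getD hz
      by_cases hk0 : k' = 0
      · subst hk0
        have := hs _ (getD_mem γ (i + 1) hi)
        simpa using this
      · have := h i γ.length (γ.length + k') (by omega) (by omega)
          (by rw [List.length_append]; omega)
        rw [getD_app_left _ _ i (by omega), getD_app_left _ _ (i + 1) (by omega),
          getD_app_right] at this
        have h3 : (γ ++ s :: β').getD γ.length 0 = s := by
          have := getD_app_right γ (s :: β') 0
          rw [add_zero] at this
          rw [this]; rfl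
        rw [h3] at this
        have h4 := this (hs _ (getD_mem γ i (by omega))) hlt
        have h5 := hd _ (getD_mem γ (i + 1) hi) _ hz
        omega
  · rintro ⟨h1, h2, h3⟩ i j k hij hjk hk hlt1 hlt2
    rw [List.length_append] at hk
    by_cases hc : i + 1 < γ.length
    · rw [getD_app_left _ _ i (by omega)] at hlt1 hlt2
      rw [getD_app_left _ _ (i + 1) hc] at hlt2 ⊢
      by_cases hkc : k < γ.length
      · rw [getD_app_left _ _ k hkc]
        rw [getD_app_left _ _ j (by omega)] at hlt1
        exact h1 i j k hij hjk hkc hlt1 hlt2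
      · obtain ⟨k', rfl⟩ : ∃ k', k = γ.length + k' := ⟨k - γ.length, by omega⟩
        rw [getD_app_right]
        have := h3 _ (getD_mem (s :: β') k' (by omega)) i hc hlt2
        omega
    · by_cases hc2 : i + 1 = γ.length
      · exfalso
        rw [getD_app_left _ _ i (by omega)] at hlt2
        have h4 : (γ ++ s :: β').getD (i + 1) 0 = s := by
          have := getD_app_right γ (s :: β') 0
          rw [add_zero, ← hc2] at this
          rw [this]; rfl
        rw [h4] at hlt2
        have := hs _ (getD_mem γ i (by omega))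
        omega
      · obtain ⟨i', rfl⟩ : ∃ i', i = γ.length + i' := ⟨i - γ.length, by omega⟩
        obtain ⟨j', rfl⟩ : ∃ j', j = γ.length + j' := ⟨j - γ.length, by omega⟩
        obtain ⟨k', rfl⟩ : ∃ k', k = γ.length + k' := ⟨k - γ.length, by omega⟩
        rw [add_assoc] at hlt2 ⊢
        simp only [getD_app_right] at hlt1 hlt2 ⊢
        exact h2 i' j' k' (by omega) (by omega) (by omega) hlt1 hlt2

/-- number of right-to-left minima -/
def rmin : List ℕ → ℕ
  | [] => 0
  | (a :: l) => rmin l + (if ∀ x ∈ l, a < x then 1 else 0)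

theorem rmin_append (γ : List ℕ) (m : ℕ) (τ : List ℕ) (h1 : ∀ x ∈ γ, m < x)
    (h2 : ∀ x ∈ τ, m < x) : rmin (γ ++ m :: τ) = rmin τ + 1 := by
  induction γ with
  | nil => simp only [List.nil_append, rmin, if_pos h2]
  | cons a γ ih =>
    have ih' := ih (fun x hx => h1 x (List.mem_cons_of_mem _ hx))
    simp only [List.cons_append, rmin, ih']
    have ha := h1 a List.mem_cons_self
    rw [if_neg]
    intro h
    have := h m (by simp)
    omega

/-- all arrangements of a finite set of naturals -/
noncomputable def perms (S : Finset ℕ) : Finset (List ℕ) := (S.toList.permutations).toFinset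

theorem mem_perms {S : Finset ℕ} {l : List ℕ} : l ∈ perms S ↔ l.Nodup ∧ l.toFinset = S := by
  unfold perms
  rw [List.mem_toFinset, List.mem_permutations]
  constructor
  · intro h
    refine ⟨h.nodup_iff.mpr S.nodup_toList, ?_⟩
    rw [List.toFinset_eq_of_perm _ _ h, Finset.toList_toFinset]
  · rintro ⟨h1, h2⟩
    apply List.perm_of_nodup_nodup_toFinset_eq h1 S.nodup_toList
    rw [h2, Finset.toList_toFinset]

theorem mem_of_perms {S : Finset ℕ} {l : List ℕ} (h : l ∈ perms S) (x : ℕ) : x ∈ l ↔ x ∈ S := by
  rw [← (mem_perms.mp h).2, List.mem_toFinset]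

theorem perms_empty : perms ∅ = {[]} := by
  ext l
  rw [mem_perms, Finset.mem_singleton, List.toFinset_eq_empty_iff]
  constructor
  · rintro ⟨_, h⟩; exact h
  · rintro rfl; exact ⟨List.nodup_nil, rfl⟩

/-- Splitting arrangements at the first entry satisfying `p`. -/
theorem sum_split {M : Type*} [AddCommMonoid M] (S : Finset ℕ) (p : ℕ → Prop) [DecidablePred p]
    (hS : ∃ x ∈ S, p x) (f : List ℕ → M) :
    ∑ l ∈ perms S, f l = ∑ A ∈ S.powerset,
      ∑ x ∈ ((perms A).filter (fun γ => ∀ x ∈ γ, ¬ p x)) ×ˢ
        ((perms (S \ A)).filter (fun β => ∃ h ∈ β.head?, p h)), f (x.1 ++ x.2) := by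
  rw [Finset.sum_sigma' S.powerset]
  have hhead : ∀ l : List ℕ, (∃ x ∈ l, p x) →
      ∃ h ∈ (l.dropWhile (fun x => !decide (p x))).head?, p h := by
    intro l
    induction l with
    | nil => rintro ⟨x, hx, _⟩; simp at hx
    | cons a l ih =>
      rintro ⟨x, hx, hpx⟩
      by_cases ha : p a
      · refine ⟨a, ?_, ha⟩
        simp [List.dropWhile_cons, ha]
      · have : ∃ x ∈ l, p x := by
          refine ⟨x, ?_, hpx⟩
          rcases List.mem_cons.mp hx with rfl | h
          · exact absurd hpx ha
          · exact h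
        simpa [List.dropWhile_cons, ha] using ih this
  refine Finset.sum_bij'
    (fun l _ => ⟨(l.takeWhile (fun x => !decide (p x))).toFinset,
      (l.takeWhile (fun x => !decide (p x)), l.dropWhile (fun x => !decide (p x)))⟩)
    (fun x _ => x.2.1 ++ x.2.2) ?_ ?_ ?_ ?_ ?_
  · intro l hl
    obtain ⟨h1, h2⟩ := mem_perms.mp hl
    have happ := List.takeWhile_append_dropWhile (p := fun x => !decide (p x)) (l := l)
    have hnd : (l.takeWhile (fun x => !decide (p x)) ++
        l.dropWhile (fun x => !decide (p x))).Nodup := by rwa [happ]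
    rw [List.nodup_append] at hnd
    have hmem : ∀ x, x ∈ l ↔ x ∈ S := mem_of_perms hl
    rw [Finset.mem_sigma, Finset.mem_product, Finset.mem_filter, Finset.mem_filter,
      Finset.mem_powerset]
    refine ⟨?_, ⟨?_, ?_⟩, ⟨?_, ?_⟩⟩
    · intro x hx
      rw [List.mem_toFinset] at hx
      rw [← hmem, ← happ]
      exact List.mem_append_left _ hx
    · exact mem_perms.mpr ⟨hnd.1, rfl⟩
    · intro x hx
      have := List.mem_takeWhile_imp hx
      simpa using this
    · apply mem_perms.mpr
      refine ⟨hnd.2.1, ?_⟩
      ext x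
      simp only [List.mem_toFinset, Finset.mem_sdiff]
      rw [← hmem x]
      constructor
      · intro hx
        refine ⟨?_, ?_⟩
        · rw [← happ]; exact List.mem_append_right _ hx
        · intro hx2
          exact hnd.2.2 x hx2 x hx rfl
      · rintro ⟨hx, hx2⟩
        rw [← happ, List.mem_append] at hx
        rcases hx with hx | hx
        · exact absurd hx hx2
        · exact hx
    · apply hhead
      obtain ⟨x, hx, hpx⟩ := hS
      exact ⟨x, (hmem x).mpr hx, hpx⟩
  · rintro ⟨A, γ, β⟩ hx
    rw [Finset.mem_sigma, Finset.mem_product, Finset.mem_filter, Finset.mem_filter,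
      Finset.mem_powerset] at hx
    simp only at hx
    obtain ⟨hA, ⟨hγ, hγ2⟩, hβ, hβ2⟩ := hx
    obtain ⟨g1, g2⟩ := mem_perms.mp hγ
    obtain ⟨b1, b2⟩ := mem_perms.mp hβ
    apply mem_perms.mpr
    constructor
    · rw [List.nodup_append]
      refine ⟨g1, b1, ?_⟩
      intro x hx y hy e
      subst e
      have h1 : x ∈ A := (mem_of_perms hγ x).mp hx
      have h2 : x ∈ S \ A := (mem_of_perms hβ x).mp hy
      exact (Finset.mem_sdiff.mp h2).2 h1
    · rw [List.toFinset_append, g2, b2]
      exact Finset.union_sdiff_of_subset hA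
  · intro l hl
    exact List.takeWhile_append_dropWhile
  · rintro ⟨A, γ, β⟩ hx
    rw [Finset.mem_sigma, Finset.mem_product, Finset.mem_filter, Finset.mem_filter,
      Finset.mem_powerset] at hx
    simp only at hx
    obtain ⟨hA, ⟨hγ, hγ2⟩, hβ, h, hh, hph⟩ := hx
    have hb : ∃ t, β = h :: t := by
      cases β with
      | nil => simp at hh
      | cons a t =>
        simp at hh
        exact ⟨t, by rw [hh]⟩
    obtain ⟨t, rfl⟩ := hb
    have e1 : (γ ++ h :: t).takeWhile (fun x => !decide (p x)) = γ := by
      rw [List.takeWhile_append_of_pos]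
      · simp [List.takeWhile_cons, hph]
      · intro a ha
        simpa using hγ2 a ha
    have e2 : (γ ++ h :: t).dropWhile (fun x => !decide (p x)) = h :: t := by
      rw [List.dropWhile_append_of_pos]
      · simp [List.dropWhile_cons, hph]
      · intro a ha
        simpa using hγ2 a ha
    simp only [e1, e2]
    rw [(mem_perms.mp hγ).2]
  · intro l hl
    show f l = f _
    rw [List.takeWhile_append_dropWhile]

end Pool.Agent.H27.PC
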