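import Mathlib
import Pool.Agent.H27.PCList

set_option autoImplicit false

namespace Pool.Agent.H27.PC

open Finset Classical

noncomputable section

def bSet (S Γ : Finset ℕ) : Finset (List ℕ) :=
  (perms S).filter (fun l => Av l ∧ ∀ z ∈ Γ, TopsGT l z)

def dSet (S Γ : Finset ℕ) : Finset (List ℕ) :=
  (perms S).filter (fun l => Av l ∧ ∀ z ∈ Γ, (TopsGT l z ∧ ∀ h ∈ l.head?, z < h))

def wSet (S : Finset ℕ) (z : ℕ) : Finset (List ℕ) :=
  (perms S).filter (fun l => Av l ∧ TopsGT l z ∧ ∃ h ∈ l.head?, h < z)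

def bC (S Γ : Finset ℕ) : ℤ := (bSet S Γ).card
def dC (S Γ : Finset ℕ) : ℤ := (dSet S Γ).card
def wC (S : Finset ℕ) (z : ℕ) : ℤ := (wSet S z).card

/-- generating polynomial of right-to-left minima -/
def rp (S : Finset ℕ) : Polynomial ℤ := ∑ l ∈ (perms S).filter (fun l => Av l), Polynomial.X ^ (rmin l)

theorem bC_eq (S Γ : Finset ℕ) :
    bC S Γ = ∑ l ∈ perms S, if (Av l ∧ ∀ z ∈ Γ, TopsGT l z) then (1 : ℤ) else 0 := by
  unfold bC bSet
  rw [Finset.card_filter]
  push_cast
  rfl

theorem dC_eq (S Γ : Finset ℕ) :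
    dC S Γ = ∑ l ∈ perms S,
      if (Av l ∧ ∀ z ∈ Γ, (TopsGT l z ∧ ∀ h ∈ l.head?, z < h)) then (1 : ℤ) else 0 := by
  unfold dC dSet
  rw [Finset.card_filter]
  push_cast
  rfl

theorem wC_eq (S : Finset ℕ) (z : ℕ) :
    wC S z = ∑ l ∈ perms S,
      if (Av l ∧ TopsGT l z ∧ ∃ h ∈ l.head?, h < z) then (1 : ℤ) else 0 := by
  unfold wC wSet
  rw [Finset.card_filter]
  push_cast
  rfl

/-- splitting at the minimum -/
theorem sum_split_min {M : Type*} [AddCommMonoid M] (m : ℕ) (S' : Finset ℕ) (hm : m ∉ S')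
    (f : List ℕ → M) :
    ∑ l ∈ perms (insert m S'), f l = ∑ A ∈ S'.powerset,
      ∑ γ ∈ perms A, ∑ τ ∈ perms (S' \ A), f (γ ++ m :: τ) := by
  rw [sum_split (insert m S') (fun x => x = m) ⟨m, Finset.mem_insert_self _ _, rfl⟩]
  have hsub : S'.powerset ⊆ (insert m S').powerset :=
    Finset.powerset_mono.mpr (Finset.subset_insert _ _)
  rw [← Finset.sum_subset hsub]
  · apply Finset.sum_congr rfl
    intro A hA
    rw [Finset.mem_powerset] at hA
    have hmA : m ∉ A := fun h => hm (hA h)
    rw [Finset.sum_product]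
    have h1 : (perms A).filter (fun γ => ∀ x ∈ γ, ¬ x = m) = perms A := by
      apply Finset.filter_true_of_mem
      intro γ hγ x hx e
      subst e
      exact hmA ((mem_of_perms hγ x).mp hx)
    rw [h1]
    apply Finset.sum_congr rfl
    intro γ hγ
    symm
    apply Finset.sum_bij (fun τ _ => m :: τ)
    · intro τ hτ
      obtain ⟨t1, t2⟩ := mem_perms.mp hτ
      rw [Finset.mem_filter]
      constructor
      · apply mem_perms.mpr
        constructor
        · rw [List.nodup_cons]
          refine ⟨?_, t1⟩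
          intro h
          have := (mem_of_perms hτ m).mp h
          exact hm (Finset.mem_sdiff.mp this).1
        · rw [List.toFinset_cons, t2]
          rw [Finset.insert_sdiff_of_notMem _ hmA]
      · exact ⟨m, by simp, rfl⟩
    · intro τ _ τ' _ e
      exact (List.cons.inj e).2
    · intro β hβ
      rw [Finset.mem_filter] at hβ
      obtain ⟨hβ1, h, hh, rfl⟩ := hβ
      obtain ⟨b1, b2⟩ := mem_perms.mp hβ1
      cases β with
      | nil => simp at hh
      | cons a t =>
        simp at hh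
        subst hh
        refine ⟨t, ?_, rfl⟩
        apply mem_perms.mpr
        rw [List.nodup_cons] at b1
        refine ⟨b1.2, ?_⟩
        rw [List.toFinset_cons, Finset.insert_sdiff_of_notMem _ hmA] at b2
        ext x
        have h3 := Finset.ext_iff.mp b2 x
        rw [Finset.mem_insert, Finset.mem_insert] at h3
        by_cases hx : x = a
        · subst hx
          constructor
          · intro hx2; rw [List.mem_toFinset] at hx2; exact absurd hx2 b1.1
          · intro hx2; exact absurd (Finset.mem_sdiff.mp hx2).1 hm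
        · simpa [hx] using h3
    · intro τ _
      rfl
  · intro A hA hA2
    have hmA : m ∈ A := by
      by_contra hcon
      apply hA2
      rw [Finset.mem_powerset] at hA ⊢
      intro x hx
      rcases Finset.mem_insert.mp (hA hx) with rfl | h
      · exact absurd hx hcon
      · exact h
    have h1 : (perms A).filter (fun γ => ∀ x ∈ γ, ¬ x = m) = ∅ := by
      apply Finset.filter_false_of_mem
      intro γ hγ h
      exact h m ((mem_of_perms hγ m).mpr hmA) rfl
    rw [h1, Finset.empty_product, Finset.sum_empty]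

theorem av_cons_min (m : ℕ) (τ : List ℕ) (h : ∀ x ∈ τ, m < x) : Av (m :: τ) ↔ Av τ := by
  constructor
  · intro hA i j k hij hjk hk h1 h2
    have := hA (i + 1) (j + 1) (k + 1) (by omega) (by omega) (by simpa using hk)
    simp only [List.getD_cons_succ] at this
    exact this h1 h2
  · intro hA i j k hij hjk hk h1 h2
    obtain ⟨j', rfl⟩ : ∃ j', j = j' + 1 := ⟨j - 1, by omega⟩
    obtain ⟨k', rfl⟩ : ∃ k', k = k' + 1 := ⟨k - 1, by omega⟩
    simp only [List.length_cons] at hk
    cases i with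
    | zero =>
      exfalso
      simp only [List.getD_cons_succ, List.getD_cons_zero] at h1
      have := h _ (getD_mem τ j' (by omega))
      omega
    | succ i =>
      simp only [List.getD_cons_succ] at h1 h2 ⊢
      exact hA i j' k' (by omega) (by omega) (by omega) h1 h2

theorem topsGT_cons_min (m : ℕ) (τ : List ℕ) (h : ∀ x ∈ τ, m < x) (z : ℕ) :
    TopsGT (m :: τ) z ↔ (TopsGT τ z ∧ ∀ h ∈ τ.head?, z < h) := by
  constructor
  · intro hA
    constructor
    · intro i hi h1
      have := hA (i + 1) (by simpa using hi)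
      simp only [List.getD_cons_succ] at this
      exact this h1
    · intro a ha
      cases τ with
      | nil => simp at ha
      | cons b t =>
        simp at ha
        subst ha
        have := hA 0 (by simp)
        simp only [List.getD_cons_succ, List.getD_cons_zero] at this
        exact this (h b (by simp))
  · rintro ⟨h1, h2⟩ i hi hlt
    simp only [List.length_cons] at hi
    cases i with
    | zero =>
      cases τ with
      | nil => simp at hi
      | cons b t =>
        simp only [List.getD_cons_succ, List.getD_cons_zero]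
        exact h2 b (by simp)
    | succ i =>
      simp only [List.getD_cons_succ] at hlt ⊢
      exact h1 i (by omega) hlt

theorem topsGT_of_lt (γ : List ℕ) (z : ℕ) (h : ∀ x ∈ γ, z < x) : TopsGT γ z := by
  intro i hi _
  exact h _ (getD_mem γ (i + 1) hi)

theorem sum_ite_mul {α β : Type*} (s : Finset α) (t : Finset β) (p : α → Prop) (r : β → Prop)
    (c : α → β → Prop) [DecidablePred p] [DecidablePred r] [∀ a b, Decidable (c a b)]
    (h : ∀ a ∈ s, ∀ b ∈ t, (c a b ↔ (p a ∧ r b))) :
    ∑ a ∈ s, ∑ b ∈ t, (if c a b then (1 : ℤ) else 0) =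
      (∑ a ∈ s, if p a then (1 : ℤ) else 0) * (∑ b ∈ t, if r b then (1 : ℤ) else 0) := by
  rw [Finset.sum_mul_sum]
  apply Finset.sum_congr rfl
  intro a ha
  apply Finset.sum_congr rfl
  intro b hb
  have := h a ha b hb
  by_cases hp : p a <;> by_cases hr : r b <;> simp [this, hp, hr]

theorem bC_insert_min (m : ℕ) (S' Γ : Finset ℕ) (hm : m ∉ S') (h1 : ∀ x ∈ S', m < x)
    (hdisj : Disjoint S' Γ) :
    bC (insert m S') Γ = ∑ A ∈ S'.powerset, bC A ((S' \ A) ∪ Γ) * dC (S' \ A) Γ := by
  rw [bC_eq, sum_split_min m S' hm]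
  apply Finset.sum_congr rfl
  intro A hA
  rw [Finset.mem_powerset] at hA
  rw [bC_eq, dC_eq]
  apply sum_ite_mul
  intro γ hγ τ hτ
  have hγ1 : ∀ x ∈ γ, m < x := fun x hx => h1 x (hA ((mem_of_perms hγ x).mp hx))
  have hτ1 : ∀ x ∈ τ, m < x := fun x hx =>
    h1 x (Finset.mem_sdiff.mp ((mem_of_perms hτ x).mp hx)).1
  have hd : ∀ x ∈ γ, ∀ y ∈ m :: τ, x ≠ y := by
    intro x hx y hy e
    subst e
    rcases List.mem_cons.mp hy with h | h
    · have := hγ1 x hx; omega
    · exact (Finset.mem_sdiff.mp ((mem_of_perms hτ x).mp h)).2 ((mem_of_perms hγ x).mp hx)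
  rw [av_append γ m τ hγ1 hd, av_cons_min m τ hτ1]
  simp only [topsGT_append γ m τ hγ1, topsGT_cons_min m τ hτ1]
  constructor
  · rintro ⟨⟨a1, a2, a3⟩, a4⟩
    refine ⟨⟨a1, ?_⟩, a2, fun z hz => (a4 z hz).2⟩
    intro z hz
    rcases Finset.mem_union.mp hz with h | h
    · exact a3 z (List.mem_cons_of_mem _ ((mem_of_perms hτ z).mpr h))
    · exact (a4 z h).1
  · rintro ⟨⟨a1, a2⟩, a3, a4⟩
    refine ⟨⟨a1, a3, ?_⟩, fun z hz => ⟨a2 z (Finset.mem_union_right _ hz), a4 z hz⟩⟩
    intro z hz
    rcases List.mem_cons.mp hz with h | h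
    · rw [h]; exact topsGT_of_lt γ m hγ1
    · exact a2 z (Finset.mem_union_left _ ((mem_of_perms hτ z).mp h))

theorem rp_insert_min (m : ℕ) (S' : Finset ℕ) (hm : m ∉ S') (h1 : ∀ x ∈ S', m < x) :
    rp (insert m S') = Polynomial.X * ∑ A ∈ S'.powerset, bC A (S' \ A) • rp (S' \ A) := by
  unfold rp
  rw [Finset.sum_filter, sum_split_min m S' hm, Finset.mul_sum]
  apply Finset.sum_congr rfl
  intro A hA
  rw [Finset.mem_powerset] at hA
  rw [bC_eq, Finset.sum_filter, Finset.sum_smul, Finset.mul_sum]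
  apply Finset.sum_congr rfl
  intro γ hγ
  rw [Finset.smul_sum, Finset.mul_sum]
  apply Finset.sum_congr rfl
  intro τ hτ
  have hγ1 : ∀ x ∈ γ, m < x := fun x hx => h1 x (hA ((mem_of_perms hγ x).mp hx))
  have hτ1 : ∀ x ∈ τ, m < x := fun x hx =>
    h1 x (Finset.mem_sdiff.mp ((mem_of_perms hτ x).mp hx)).1
  have hd : ∀ x ∈ γ, ∀ y ∈ m :: τ, x ≠ y := by
    intro x hx y hy e
    subst e
    rcases List.mem_cons.mp hy with h | h
    · have := hγ1 x hx; omega
    · exact (Finset.mem_sdiff.mp ((mem_of_perms hτ x).mp h)).2 ((mem_of_perms hγ x).mp hx)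
  have hiff : Av (γ ++ m :: τ) ↔ ((Av γ ∧ ∀ z ∈ S' \ A, TopsGT γ z) ∧ Av τ) := by
    rw [av_append γ m τ hγ1 hd, av_cons_min m τ hτ1]
    constructor
    · rintro ⟨a1, a2, a3⟩
      exact ⟨⟨a1, fun z hz => a3 z (List.mem_cons_of_mem _ ((mem_of_perms hτ z).mpr hz))⟩, a2⟩
    · rintro ⟨⟨a1, a2⟩, a3⟩
      refine ⟨a1, a3, ?_⟩
      intro z hz
      rcases List.mem_cons.mp hz with h | h
      · rw [h]; exact topsGT_of_lt γ m hγ1
      · exact a2 z ((mem_of_perms hτ z).mp h)
  rw [rmin_append γ m τ hγ1 hτ1]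
  by_cases hp : (Av γ ∧ ∀ z ∈ S' \ A, TopsGT γ z)
  · by_cases hr : Av τ
    · rw [if_pos (hiff.mpr ⟨hp, hr⟩), if_pos hp, if_pos hr, one_smul, pow_succ']
    · rw [if_neg (fun h => hr (hiff.mp h).2), if_neg hr, smul_zero, mul_zero]
  · rw [if_neg (fun h => hp (hiff.mp h).1), if_neg hp, zero_smul, mul_zero]

theorem bC_insert_ghost (m : ℕ) (S Γ : Finset ℕ) (h1 : ∀ x ∈ S, m < x) :
    bC S (insert m Γ) = bC S Γ := by
  unfold bC bSet
  congr 2
  apply Finset.filter_congr
  intro l hl
  constructor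
  · rintro ⟨a, b⟩
    exact ⟨a, fun z hz => b z (Finset.mem_insert_of_mem hz)⟩
  · rintro ⟨a, b⟩
    refine ⟨a, fun z hz => ?_⟩
    rcases Finset.mem_insert.mp hz with rfl | h
    · exact topsGT_of_lt l z (fun x hx => h1 x ((mem_of_perms hl x).mp hx))
    · exact b z h

/-- splitting at the first small entry -/
theorem bC_split_small (S : Finset ℕ) (z : ℕ) (hz : z ∉ S) (hsm : ∃ x ∈ S, x < z) :
    bC S {z} = ∑ A ∈ (S.filter (fun x => z < x)).powerset,
      bC A ((S.filter (fun x => z < x)) \ A) * wC (S \ A) z := by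
  rw [bC_eq, sum_split S (fun x => x < z) hsm]
  have hsub : (S.filter (fun x => z < x)).powerset ⊆ S.powerset :=
    Finset.powerset_mono.mpr (Finset.filter_subset _ _)
  rw [← Finset.sum_subset hsub]
  · apply Finset.sum_congr rfl
    intro A hA
    rw [Finset.mem_powerset] at hA
    have hAz : ∀ x ∈ A, z < x := fun x hx => (Finset.mem_filter.mp (hA hx)).2
    have hAS : ∀ x ∈ A, x ∈ S := fun x hx => (Finset.mem_filter.mp (hA hx)).1
    rw [Finset.sum_product]
    have h1 : (perms A).filter (fun γ => ∀ x ∈ γ, ¬ x < z) = perms A := by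
      apply Finset.filter_true_of_mem
      intro γ hγ x hx
      have := hAz x ((mem_of_perms hγ x).mp hx)
      omega
    rw [h1, bC_eq, wC_eq]
    rw [← Finset.sum_subset (Finset.filter_subset (fun β => ∃ h ∈ β.head?, h < z) (perms (S \ A)))]
    · apply sum_ite_mul
      intro γ hγ β hβ
      rw [Finset.mem_filter] at hβ
      obtain ⟨hβ1, h, hh, hhz⟩ := hβ
      cases β with
      | nil => simp at hh
      | cons a t =>
        simp at hh
        subst hh
        have hγ1 : ∀ x ∈ γ, z < x := fun x hx => hAz x ((mem_of_perms hγ x).mp hx)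
        have hγ2 : ∀ x ∈ γ, a < x := fun x hx => lt_trans hhz (hγ1 x hx)
        have hd : ∀ x ∈ γ, ∀ y ∈ a :: t, x ≠ y := by
          intro x hx y hy e
          subst e
          exact (Finset.mem_sdiff.mp ((mem_of_perms hβ1 x).mp hy)).2 ((mem_of_perms hγ x).mp hx)
        rw [av_append γ a t hγ2 hd]
        simp only [Finset.mem_singleton, forall_eq, topsGT_append γ a t hγ2]
        constructor
        · rintro ⟨⟨a1, a2, a3⟩, a4, a5⟩
          refine ⟨⟨a1, ?_⟩, a2, a5, a, by simp, hhz⟩
          intro y hy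
          rw [Finset.mem_sdiff, Finset.mem_filter] at hy
          exact a3 y ((mem_of_perms hβ1 y).mpr (Finset.mem_sdiff.mpr ⟨hy.1.1, hy.2⟩))
        · rintro ⟨⟨a1, a2⟩, a3, a4, _⟩
          refine ⟨⟨a1, a3, ?_⟩, topsGT_of_lt γ z hγ1, a4⟩
          intro y hy
          have hy' := Finset.mem_sdiff.mp ((mem_of_perms hβ1 y).mp hy)
          by_cases hyz : z < y
          · exact a2 y (Finset.mem_sdiff.mpr ⟨Finset.mem_filter.mpr ⟨hy'.1, hyz⟩, hy'.2⟩)
          · apply topsGT_of_lt
            intro x hx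
            have := hγ1 x hx
            omega
    · intro β hβ hβ2
      rw [if_neg]
      rintro ⟨_, _, h3⟩
      exact hβ2 (Finset.mem_filter.mpr ⟨hβ, h3⟩)
  · intro A hA hA2
    have hmA : ∃ x ∈ A, x < z := by
      by_contra hcon
      push Not at hcon
      apply hA2
      rw [Finset.mem_powerset] at hA ⊢
      intro x hx
      rw [Finset.mem_filter]
      refine ⟨hA hx, ?_⟩
      have h1 := hcon x hx
      have h2 : x ≠ z := fun e => hz (e ▸ hA hx)
      omega
    obtain ⟨x, hx, hxz⟩ := hmA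
    have h1 : (perms A).filter (fun γ => ∀ x ∈ γ, ¬ x < z) = ∅ := by
      apply Finset.filter_false_of_mem
      intro γ hγ h
      exact h x ((mem_of_perms hγ x).mpr hx) hxz
    rw [h1, Finset.empty_product, Finset.sum_empty]

end

end Pool.Agent.H27.PC
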