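import Mathlib
import Pool.Agent.H27.PCAlg2

set_option autoImplicit false

namespace Pool.Agent.H27.PC

open Finset Polynomial

/-- avoidance of 110 for words -/
def Av110 (l : List ℕ) : Prop :=
  ∀ i j k, i < j → j < k → k < l.length → l.getD i 0 = l.getD j 0 → l.getD j 0 ≤ l.getD k 0

/-- no entry `b < a` after the first entry `a` -/
def NoBelow (a : ℕ) (l : List ℕ) : Prop :=
  ∀ j k, j < k → k < l.length → l.getD j 0 = a → a ≤ l.getD k 0

theorem noBelow_nil (a : ℕ) : NoBelow a [] := by
  intro j k _ hk _
  simp at hk

theorem noBelow_cons (a x : ℕ) (l : List ℕ) :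
    NoBelow a (x :: l) ↔ (x = a → ∀ y ∈ l, a ≤ y) ∧ NoBelow a l := by
  constructor
  · intro h
    constructor
    · intro hx y hy
      obtain ⟨i, hi, rfl⟩ := List.mem_iff_getElem.mp hy
      have := h 0 (i + 1) (by omega) (by simpa using hi) (by simpa using hx)
      rw [List.getD_cons_succ, List.getD_eq_getElem _ _ hi] at this
      exact this
    · intro j k hjk hk hj
      have := h (j + 1) (k + 1) (by omega) (by simpa using hk) (by simpa using hj)
      simpa using this
  · rintro ⟨h1, h2⟩ j k hjk hk hj
    obtain ⟨k', rfl⟩ : ∃ k', k = k' + 1 := ⟨k - 1, by omega⟩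
    have hk' : k' < l.length := by simpa using hk
    rcases Nat.eq_zero_or_pos j with rfl | hj0
    · have hx : x = a := by simpa using hj
      have := h1 hx (l.getD k' 0) (by rw [List.getD_eq_getElem _ _ hk']; exact List.getElem_mem hk')
      simpa using this
    · obtain ⟨j', rfl⟩ : ∃ j', j = j' + 1 := ⟨j - 1, by omega⟩
      have := h2 j' k' (by omega) hk' (by simpa using hj)
      simpa using this

theorem av110_nil : Av110 [] := by
  intro i j k _ _ hk _
  simp at hk

theorem av110_cons (a : ℕ) (l : List ℕ) : Av110 (a :: l) ↔ NoBelow a l ∧ Av110 l := by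
  constructor
  · intro h
    constructor
    · intro j k hjk hk hj
      have := h 0 (j + 1) (k + 1) (by omega) (by omega) (by simpa using hk) (by simpa using hj.symm)
      have h2 : l.getD j 0 ≤ l.getD k 0 := by simpa using this
      rwa [hj] at h2
    · intro i j k hij hjk hk he
      have := h (i + 1) (j + 1) (k + 1) (by omega) (by omega) (by simpa using hk) (by simpa using he)
      simpa using this
  · rintro ⟨h1, h2⟩ i j k hij hjk hk he
    obtain ⟨k', rfl⟩ : ∃ k', k = k' + 1 := ⟨k - 1, by omega⟩
    obtain ⟨j', rfl⟩ : ∃ j', j = j' + 1 := ⟨j - 1, by omega⟩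
    have hk' : k' < l.length := by simpa using hk
    rcases Nat.eq_zero_or_pos i with rfl | hi0
    · have he' : a = l.getD j' 0 := by simpa using he
      have := h1 j' k' (by omega) hk' he'.symm
      rw [he'] at this
      simpa using this
    · obtain ⟨i', rfl⟩ : ∃ i', i = i' + 1 := ⟨i - 1, by omega⟩
      have := h2 i' j' k' (by omega) (by omega) hk' (by simpa using he)
      simpa using this

/-- all words `m` with `m.map pred = l` -/
def Fib : List ℕ → Finset (List ℕ)
  | [] => {[]}
  | (0 :: l) => (Fib l).image (List.cons 0) ∪ (Fib l).image (List.cons 1)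
  | ((x + 1) :: l) => (Fib l).image (List.cons (x + 2))

theorem mem_Fib (l m : List ℕ) : m ∈ Fib l ↔ m.map Nat.pred = l := by
  induction l generalizing m with
  | nil => simp [Fib]
  | cons x l ih =>
    cases x with
    | zero =>
      rw [Fib, Finset.mem_union, Finset.mem_image, Finset.mem_image]
      constructor
      · rintro (⟨m', hm', rfl⟩ | ⟨m', hm', rfl⟩)
        · rw [List.map_cons, (ih m').mp hm']; rfl
        · rw [List.map_cons, (ih m').mp hm']; rfl
      · intro h
        cases m with
        | nil => simp at h
        | cons y m' =>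
          rw [List.map_cons, List.cons.injEq] at h
          obtain ⟨h1, h2⟩ := h
          have : y = 0 ∨ y = 1 := by
            rcases y with _ | _ | y
            · left; rfl
            · right; rfl
            · simp at h1
          rcases this with rfl | rfl
          · left; exact ⟨m', (ih m').mpr h2, rfl⟩
          · right; exact ⟨m', (ih m').mpr h2, rfl⟩
    | succ x =>
      rw [Fib, Finset.mem_image]
      constructor
      · rintro ⟨m', hm', rfl⟩
        rw [List.map_cons, (ih m').mp hm']; rfl
      · intro h
        cases m with
        | nil => simp at h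
        | cons y m' =>
          rw [List.map_cons, List.cons.injEq] at h
          obtain ⟨h1, h2⟩ := h
          have : y = x + 2 := by
            rcases y with _ | y
            · simp at h1
            · have : y = x + 1 := by simpa using h1
              omega
          subst this
          exact ⟨m', (ih m').mpr h2, rfl⟩

/-- no zero in the word -/
def P2 (m : List ℕ) : Prop := ∀ y ∈ m, 1 ≤ y

/-- no zero after a one -/
def P1 (m : List ℕ) : Prop := NoBelow 1 m

/-- no `1,1,0` subword -/
def P0 : List ℕ → Prop
  | [] => True
  | (x :: m) => (x = 1 → P1 m) ∧ P0 m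

theorem av110_iff (m : List ℕ) : Av110 (0 :: m) ↔ Av110 (m.map Nat.pred) ∧ P0 m := by
  have key : ∀ m : List ℕ, Av110 m ↔ Av110 (m.map Nat.pred) ∧ P0 m := by
    intro m
    induction m with
    | nil => simp [P0, av110_nil]
    | cons a m ih =>
      rw [av110_cons, List.map_cons, av110_cons, P0, ih]
      rcases a with _ | _ | a
      · constructor
        · rintro ⟨_, h2, h3⟩
          refine ⟨⟨?_, h2⟩, ?_, h3⟩
          · intro j k _ _ _; exact Nat.zero_le _
          · intro h; omega
        · rintro ⟨⟨_, h2⟩, _, h3⟩
          refine ⟨?_, h2, h3⟩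
          intro j k _ _ _; exact Nat.zero_le _
      · constructor
        · rintro ⟨h1, h2, h3⟩
          refine ⟨⟨?_, h2⟩, fun _ => h1, h3⟩
          intro j k _ _ _; exact Nat.zero_le _
        · rintro ⟨⟨_, h2⟩, h1, h3⟩
          exact ⟨h1 rfl, h2, h3⟩
      · have hN : NoBelow (a + 1 + 1) m ↔ NoBelow (a + 1) (m.map Nat.pred) := by
          constructor
          · intro h j k hjk hk hj
            rw [List.length_map] at hk
            have e1 : (m.map Nat.pred).getD j 0 = Nat.pred (m.getD j 0) := by
              rw [List.getD_eq_getElem _ _ (by rw [List.length_map]; omega),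
                List.getD_eq_getElem _ _ (by omega), List.getElem_map]
            have e2 : (m.map Nat.pred).getD k 0 = Nat.pred (m.getD k 0) := by
              rw [List.getD_eq_getElem _ _ (by rw [List.length_map]; omega),
                List.getD_eq_getElem _ _ (by omega), List.getElem_map]
            rw [e1, Nat.pred_eq_sub_one] at hj
            rw [e2, Nat.pred_eq_sub_one]
            have := h j k hjk hk (by omega)
            omega
          · intro h j k hjk hk hj
            have e1 : (m.map Nat.pred).getD j 0 = Nat.pred (m.getD j 0) := by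
              rw [List.getD_eq_getElem _ _ (by rw [List.length_map]; omega),
                List.getD_eq_getElem _ _ (by omega), List.getElem_map]
            have e2 : (m.map Nat.pred).getD k 0 = Nat.pred (m.getD k 0) := by
              rw [List.getD_eq_getElem _ _ (by rw [List.length_map]; omega),
                List.getD_eq_getElem _ _ (by omega), List.getElem_map]
            have := h j k hjk (by rw [List.length_map]; exact hk) (by rw [e1, hj]; rfl)
            rw [e2, Nat.pred_eq_sub_one] at this
            omega
        rw [hN]
        have hp : Nat.pred (a + 1 + 1) = a + 1 := rfl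
        rw [hp]
        constructor
        · rintro ⟨h1, h2, h3⟩
          exact ⟨⟨h1, h2⟩, fun h => by omega, h3⟩
        · rintro ⟨⟨h1, h2⟩, _, h3⟩
          exact ⟨h1, h2, h3⟩
  rw [av110_cons, key m]
  constructor
  · rintro ⟨_, h⟩; exact h
  · intro h
    refine ⟨?_, h⟩
    intro j k _ _ _; exact Nat.zero_le _

open Classical in
/-- sum over fiber with property -/
noncomputable def fs (P : List ℕ → Prop) (l : List ℕ) : Polynomial ℤ :=
  ∑ m ∈ (Fib l).filter P, X ^ (m.count 0)

theorem fs_zero (P P' P'' : List ℕ → Prop) (l : List ℕ) (h0 : ∀ m, P (0 :: m) ↔ P' m)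
    (h1 : ∀ m, P (1 :: m) ↔ P'' m) : fs P (0 :: l) = X * fs P' l + fs P'' l := by
  classical
  unfold fs
  rw [Fib, Finset.filter_union, Finset.sum_union]
  · congr 1
    · rw [Finset.mul_sum]
      symm
      apply Finset.sum_bij (fun m _ => 0 :: m)
      · intro m hm
        rw [Finset.mem_filter] at hm ⊢
        exact ⟨Finset.mem_image_of_mem _ hm.1, (h0 m).mpr hm.2⟩
      · intro a _ b _ h
        exact (List.cons.inj h).2
      · intro b hb
        rw [Finset.mem_filter, Finset.mem_image] at hb
        obtain ⟨⟨m, hm, rfl⟩, hP⟩ := hb
        exact ⟨m, Finset.mem_filter.mpr ⟨hm, (h0 m).mp hP⟩, rfl⟩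
      · intro m _
        rw [List.count_cons_self, pow_succ, mul_comm]
    · symm
      apply Finset.sum_bij (fun m _ => 1 :: m)
      · intro m hm
        rw [Finset.mem_filter] at hm ⊢
        exact ⟨Finset.mem_image_of_mem _ hm.1, (h1 m).mpr hm.2⟩
      · intro a _ b _ h
        exact (List.cons.inj h).2
      · intro b hb
        rw [Finset.mem_filter, Finset.mem_image] at hb
        obtain ⟨⟨m, hm, rfl⟩, hP⟩ := hb
        exact ⟨m, Finset.mem_filter.mpr ⟨hm, (h1 m).mp hP⟩, rfl⟩
      · intro m _
        rw [List.count_cons_of_ne (by norm_num)]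
  · rw [Finset.disjoint_left]
    intro m hm1 hm2
    rw [Finset.mem_filter, Finset.mem_image] at hm1 hm2
    obtain ⟨⟨a, _, rfl⟩, _⟩ := hm1
    obtain ⟨⟨b, _, hb⟩, _⟩ := hm2
    have := (List.cons.inj hb).1
    omega

theorem fs_succ (P : List ℕ → Prop) (l : List ℕ) (x : ℕ) (h0 : ∀ m, P ((x + 2) :: m) ↔ P m) :
    fs P ((x + 1) :: l) = fs P l := by
  classical
  unfold fs
  rw [Fib]
  symm
  apply Finset.sum_bij (fun m _ => (x + 2) :: m)
  · intro m hm
    rw [Finset.mem_filter] at hm ⊢
    exact ⟨Finset.mem_image_of_mem _ hm.1, (h0 m).mpr hm.2⟩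
  · intro a _ b _ h
    exact (List.cons.inj h).2
  · intro b hb
    rw [Finset.mem_filter, Finset.mem_image] at hb
    obtain ⟨⟨m, hm, rfl⟩, hP⟩ := hb
    exact ⟨m, Finset.mem_filter.mpr ⟨hm, (h0 m).mp hP⟩, rfl⟩
  · intro m _
    rw [List.count_cons_of_ne (by omega)]

theorem fs_P2 (l : List ℕ) : fs P2 l = 1 := by
  classical
  induction l with
  | nil =>
    unfold fs
    rw [Fib, Finset.filter_singleton, if_pos (by intro y hy; simp at hy)]
    simp
  | cons x l ih =>
    cases x with
    | zero =>
      rw [fs_zero P2 (fun _ => False) P2]
      · rw [ih]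
        unfold fs
        simp
      · intro m
        simp [P2]
      · intro m
        simp [P2]
    | succ x =>
      rw [fs_succ, ih]
      intro m
      simp [P2]

theorem fs_P1 (l : List ℕ) : fs P1 l = ∑ i ∈ range (l.count 0 + 1), X ^ i := by
  classical
  induction l with
  | nil =>
    unfold fs
    rw [Fib, Finset.filter_singleton, if_pos (show P1 [] from noBelow_nil 1)]
    simp
  | cons x l ih =>
    cases x with
    | zero =>
      rw [fs_zero P1 P1 P2]
      · rw [ih, fs_P2, List.count_cons_self, Finset.sum_range_succ' _ (l.count 0 + 1), Finset.mul_sum]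
        congr 1
        apply Finset.sum_congr rfl
        intro i _
        rw [pow_succ, mul_comm]
      · intro m
        unfold P1
        rw [noBelow_cons]
        constructor
        · rintro ⟨_, h⟩; exact h
        · intro h; exact ⟨fun h => by omega, h⟩
      · intro m
        unfold P1
        rw [noBelow_cons]
        constructor
        · rintro ⟨h, _⟩; exact h rfl
        · intro h
          refine ⟨fun _ => h, ?_⟩
          intro j k _ hk _
          exact h _ (by rw [List.getD_eq_getElem _ _ hk]; exact List.getElem_mem hk)
    | succ x =>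
      rw [fs_succ, ih, List.count_cons_of_ne (by omega)]
      intro m
      unfold P1
      rw [noBelow_cons]
      constructor
      · rintro ⟨_, h⟩; exact h
      · intro h; exact ⟨fun h => by omega, h⟩

theorem fs_P0 (l : List ℕ) : X * fs P0 l = T (X ^ (l.count 0)) := by
  classical
  rw [T_pow]
  induction l with
  | nil =>
    unfold fs
    rw [Fib, Finset.filter_singleton, if_pos (by trivial)]
    simp
  | cons x l ih =>
    cases x with
    | zero =>
      rw [fs_zero P0 P0 P1]
      · rw [mul_add, ih, fs_P1, List.count_cons_self, Finset.sum_range_succ' _ (l.count 0 + 1),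
          Finset.mul_sum, mul_add, ← pow_succ', Finset.mul_sum, Nat.cast_zero, zero_mul, add_zero,
          add_assoc, ← Finset.sum_add_distrib]
        congr 1
        apply Finset.sum_congr rfl
        intro i _
        rw [Nat.cast_add, Nat.cast_one]
        ring
      · intro m
        rw [P0]
        constructor
        · rintro ⟨_, h⟩; exact h
        · intro h; exact ⟨fun h => by omega, h⟩
      · intro m
        rw [P0]
        constructor
        · rintro ⟨h, _⟩; exact h rfl
        · intro h
          refine ⟨fun _ => h, ?_⟩
          clear ih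
          induction m with
          | nil => trivial
          | cons y m ihm =>
            have h' : (y = 1 → ∀ z ∈ m, 1 ≤ z) ∧ NoBelow 1 m := (noBelow_cons 1 y m).mp h
            exact ⟨fun _ => h'.2, ihm h'.2⟩
    | succ x =>
      rw [fs_succ, ih, List.count_cons_of_ne (by omega)]
      intro m
      rw [P0]
      constructor
      · rintro ⟨_, h⟩; exact h
      · intro h; exact ⟨fun h => by omega, h⟩

/-- inversion sequences of length `n` as words -/
def InvS : ℕ → Finset (List ℕ)
  | 0 => {[]}
  | (n + 1) => (InvS n).biUnion (fun l => (Fib l).image (List.cons 0))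

theorem mem_InvS (n : ℕ) (l : List ℕ) :
    l ∈ InvS n ↔ l.length = n ∧ ∀ i, i < n → l.getD i 0 ≤ i := by
  induction n generalizing l with
  | zero =>
    rw [InvS, Finset.mem_singleton]
    constructor
    · rintro rfl; exact ⟨rfl, fun i hi => by omega⟩
    · rintro ⟨h, _⟩; exact List.length_eq_zero_iff.mp h
  | succ n ih =>
    rw [InvS, Finset.mem_biUnion]
    constructor
    · rintro ⟨l', hl', hl⟩
      rw [Finset.mem_image] at hl
      obtain ⟨m, hm, rfl⟩ := hl
      rw [mem_Fib] at hm
      subst hm
      obtain ⟨h1, h2⟩ := (ih _).mp hl'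
      rw [List.length_map] at h1
      refine ⟨by simpa using h1, ?_⟩
      intro i hi
      rcases Nat.eq_zero_or_pos i with rfl | hi0
      · simp
      · obtain ⟨i', rfl⟩ : ∃ i', i = i' + 1 := ⟨i - 1, by omega⟩
        have := h2 i' (by omega)
        rw [List.getD_eq_getElem _ _ (by rw [List.length_map]; omega), List.getElem_map,
          Nat.pred_eq_sub_one] at this
        rw [List.getD_cons_succ, List.getD_eq_getElem _ _ (by omega)]
        omega
    · rintro ⟨h1, h2⟩
      cases l with
      | nil => simp at h1
      | cons a m =>
        have ha : a = 0 := by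
          have := h2 0 (by omega)
          simpa using this
        subst ha
        refine ⟨m.map Nat.pred, ?_, ?_⟩
        · rw [ih]
          have hl : m.length = n := by simpa using h1
          refine ⟨by rw [List.length_map]; exact hl, ?_⟩
          intro i hi
          have := h2 (i + 1) (by omega)
          rw [List.getD_cons_succ, List.getD_eq_getElem _ _ (by omega)] at this
          rw [List.getD_eq_getElem _ _ (by rw [List.length_map]; omega), List.getElem_map,
            Nat.pred_eq_sub_one]
          omega
        · exact Finset.mem_image_of_mem _ ((mem_Fib _ _).mpr rfl)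

open Classical in
/-- generating function of 110-avoiding inversion sequences by zeros -/
noncomputable def ipn (n : ℕ) : Polynomial ℤ := ∑ l ∈ (InvS n).filter Av110, X ^ (l.count 0)

theorem ipn_eq_Cn (n : ℕ) : ipn n = Cn n := by
  classical
  induction n with
  | zero =>
    unfold ipn
    rw [InvS, Finset.filter_singleton, if_pos av110_nil, Finset.sum_singleton]
    simp [Cn]
  | succ n ih =>
    have hC : Cn (n + 1) = T (Cn n) := rfl
    rw [hC, ← ih]
    unfold ipn
    rw [map_sum, InvS, Finset.filter_biUnion, Finset.sum_biUnion]
    · rw [← Finset.sum_filter_add_sum_filter_not (InvS n) Av110]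
      rw [add_eq_left.mpr]
      · apply Finset.sum_congr rfl
        intro l hl
        rw [← fs_P0, fs, Finset.mul_sum]
        symm
        apply Finset.sum_bij (fun m _ => 0 :: m)
        · intro m hm
          rw [Finset.mem_filter] at hm ⊢
          refine ⟨Finset.mem_image_of_mem _ hm.1, ?_⟩
          rw [av110_iff, (mem_Fib _ _).mp hm.1]
          exact ⟨(Finset.mem_filter.mp hl).2, hm.2⟩
        · intro a _ b _ h
          exact (List.cons.inj h).2
        · intro b hb
          rw [Finset.mem_filter, Finset.mem_image] at hb
          obtain ⟨⟨m, hm, rfl⟩, hP⟩ := hb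
          exact ⟨m, Finset.mem_filter.mpr ⟨hm, ((av110_iff m).mp hP).2⟩, rfl⟩
        · intro m _
          rw [List.count_cons_self, pow_succ, mul_comm]
      · apply Finset.sum_eq_zero
        intro l hl
        apply Finset.sum_eq_zero
        intro m hm
        exfalso
        rw [Finset.mem_filter, Finset.mem_image] at hm
        obtain ⟨⟨m, hm, rfl⟩, hP⟩ := hm
        have := ((av110_iff m).mp hP).1
        rw [(mem_Fib _ _).mp hm] at this
        exact (Finset.mem_filter.mp hl).2 this
    · intro a _ b _ hab
      rw [Function.onFun, Finset.disjoint_left]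
      intro m hm1 hm2
      rw [Finset.mem_filter, Finset.mem_image] at hm1 hm2
      obtain ⟨⟨c, hc, rfl⟩, _⟩ := hm1
      obtain ⟨⟨d, hd, he⟩, _⟩ := hm2
      have h1 := (mem_Fib _ _).mp hc
      have h2 := (mem_Fib _ _).mp hd
      have h3 := (List.cons.inj he).2
      subst h3
      exact hab (h1.symm.trans h2)

end Pool.Agent.H27.PC
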