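import Mathlib
import Pool.Agent.H27.PCCount

set_option autoImplicit false

namespace Pool.Agent.H27.PC

open Finset Classical

noncomputable section

theorem getD_map_lt (e : ℕ → ℕ) (l : List ℕ) (i : ℕ) (h : i < l.length) :
    (l.map e).getD i 0 = e (l.getD i 0) := by
  rw [List.getD_eq_getElem _ _ (by simpa using h), List.getD_eq_getElem _ _ h, List.getElem_map]

theorem av_map (e : ℕ ↪o ℕ) (l : List ℕ) : Av (l.map e) ↔ Av l := by
  unfold Av
  rw [List.length_map]
  constructor
  · intro h i j k hij hjk hk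
    have := h i j k hij hjk hk
    rw [getD_map_lt e l i (by omega), getD_map_lt e l j (by omega), getD_map_lt e l k (by omega),
      getD_map_lt e l (i + 1) (by omega), e.lt_iff_lt, e.lt_iff_lt, e.le_iff_le] at this
    exact this
  · intro h i j k hij hjk hk
    have := h i j k hij hjk hk
    rw [getD_map_lt e l i (by omega), getD_map_lt e l j (by omega), getD_map_lt e l k (by omega),
      getD_map_lt e l (i + 1) (by omega), e.lt_iff_lt, e.lt_iff_lt, e.le_iff_le]
    exact this

theorem topsGT_map (e : ℕ ↪o ℕ) (l : List ℕ) (z : ℕ) : TopsGT (l.map e) (e z) ↔ TopsGT l z := by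
  unfold TopsGT
  rw [List.length_map]
  constructor
  · intro h i hi
    have := h i hi
    rw [getD_map_lt e l i (by omega), getD_map_lt e l (i + 1) (by omega), e.lt_iff_lt,
      e.lt_iff_lt] at this
    exact this
  · intro h i hi
    have := h i hi
    rw [getD_map_lt e l i (by omega), getD_map_lt e l (i + 1) (by omega), e.lt_iff_lt,
      e.lt_iff_lt]
    exact this

theorem rmin_map (e : ℕ ↪o ℕ) (l : List ℕ) : rmin (l.map e) = rmin l := by
  induction l with
  | nil => rfl
  | cons a l ih =>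
    simp only [List.map_cons, rmin, ih, List.mem_map, forall_exists_index, and_imp,
      forall_apply_eq_imp_iff₂, e.lt_iff_lt]

theorem perms_map (e : ℕ ↪o ℕ) (S : Finset ℕ) :
    perms (S.map e.toEmbedding) =
      (perms S).map ⟨List.map e, List.map_injective_iff.mpr e.injective⟩ := by
  ext l
  rw [mem_perms, Finset.mem_map]
  simp only [Function.Embedding.coeFn_mk]
  constructor
  · rintro ⟨h1, h2⟩
    have h3 : l ∈ Set.range (List.map e) := by
      rw [Set.range_list_map]
      intro x hx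
      have : x ∈ S.map e.toEmbedding := by rw [← h2]; exact List.mem_toFinset.mpr hx
      obtain ⟨y, _, hy⟩ := Finset.mem_map.mp this
      exact ⟨y, hy⟩
    obtain ⟨l', rfl⟩ := h3
    refine ⟨l', ?_, rfl⟩
    apply mem_perms.mpr
    refine ⟨h1.of_map, ?_⟩
    ext x
    have h4 := Finset.ext_iff.mp h2 (e x)
    rw [List.mem_toFinset, List.mem_toFinset.symm] at *
    simp only [List.mem_toFinset, List.mem_map, EmbeddingLike.apply_eq_iff_eq, exists_eq_right,
      Finset.mem_map, RelEmbedding.coe_toEmbedding] at h4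
    rw [List.mem_toFinset]
    exact h4
  · rintro ⟨l', hl', rfl⟩
    obtain ⟨h1, h2⟩ := mem_perms.mp hl'
    refine ⟨h1.map e.injective, ?_⟩
    ext x
    simp only [List.mem_toFinset, List.mem_map, Finset.mem_map, RelEmbedding.coe_toEmbedding]
    constructor
    · rintro ⟨y, hy, rfl⟩
      exact ⟨y, (mem_of_perms hl' y).mp hy, rfl⟩
    · rintro ⟨y, hy, rfl⟩
      exact ⟨y, (mem_of_perms hl' y).mpr hy, rfl⟩

theorem sum_perms_map {M : Type*} [AddCommMonoid M] (e : ℕ ↪o ℕ) (S : Finset ℕ) (f : List ℕ → M) :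
    ∑ l ∈ perms (S.map e.toEmbedding), f l = ∑ l ∈ perms S, f (l.map e) := by
  rw [perms_map, Finset.sum_map]
  rfl

theorem bC_map (e : ℕ ↪o ℕ) (S Γ : Finset ℕ) :
    bC (S.map e.toEmbedding) (Γ.map e.toEmbedding) = bC S Γ := by
  rw [bC_eq, bC_eq, sum_perms_map]
  apply Finset.sum_congr rfl
  intro l _
  have : (Av (l.map e) ∧ ∀ z ∈ Γ.map e.toEmbedding, TopsGT (l.map e) z) ↔
      (Av l ∧ ∀ z ∈ Γ, TopsGT l z) := by
    rw [av_map]
    simp only [Finset.mem_map, RelEmbedding.coe_toEmbedding, forall_exists_index, and_imp,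
      forall_apply_eq_imp_iff₂, topsGT_map]
  by_cases h : (Av l ∧ ∀ z ∈ Γ, TopsGT l z)
  · rw [if_pos h, if_pos (this.mpr h)]
  · rw [if_neg h, if_neg (fun h' => h (this.mp h'))]

theorem head_map (e : ℕ ↪o ℕ) (l : List ℕ) (z : ℕ) :
    (∀ h ∈ (l.map e).head?, e z < h) ↔ (∀ h ∈ l.head?, z < h) := by
  cases l with
  | nil => simp
  | cons a t => simp

theorem head_map' (e : ℕ ↪o ℕ) (l : List ℕ) (z : ℕ) :
    (∃ h ∈ (l.map e).head?, h < e z) ↔ (∃ h ∈ l.head?, h < z) := by
  cases l with
  | nil => simp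
  | cons a t => simp

theorem dC_map (e : ℕ ↪o ℕ) (S Γ : Finset ℕ) :
    dC (S.map e.toEmbedding) (Γ.map e.toEmbedding) = dC S Γ := by
  rw [dC_eq, dC_eq, sum_perms_map]
  apply Finset.sum_congr rfl
  intro l _
  have : (Av (l.map e) ∧ ∀ z ∈ Γ.map e.toEmbedding,
      (TopsGT (l.map e) z ∧ ∀ h ∈ (l.map e).head?, z < h)) ↔
      (Av l ∧ ∀ z ∈ Γ, (TopsGT l z ∧ ∀ h ∈ l.head?, z < h)) := by
    rw [av_map]
    simp only [Finset.mem_map, RelEmbedding.coe_toEmbedding, forall_exists_index, and_imp,
      forall_apply_eq_imp_iff₂, topsGT_map, head_map]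
  by_cases h : (Av l ∧ ∀ z ∈ Γ, (TopsGT l z ∧ ∀ h ∈ l.head?, z < h))
  · rw [if_pos h, if_pos (this.mpr h)]
  · rw [if_neg h, if_neg (fun h' => h (this.mp h'))]

theorem wC_map (e : ℕ ↪o ℕ) (S : Finset ℕ) (z : ℕ) :
    wC (S.map e.toEmbedding) (e z) = wC S z := by
  rw [wC_eq, wC_eq, sum_perms_map]
  apply Finset.sum_congr rfl
  intro l _
  have : (Av (l.map e) ∧ TopsGT (l.map e) (e z) ∧ ∃ h ∈ (l.map e).head?, h < e z) ↔
      (Av l ∧ TopsGT l z ∧ ∃ h ∈ l.head?, h < z) := by
    rw [av_map, topsGT_map, head_map']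
  by_cases h : (Av l ∧ TopsGT l z ∧ ∃ h ∈ l.head?, h < z)
  · rw [if_pos h, if_pos (this.mpr h)]
  · rw [if_neg h, if_neg (fun h' => h (this.mp h'))]

theorem rp_map (e : ℕ ↪o ℕ) (S : Finset ℕ) : rp (S.map e.toEmbedding) = rp S := by
  unfold rp
  rw [Finset.sum_filter, Finset.sum_filter, sum_perms_map]
  apply Finset.sum_congr rfl
  intro l _
  rw [rmin_map]
  by_cases h : Av l
  · rw [if_pos h, if_pos ((av_map e l).mpr h)]
  · rw [if_neg h, if_neg (fun h' => h ((av_map e l).mp h'))]

/-- every finite set of naturals is the image of an initial segment -/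
theorem exists_emb (A : Finset ℕ) : ∃ e : ℕ ↪o ℕ, (range A.card).map e.toEmbedding = A := by
  induction A using Finset.induction_on_max with
  | empty => exact ⟨RelEmbedding.refl _, by simp⟩
  | insert m A hA ih =>
    obtain ⟨e, he⟩ := ih
    have hmA : m ∉ A := fun h => lt_irrefl _ (hA m h)
    have hmem : ∀ i < A.card, e i ∈ A := by
      intro i hi
      have : e i ∈ (range A.card).map e.toEmbedding :=
        Finset.mem_map.mpr ⟨i, Finset.mem_range.mpr hi, rfl⟩
      rwa [he] at this
    let f : ℕ → ℕ := fun x => if x < A.card then e x else m + (x - A.card)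
    have hf : StrictMono f := by
      intro x y hxy
      simp only [f]
      by_cases hx : x < A.card
      · by_cases hy : y < A.card
        · rw [if_pos hx, if_pos hy]; exact e.lt_iff_lt.mpr hxy
        · rw [if_pos hx, if_neg hy]
          have := hA _ (hmem x hx)
          omega
      · have hy : ¬ y < A.card := by omega
        rw [if_neg hx, if_neg hy]; omega
    refine ⟨OrderEmbedding.ofStrictMono f hf, ?_⟩
    rw [Finset.card_insert_of_notMem hmA, Finset.range_add_one, Finset.map_insert]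
    congr 1
    · simp [f]
    · rw [← he] 
      ext x
      simp only [Finset.mem_map, Finset.mem_range, RelEmbedding.coe_toEmbedding,
        OrderEmbedding.coe_ofStrictMono]
      have hc : ((range A.card).map e.toEmbedding).card = A.card := by rw [he]
      constructor
      · rintro ⟨i, hi, rfl⟩
        rw [hc] at hi
        refine ⟨i, hi, ?_⟩
        simp only [f, if_pos hi]
      · rintro ⟨i, hi, rfl⟩
        refine ⟨i, by rw [hc]; exact hi, ?_⟩
        simp only [f, if_pos hi]

/-- threshold version -/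
theorem exists_emb_thr (S : Finset ℕ) (z i : ℕ) (hz : z ∉ S)
    (hi : (S.filter (fun x => x < z)).card = i) :
    ∃ e : ℕ ↪o ℕ, ((range (S.card + 1)).erase i).map e.toEmbedding = S ∧ e i = z := by
  obtain ⟨e, he⟩ := exists_emb (insert z S)
  rw [Finset.card_insert_of_notMem hz] at he
  have hzmem : z ∈ (range (S.card + 1)).map e.toEmbedding := by
    rw [he]; exact Finset.mem_insert_self _ _
  obtain ⟨j, hj, hjz⟩ := Finset.mem_map.mp hzmem
  have hj' : e j = z := hjz
  have hji : j = i := by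
    have h1 : S.filter (fun x => x < z) = (range j).map e.toEmbedding := by
      ext x
      rw [Finset.mem_filter, Finset.mem_map]
      constructor
      · rintro ⟨hx, hxz⟩
        have : x ∈ (range (S.card + 1)).map e.toEmbedding := by
          rw [he]; exact Finset.mem_insert_of_mem hx
        obtain ⟨k, _, hk⟩ := Finset.mem_map.mp this
        refine ⟨k, ?_, hk⟩
        have hk' : e k = x := hk
        rw [Finset.mem_range]
        rw [← hk', ← hj'] at hxz
        exact e.lt_iff_lt.mp hxz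
      · rintro ⟨k, hk, hkx⟩
        have hk' : e k = x := hkx
        have hkj : k < j := Finset.mem_range.mp hk
        have hlt : x < z := by rw [← hk', ← hj']; exact e.lt_iff_lt.mpr hkj
        refine ⟨?_, hlt⟩
        have : x ∈ insert z S := by
          rw [← he]
          exact Finset.mem_map.mpr ⟨k, Finset.mem_range.mpr
            (lt_trans hkj (Finset.mem_range.mp hj)), hkx⟩
        rcases Finset.mem_insert.mp this with h | h
        · omega
        · exact h
    rw [h1, Finset.card_map, Finset.card_range] at hi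
    exact hi
  subst hji
  refine ⟨e, ?_, hj'⟩
  rw [Finset.map_erase, he]
  have : e.toEmbedding j = z := hj'
  rw [this]
  exact Finset.erase_insert hz

/-- reindexing sums over subsets of fixed cardinality -/
theorem sum_relabel {M : Type*} [AddCommMonoid M] (F : Finset ℕ → Finset ℕ → M)
    (hF : ∀ (e : ℕ ↪o ℕ) S Γ, F (S.map e.toEmbedding) (Γ.map e.toEmbedding) = F S Γ)
    (A : Finset ℕ) (c : ℕ) :
    ∑ Γ ∈ powersetCard c A, F (A \ Γ) Γ =
      ∑ Γ ∈ powersetCard c (range A.card), F (range A.card \ Γ) Γ := by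
  obtain ⟨e, he⟩ := exists_emb A
  conv_lhs => rw [← he]
  rw [Finset.powersetCard_map, Finset.sum_map]
  apply Finset.sum_congr rfl
  intro Γ _
  have h1 : (Finset.mapEmbedding e.toEmbedding).toEmbedding Γ = Γ.map e.toEmbedding := rfl
  rw [h1, ← Finset.map_sdiff, hF]

theorem sum_compl {M : Type*} [AddCommMonoid M] (F : Finset ℕ → Finset ℕ → M)
    (A : Finset ℕ) (j : ℕ) (hj : j ≤ A.card) :
    ∑ S ∈ powersetCard j A, F S (A \ S) = ∑ Γ ∈ powersetCard (A.card - j) A, F (A \ Γ) Γ := by
  apply Finset.sum_bij' (fun S _ => A \ S) (fun Γ _ => A \ Γ)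
  · intro S hS
    rw [Finset.mem_powersetCard] at hS ⊢
    exact ⟨Finset.sdiff_subset, by rw [Finset.card_sdiff_of_subset hS.1, hS.2]⟩
  · intro Γ hΓ
    rw [Finset.mem_powersetCard] at hΓ ⊢
    exact ⟨Finset.sdiff_subset, by rw [Finset.card_sdiff_of_subset hΓ.1, hΓ.2]; omega⟩
  · intro S hS
    rw [Finset.mem_powersetCard] at hS
    exact Finset.sdiff_sdiff_eq_self hS.1
  · intro Γ hΓ
    rw [Finset.mem_powersetCard] at hΓ
    exact Finset.sdiff_sdiff_eq_self hΓ.1
  · intro S hS
    rw [Finset.mem_powersetCard] at hS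
    rw [Finset.sdiff_sdiff_eq_self hS.1]

/-- `B_{s,c}` -/
def Bn (s c : ℕ) : ℤ := ∑ Γ ∈ powersetCard c (range (s + c)), bC (range (s + c) \ Γ) Γ
/-- `D_{s,c}` -/
def Dn (s c : ℕ) : ℤ := ∑ Γ ∈ powersetCard c (range (s + c)), dC (range (s + c) \ Γ) Γ
/-- `G_n(i)` -/
def Gn (n i : ℕ) : ℤ := bC ((range (n + 1)).erase i) {i}
/-- `W_n(i)` -/
def Wn (n i : ℕ) : ℤ := wC ((range (n + 1)).erase i) i
/-- generating polynomial -/
def rpn (n : ℕ) : Polynomial ℤ := rp (range n)

theorem Bn_of_card (A : Finset ℕ) (s c : ℕ) (h : A.card = s + c) :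
    ∑ Γ ∈ powersetCard c A, bC (A \ Γ) Γ = Bn s c := by
  rw [sum_relabel bC (fun e S Γ => bC_map e S Γ), h]
  rfl

theorem Dn_of_card (A : Finset ℕ) (s c : ℕ) (h : A.card = s + c) :
    ∑ Γ ∈ powersetCard c A, dC (A \ Γ) Γ = Dn s c := by
  rw [sum_relabel dC (fun e S Γ => dC_map e S Γ), h]
  rfl

theorem rp_of_card (A : Finset ℕ) : rp A = rpn A.card := by
  obtain ⟨e, he⟩ := exists_emb A
  conv_lhs => rw [← he]
  rw [rp_map]
  rfl

theorem bC_thr (S : Finset ℕ) (z i : ℕ) (hz : z ∉ S)
    (hi : (S.filter (fun x => x < z)).card = i) : bC S {z} = Gn S.card i := by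
  obtain ⟨e, he, hez⟩ := exists_emb_thr S z i hz hi
  unfold Gn
  rw [← bC_map e ((range (S.card + 1)).erase i), he, Finset.map_singleton]
  have : e.toEmbedding i = z := hez
  rw [this]

theorem wC_thr (S : Finset ℕ) (z i : ℕ) (hz : z ∉ S)
    (hi : (S.filter (fun x => x < z)).card = i) : wC S z = Wn S.card i := by
  obtain ⟨e, he, hez⟩ := exists_emb_thr S z i hz hi
  unfold Wn
  rw [← wC_map e ((range (S.card + 1)).erase i), he, hez]

end

end Pool.Agent.H27.PC
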