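import Mathlib
import Pool.Agent.H27.PCRelabel

set_option autoImplicit false

namespace Pool.Agent.H27.PC

open Finset Classical

noncomputable section

theorem Bn_zero (c : ℕ) : Bn 0 c = 1 := by
  unfold Bn
  rw [zero_add]
  have h : powersetCard c (range c) = {range c} := by
    have := Finset.powersetCard_self (range c)
    rwa [Finset.card_range] at this
  rw [h, Finset.sum_singleton, Finset.sdiff_self]
  rw [bC_eq, perms_empty, Finset.sum_singleton, if_pos]
  constructor
  · intro i j k _ _ hk
    simp at hk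
  · intro z _ i hi
    simp at hi

theorem Dn_zero (c : ℕ) : Dn 0 c = 1 := by
  unfold Dn
  rw [zero_add]
  have h : powersetCard c (range c) = {range c} := by
    have := Finset.powersetCard_self (range c)
    rwa [Finset.card_range] at this
  rw [h, Finset.sum_singleton, Finset.sdiff_self]
  rw [dC_eq, perms_empty, Finset.sum_singleton, if_pos]
  constructor
  · intro i j k _ _ hk
    simp at hk
  · intro z _
    constructor
    · intro i hi
      simp at hi
    · intro h hh
      simp at hh

/-- the key convolution -/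
theorem conv_min (A' : Finset ℕ) (h0 : ∀ x ∈ A', 0 < x) (s c : ℕ) (hcard : A'.card = s + c) :
    ∑ Γ ∈ powersetCard c A', bC (insert 0 (A' \ Γ)) Γ =
      ∑ t ∈ range (s + 1), Dn t c * Bn (s - t) (t + c) := by
  have h00 : 0 ∉ A' := fun h => lt_irrefl _ (h0 0 h)
  have e1 : ∀ Γ ∈ powersetCard c A', bC (insert 0 (A' \ Γ)) Γ =
      ∑ A ∈ (A' \ Γ).powerset, bC A (A' \ A) * dC ((A' \ A) \ Γ) Γ := by
    intro Γ hΓ
    rw [Finset.mem_powersetCard] at hΓ
    rw [bC_insert_min 0 (A' \ Γ) Γ (fun h => h00 (Finset.mem_sdiff.mp h).1)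
      (fun x hx => h0 x (Finset.mem_sdiff.mp hx).1) Finset.sdiff_disjoint]
    apply Finset.sum_congr rfl
    intro A hA
    rw [Finset.mem_powerset] at hA
    have g1 : (A' \ Γ) \ A ∪ Γ = A' \ A := by
      ext x
      simp only [Finset.mem_union, Finset.mem_sdiff]
      constructor
      · rintro (⟨⟨a, b⟩, d⟩ | a)
        · exact ⟨a, d⟩
        · exact ⟨hΓ.1 a, fun hxA => (Finset.mem_sdiff.mp (hA hxA)).2 a⟩
      · rintro ⟨a, b⟩
        by_cases hx : x ∈ Γ
        · exact Or.inr hx
        · exact Or.inl ⟨⟨a, hx⟩, b⟩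
    have g2 : (A' \ Γ) \ A = (A' \ A) \ Γ := by
      ext x
      simp only [Finset.mem_sdiff]
      tauto
    rw [g1, g2]
  rw [Finset.sum_congr rfl e1]
  rw [Finset.sum_comm' (s' := fun A => powersetCard c (A' \ A)) (t' := A'.powerset)]
  · rw [Finset.sum_powerset]
    have e2 : ∀ j ∈ range (A'.card + 1), ∑ A ∈ powersetCard j A',
        ∑ Γ ∈ powersetCard c (A' \ A), bC A (A' \ A) * dC ((A' \ A) \ Γ) Γ =
        if j ≤ s then Dn (s - j) c * Bn j (s - j + c) else 0 := by
      intro j hj
      rw [Finset.mem_range] at hj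
      by_cases hjs : j ≤ s
      · rw [if_pos hjs]
        have e3 : ∀ A ∈ powersetCard j A',
            ∑ Γ ∈ powersetCard c (A' \ A), bC A (A' \ A) * dC ((A' \ A) \ Γ) Γ =
            Dn (s - j) c * bC A (A' \ A) := by
          intro A hA
          rw [Finset.mem_powersetCard] at hA
          rw [← Finset.mul_sum, Dn_of_card (A' \ A) (s - j) c, mul_comm]
          rw [Finset.card_sdiff_of_subset hA.1, hA.2]
          omega
        rw [Finset.sum_congr rfl e3, ← Finset.mul_sum, sum_compl bC A' j (by omega)]
        congr 1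
        have : A'.card - j = s - j + c := by omega
        rw [this]
        apply Bn_of_card
        omega
      · rw [if_neg hjs]
        apply Finset.sum_eq_zero
        intro A hA
        rw [Finset.mem_powersetCard] at hA
        have : powersetCard c (A' \ A) = ∅ := by
          rw [Finset.powersetCard_eq_empty, Finset.card_sdiff_of_subset hA.1, hA.2]
          omega
        rw [this, Finset.sum_empty]
    rw [Finset.sum_congr rfl e2, hcard]
    have hsub : range (s + 1) ⊆ range (s + c + 1) := Finset.range_subset_range.mpr (by omega)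
    rw [← Finset.sum_subset hsub]
    · rw [← Finset.sum_range_reflect]
      apply Finset.sum_congr rfl
      intro j hj
      rw [Finset.mem_range] at hj
      rw [if_pos (by omega)]
      have g1 : s - (s + 1 - 1 - j) = j := by omega
      have g2 : s + 1 - 1 - j = s - j := by omega
      rw [g1, g2]
    · intro j _ hj
      rw [Finset.mem_range] at hj
      rw [if_neg (by omega)]
  · intro Γ A
    simp only [Finset.mem_powersetCard, Finset.mem_powerset]
    constructor
    · rintro ⟨⟨a, b⟩, d⟩
      refine ⟨⟨?_, b⟩, fun x hx => (Finset.mem_sdiff.mp (d hx)).1⟩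
      intro x hx
      rw [Finset.mem_sdiff]
      exact ⟨a hx, fun hxA => (Finset.mem_sdiff.mp (d hxA)).2 hx⟩
    · rintro ⟨⟨a, b⟩, d⟩
      refine ⟨⟨fun x hx => (Finset.mem_sdiff.mp (a hx)).1, b⟩, ?_⟩
      intro x hx
      rw [Finset.mem_sdiff]
      exact ⟨d hx, fun hxG => (Finset.mem_sdiff.mp (a hxG)).2 hx⟩

theorem range_succ_eq (N : ℕ) : range (N + 1) = insert 0 (Finset.Ico 1 (N + 1)) := by
  ext x
  simp only [Finset.mem_range, Finset.mem_insert, Finset.mem_Ico]
  omega

theorem Bn_succ_zero (s : ℕ) :
    Bn (s + 1) 0 = ∑ t ∈ range (s + 1), Dn t 0 * Bn (s - t) t := by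
  have h := conv_min (Finset.Ico 1 (s + 1)) (fun x hx => by
    have := (Finset.mem_Ico.mp hx).1; omega) s 0 (by simp)
  simp only [add_zero] at h
  rw [← h]
  unfold Bn
  simp only [add_zero, Finset.powersetCard_zero, Finset.sum_singleton, Finset.sdiff_empty]
  rw [range_succ_eq]

theorem Bn_succ_succ (s c : ℕ) :
    Bn (s + 1) (c + 1) = Bn (s + 1) c + ∑ t ∈ range (s + 1), Dn t (c + 1) * Bn (s - t) (t + (c + 1)) := by
  have hA : (Finset.Ico 1 (s + 1 + c + 1)).card = s + (c + 1) := by
    rw [Nat.card_Ico]; omega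
  rw [← conv_min (Finset.Ico 1 (s + 1 + c + 1)) (fun x hx => by
    have := (Finset.mem_Ico.mp hx).1; omega) s (c + 1) hA]
  conv_lhs => unfold Bn
  have h0 : 0 ∉ Finset.Ico 1 (s + 1 + c + 1) := by simp
  have e0 : s + 1 + (c + 1) = s + 1 + c + 1 := by omega
  rw [e0, range_succ_eq, Finset.powersetCard_succ_insert h0, Finset.sum_union, add_comm]
  · congr 1
    · rw [Finset.sum_image]
      · have : Bn (s + 1) c = ∑ Γ ∈ powersetCard c (Finset.Ico 1 (s + 1 + c + 1)),
            bC (Finset.Ico 1 (s + 1 + c + 1) \ Γ) Γ := by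
          symm
          apply Bn_of_card
          rw [Nat.card_Ico]; omega
        rw [this]
        apply Finset.sum_congr rfl
        intro Γ hΓ
        rw [Finset.mem_powersetCard] at hΓ
        have g1 : insert 0 (Finset.Ico 1 (s + 1 + c + 1)) \ insert 0 Γ =
            Finset.Ico 1 (s + 1 + c + 1) \ Γ := by
          ext x
          simp only [Finset.mem_sdiff, Finset.mem_insert, Finset.mem_Ico]
          constructor
          · rintro ⟨a, b⟩
            push Not at b
            exact ⟨by omega, b.2⟩
          · rintro ⟨a, b⟩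
            refine ⟨Or.inr a, ?_⟩
            rintro (h | h)
            · omega
            · exact b h
        rw [g1]
        apply bC_insert_ghost
        intro x hx
        have := (Finset.mem_Ico.mp (Finset.mem_sdiff.mp hx).1).1
        omega
      · intro Γ hΓ Γ' hΓ' e
        have hΓ1 := (Finset.mem_powersetCard.mp hΓ).1
        have hΓ2 := (Finset.mem_powersetCard.mp hΓ').1
        have g1 : 0 ∉ Γ := fun h => h0 (hΓ1 h)
        have g2 : 0 ∉ Γ' := fun h => h0 (hΓ2 h)
        have := congrArg (fun A => Finset.erase A 0) e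
        simpa [Finset.erase_insert g1, Finset.erase_insert g2] using this
    · apply Finset.sum_congr rfl
      intro Γ hΓ
      rw [Finset.mem_powersetCard] at hΓ
      have g1 : 0 ∉ Γ := fun h => h0 (hΓ.1 h)
      rw [Finset.insert_sdiff_of_notMem _ g1]
  · rw [Finset.disjoint_left]
    intro Γ hΓ hΓ'
    rw [Finset.mem_powersetCard] at hΓ
    obtain ⟨Γ'', _, e⟩ := Finset.mem_image.mp hΓ'
    apply h0
    apply hΓ.1
    rw [← e]
    exact Finset.mem_insert_self _ _

/-- recursion for the generating polynomial of right-to-left minima -/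
theorem rpn_succ (n : ℕ) :
    rpn (n + 1) = Polynomial.X * ∑ t ∈ range (n + 1), Bn (n - t) t • rpn t := by
  have hr : rpn (n + 1) = rp (insert 0 (Finset.Ico 1 (n + 1))) := by
    unfold rpn
    rw [range_succ_eq]
  rw [hr, rp_insert_min 0 (Finset.Ico 1 (n + 1)) (by simp) (fun x hx => by
    have := (Finset.mem_Ico.mp hx).1; omega)]
  congr 1
  have hc : (Finset.Ico 1 (n + 1)).card = n := by simp
  rw [Finset.sum_powerset, hc]
  have e2 : ∀ j ∈ range (n + 1), ∑ A ∈ powersetCard j (Finset.Ico 1 (n + 1)),
      bC A (Finset.Ico 1 (n + 1) \ A) • rp (Finset.Ico 1 (n + 1) \ A) =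
      Bn j (n - j) • rpn (n - j) := by
    intro j hj
    rw [Finset.mem_range] at hj
    have e3 : ∀ A ∈ powersetCard j (Finset.Ico 1 (n + 1)),
        bC A (Finset.Ico 1 (n + 1) \ A) • rp (Finset.Ico 1 (n + 1) \ A) =
        bC A (Finset.Ico 1 (n + 1) \ A) • rpn (n - j) := by
      intro A hA
      rw [Finset.mem_powersetCard] at hA
      rw [rp_of_card, Finset.card_sdiff_of_subset hA.1, hA.2, hc]
    rw [Finset.sum_congr rfl e3, ← Finset.sum_smul, sum_compl bC _ j (by omega), hc]
    congr 1
    apply Bn_of_card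
    omega
  rw [Finset.sum_congr rfl e2, ← Finset.sum_range_reflect]
  apply Finset.sum_congr rfl
  intro j hj
  rw [Finset.mem_range] at hj
  have g1 : n - (n + 1 - 1 - j) = j := by omega
  have g2 : n + 1 - 1 - j = n - j := by omega
  rw [g1, g2]

/-- splitting at the first small entry, numerical form -/
theorem Gn_split (n i : ℕ) (hi : 1 ≤ i) (hin : i ≤ n) :
    Gn n i = ∑ t ∈ range (n - i + 1), Wn (t + i) i * Bn (n - i - t) t := by
  unfold Gn
  have hz : i ∉ (range (n + 1)).erase i := Finset.notMem_erase _ _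
  rw [bC_split_small _ i hz ⟨0, by simp; omega, by omega⟩]
  have hL : ((range (n + 1)).erase i).filter (fun x => i < x) = Finset.Ioc i n := by
    ext x
    simp only [Finset.mem_filter, Finset.mem_erase, Finset.mem_range, Finset.mem_Ioc]
    omega
  rw [hL]
  have hc : (Finset.Ioc i n).card = n - i := by simp
  rw [Finset.sum_powerset, hc]
  have e2 : ∀ j ∈ range (n - i + 1), ∑ A ∈ powersetCard j (Finset.Ioc i n),
      bC A (Finset.Ioc i n \ A) * wC ((range (n + 1)).erase i \ A) i =
      Wn (n - j) i * Bn j (n - i - j) := by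
    intro j hj
    rw [Finset.mem_range] at hj
    have e3 : ∀ A ∈ powersetCard j (Finset.Ioc i n),
        bC A (Finset.Ioc i n \ A) * wC ((range (n + 1)).erase i \ A) i =
        Wn (n - j) i * bC A (Finset.Ioc i n \ A) := by
      intro A hA
      rw [Finset.mem_powersetCard] at hA
      have hAsub : A ⊆ (range (n + 1)).erase i := by
        intro x hx
        have := Finset.mem_Ioc.mp (hA.1 hx)
        rw [Finset.mem_erase, Finset.mem_range]
        omega
      have hcard : ((range (n + 1)).erase i \ A).card = n - j := by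
        rw [Finset.card_sdiff_of_subset hAsub, hA.2, Finset.card_erase_of_mem, Finset.card_range]
        · omega
        · rw [Finset.mem_range]; omega
      rw [wC_thr ((range (n + 1)).erase i \ A) i i, hcard, mul_comm]
      · intro h
        exact hz (Finset.mem_sdiff.mp h).1
      · have : ((range (n + 1)).erase i \ A).filter (fun x => x < i) = range i := by
          ext x
          simp only [Finset.mem_filter, Finset.mem_sdiff, Finset.mem_erase, Finset.mem_range]
          constructor
          · rintro ⟨_, h⟩; exact h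
          · intro h
            refine ⟨⟨⟨by omega, by omega⟩, ?_⟩, h⟩
            intro hxA
            have := Finset.mem_Ioc.mp (hA.1 hxA)
            omega
        rw [this, Finset.card_range]
    rw [Finset.sum_congr rfl e3, ← Finset.mul_sum, sum_compl bC _ j (by omega), hc]
    congr 1
    apply Bn_of_card
    omega
  rw [Finset.sum_congr rfl e2, ← Finset.sum_range_reflect]
  apply Finset.sum_congr rfl
  intro j hj
  rw [Finset.mem_range] at hj
  have g1 : n - (n - i + 1 - 1 - j) = j + i := by omega
  have g2 : n - i + 1 - 1 - j = n - i - j := by omega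
  have g3 : n - i - (n - i - j) = j := by omega
  rw [g1, g2, g3]

/-- grouping subsets by their maximum -/
theorem sum_powersetCard_max {M : Type*} [AddCommMonoid M] (f : Finset ℕ → M) (c N : ℕ) :
    ∑ Γ ∈ powersetCard (c + 1) (range N), f Γ =
      ∑ z ∈ range N, ∑ Γ ∈ powersetCard c (range z), f (insert z Γ) := by
  induction N with
  | zero =>
    rw [Finset.range_zero, Finset.sum_empty, Finset.powersetCard_eq_empty.mpr (by simp),
      Finset.sum_empty]
  | succ N ih =>
    have hN : N ∉ range N := Finset.notMem_range_self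
    rw [Finset.sum_range_succ, ← ih, Finset.range_add_one, Finset.powersetCard_succ_insert hN,
      Finset.sum_union]
    · congr 1
      rw [Finset.sum_image]
      intro Γ hΓ Γ' hΓ' e
      have hΓ1 := (Finset.mem_powersetCard.mp hΓ).1
      have hΓ2 := (Finset.mem_powersetCard.mp hΓ').1
      have g1 : N ∉ Γ := fun h => hN (hΓ1 h)
      have g2 : N ∉ Γ' := fun h => hN (hΓ2 h)
      have := congrArg (fun A => Finset.erase A N) e
      simpa [Finset.erase_insert g1, Finset.erase_insert g2] using this
    · rw [Finset.disjoint_left]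
      intro Γ hΓ hΓ'
      rw [Finset.mem_powersetCard] at hΓ
      obtain ⟨Γ'', _, e⟩ := Finset.mem_image.mp hΓ'
      apply hN
      apply hΓ.1
      rw [← e]
      exact Finset.mem_insert_self _ _

theorem bC_max (S Γ : Finset ℕ) (z : ℕ) (h : ∀ x ∈ Γ, x ≤ z) : bC S (insert z Γ) = bC S {z} := by
  unfold bC bSet
  congr 2
  apply Finset.filter_congr
  intro l _
  constructor
  · rintro ⟨a, b⟩
    refine ⟨a, ?_⟩
    intro y hy
    rw [Finset.mem_singleton] at hy
    subst hy
    exact b y (Finset.mem_insert_self _ _)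
  · rintro ⟨a, b⟩
    refine ⟨a, ?_⟩
    have hz := b z (Finset.mem_singleton_self z)
    intro y hy i hi hlt
    have h1 := hz i hi hlt
    rcases Finset.mem_insert.mp hy with h2 | h2
    · omega
    · have := h y h2; omega

theorem dC_max (S Γ : Finset ℕ) (z : ℕ) (h : ∀ x ∈ Γ, x ≤ z) : dC S (insert z Γ) = dC S {z} := by
  unfold dC dSet
  congr 2
  apply Finset.filter_congr
  intro l _
  constructor
  · rintro ⟨a, b⟩
    refine ⟨a, ?_⟩
    intro y hy
    rw [Finset.mem_singleton] at hy
    subst hy
    exact b y (Finset.mem_insert_self _ _)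
  · rintro ⟨a, b⟩
    refine ⟨a, ?_⟩
    have hz := b z (Finset.mem_singleton_self z)
    intro y hy
    have hyz : y ≤ z := by
      rcases Finset.mem_insert.mp hy with h2 | h2
      · omega
      · exact h y h2
    constructor
    · intro i hi hlt
      have h1 := hz.1 i hi hlt
      omega
    · intro a ha
      have := hz.2 a ha
      omega

theorem dC_single (S : Finset ℕ) (z : ℕ) (hz : z ∉ S) : dC S {z} = bC S {z} - wC S z := by
  rw [eq_sub_iff_add_eq, dC_eq, wC_eq, bC_eq, ← Finset.sum_add_distrib]
  apply Finset.sum_congr rfl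
  intro l hl
  simp only [Finset.mem_singleton, forall_eq]
  by_cases h1 : Av l ∧ TopsGT l z
  · rw [if_pos h1]
    cases l with
    | nil =>
      rw [if_pos, if_neg]
      · ring
      · simp
      · exact ⟨h1.1, h1.2, by simp⟩
    | cons a t =>
      have ha : a ≠ z := by
        rintro rfl
        exact hz ((mem_of_perms hl a).mp (by simp))
      by_cases h2 : a < z
      · rw [if_neg, if_pos]
        · ring
        · exact ⟨h1.1, h1.2, a, by simp, h2⟩
        · rintro ⟨_, _, h3⟩
          have := h3 a (by simp)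
          omega
      · rw [if_pos, if_neg]
        · ring
        · rintro ⟨_, _, h, hh, h3⟩
          simp at hh
          subst hh
          exact h2 h3
        · refine ⟨h1.1, h1.2, ?_⟩
          intro h hh
          simp at hh
          subst hh
          omega
  · rw [if_neg h1, if_neg, if_neg]
    · ring
    · rintro ⟨a, b, _⟩; exact h1 ⟨a, b⟩
    · rintro ⟨a, b, _⟩; exact h1 ⟨a, b⟩

theorem link_aux (s c z : ℕ) (hz : z < s + (c + 1)) (Γ : Finset ℕ) (hΓ : Γ ∈ powersetCard c (range z)) :
    z ∉ range (s + (c + 1)) \ insert z Γ ∧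
    ((range (s + (c + 1)) \ insert z Γ).filter (fun x => x < z)).card = z - c ∧
    (range (s + (c + 1)) \ insert z Γ).card = s := by
  rw [Finset.mem_powersetCard] at hΓ
  have hzΓ : z ∉ Γ := fun h => by
    have := Finset.mem_range.mp (hΓ.1 h); omega
  refine ⟨?_, ?_, ?_⟩
  · simp
  · have h1 : (range (s + (c + 1)) \ insert z Γ).filter (fun x => x < z) = range z \ Γ := by
      ext x
      simp only [Finset.mem_filter, Finset.mem_sdiff, Finset.mem_insert, Finset.mem_range]
      constructor
      · rintro ⟨⟨a, b⟩, d⟩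
        exact ⟨d, fun h => b (Or.inr h)⟩
      · rintro ⟨a, b⟩
        refine ⟨⟨by omega, ?_⟩, a⟩
        rintro (h | h)
        · omega
        · exact b h
    rw [h1, Finset.card_sdiff_of_subset hΓ.1, hΓ.2, Finset.card_range]
  · have hsub : insert z Γ ⊆ range (s + (c + 1)) := by
      intro x hx
      rw [Finset.mem_range]
      rcases Finset.mem_insert.mp hx with h | h
      · omega
      · have := Finset.mem_range.mp (hΓ.1 h); omega
    rw [Finset.card_sdiff_of_subset hsub, Finset.card_insert_of_notMem hzΓ, hΓ.2, Finset.card_range]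
    omega

theorem sum_shift (s c : ℕ) (F : ℕ → ℤ) :
    ∑ z ∈ range (s + (c + 1)), (z.choose c : ℤ) * F (z - c) =
      ∑ i ∈ range (s + 1), ((i + c).choose c : ℤ) * F i := by
  have h : s + (c + 1) = c + (s + 1) := by omega
  rw [h, Finset.sum_range_add]
  have h1 : ∑ z ∈ range c, (z.choose c : ℤ) * F (z - c) = 0 := by
    apply Finset.sum_eq_zero
    intro z hz
    rw [Nat.choose_eq_zero_of_lt (Finset.mem_range.mp hz)]
    simp
  rw [h1, zero_add]
  apply Finset.sum_congr rfl
  intro i _
  rw [add_comm c i, Nat.add_sub_cancel]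

theorem Bn_link (s c : ℕ) :
    Bn s (c + 1) = ∑ i ∈ range (s + 1), ((i + c).choose c : ℤ) * Gn s i := by
  rw [← sum_shift]
  unfold Bn
  rw [sum_powersetCard_max]
  apply Finset.sum_congr rfl
  intro z hz
  rw [Finset.mem_range] at hz
  have e1 : ∀ Γ ∈ powersetCard c (range z),
      bC (range (s + (c + 1)) \ insert z Γ) (insert z Γ) = Gn s (z - c) := by
    intro Γ hΓ
    obtain ⟨h1, h2, h3⟩ := link_aux s c z hz Γ hΓ
    rw [bC_max, bC_thr _ z (z - c) h1 h2, h3]
    intro x hx
    have := Finset.mem_range.mp ((Finset.mem_powersetCard.mp hΓ).1 hx)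
    omega
  rw [Finset.sum_congr rfl e1, Finset.sum_const, Finset.card_powersetCard, Finset.card_range,
    nsmul_eq_mul]

theorem Dn_link (s c : ℕ) :
    Dn s (c + 1) = ∑ i ∈ range (s + 1), ((i + c).choose c : ℤ) * (Gn s i - Wn s i) := by
  rw [← sum_shift s c (fun i => Gn s i - Wn s i)]
  unfold Dn
  rw [sum_powersetCard_max]
  apply Finset.sum_congr rfl
  intro z hz
  rw [Finset.mem_range] at hz
  have e1 : ∀ Γ ∈ powersetCard c (range z),
      dC (range (s + (c + 1)) \ insert z Γ) (insert z Γ) = Gn s (z - c) - Wn s (z - c) := by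
    intro Γ hΓ
    obtain ⟨h1, h2, h3⟩ := link_aux s c z hz Γ hΓ
    rw [dC_max, dC_single _ z h1, bC_thr _ z (z - c) h1 h2, wC_thr _ z (z - c) h1 h2, h3]
    intro x hx
    have := Finset.mem_range.mp ((Finset.mem_powersetCard.mp hΓ).1 hx)
    omega
  rw [Finset.sum_congr rfl e1, Finset.sum_const, Finset.card_powersetCard, Finset.card_range,
    nsmul_eq_mul]

theorem Dn_zero_right (s : ℕ) : Dn s 0 = Bn s 0 := by
  unfold Dn Bn
  simp only [Finset.powersetCard_zero, Finset.sum_singleton]
  rw [dC_eq, bC_eq]
  simp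

theorem Wn_zero (s : ℕ) : Wn s 0 = 0 := by
  unfold Wn
  rw [wC_eq]
  apply Finset.sum_eq_zero
  intro l _
  rw [if_neg]
  rintro ⟨_, _, h, _, h2⟩
  omega

end

end Pool.Agent.H27.PC
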