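import Mathlib
import Pool.Agent.H27.PCRec
import Pool.Agent.H27.PCAlg2

set_option autoImplicit false

namespace Pool.Agent.H27.PC

open Finset Classical

noncomputable section

theorem inversion (n : ℕ) : ∀ (a : ℕ → ℤ) (c0 : ℕ),
    (∀ c, c0 ≤ c → ∑ u ∈ range (n + 1), ((u + c).choose c : ℤ) * a u = 0) →
    ∀ u ≤ n, a u = 0 := by
  induction n with
  | zero =>
    intro a c0 h u hu
    have := h c0 le_rfl
    simp at this
    have hu' : u = 0 := by omega
    rw [hu']; exact this
  | succ n ih =>
    intro a c0 h
    have h1 : ∀ u ≤ n, a (u + 1) = 0 := by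
      apply ih (fun u => a (u + 1)) (c0 + 1)
      intro c hc
      obtain ⟨c', rfl⟩ : ∃ c', c = c' + 1 := ⟨c - 1, by omega⟩
      have e1 := h (c' + 1) (by omega)
      have e2 := h c' (by omega)
      rw [Finset.sum_range_succ'] at e1 e2
      have e3 : ∑ u ∈ range (n + 1), ((u + 1 + (c' + 1)).choose (c' + 1) : ℤ) * a (u + 1) =
          ∑ u ∈ range (n + 1), ((u + 1 + c').choose c' : ℤ) * a (u + 1) +
          ∑ u ∈ range (n + 1), ((u + (c' + 1)).choose (c' + 1) : ℤ) * a (u + 1) := by
        rw [← Finset.sum_add_distrib]
        apply Finset.sum_congr rfl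
        intro u _
        rw [← add_mul]
        have g1 : u + 1 + (c' + 1) = (u + 1 + c') + 1 := by omega
        have g2 : u + (c' + 1) = u + 1 + c' := by omega
        rw [g1, Nat.choose_succ_succ, g2]
        push_cast
        rfl
      rw [e3] at e1
      simp at e1 e2
      linarith
    intro u hu
    cases u with
    | zero =>
      have := h c0 le_rfl
      rw [Finset.sum_range_succ'] at this
      rw [Finset.sum_eq_zero] at this
      · simpa using this
      · intro u hu
        rw [h1 u (by have := Finset.mem_range.mp hu; omega), mul_zero]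
    | succ u => exact h1 u (by omega)

/-- hockey stick -/
theorem hockey (c u : ℕ) :
    1 + ∑ i ∈ range (u + 1), ((i + 1 + c).choose c : ℤ) = ((u + 1 + (c + 1)).choose (c + 1) : ℤ) := by
  induction u with
  | zero =>
    have : 0 + 1 + (c + 1) = (0 + 1 + c) + 1 := by omega
    rw [this, Nat.choose_succ_succ]
    simp
    have h1 : 1 + c = c + 1 := by omega
    rw [h1, Nat.choose_self]
    push_cast
    ring
  | succ u ih =>
    rw [Finset.sum_range_succ, ← add_assoc, ih]
    have : u + 1 + 1 + (c + 1) = (u + 1 + 1 + c) + 1 := by omega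
    rw [this, Nat.choose_succ_succ]
    have h2 : u + 1 + (c + 1) = u + 1 + 1 + c := by omega
    rw [h2]
    push_cast
    ring

/-- `G*` -/
def Gstar (n i : ℕ) : ℤ := if i = 0 then gs (n - 1) 0 else gs (n - i) (i - 1)

theorem gs_eq_sum (m i : ℕ) (hi : i ≤ m) : gs (m - i) i = ∑ u ∈ range (m + 1),
    if i ≤ u then us (m - u) u else 0 := by
  obtain ⟨k, rfl⟩ : ∃ k, m = i + k := ⟨m - i, by omega⟩
  have h1 : i + k + 1 = i + (k + 1) := by omega
  rw [h1, Finset.sum_range_add]
  have h2 : ∑ u ∈ range i, (if i ≤ u then us (i + k - u) u else 0) = 0 := by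
    apply Finset.sum_eq_zero
    intro u hu
    have := Finset.mem_range.mp hu
    rw [if_neg (by omega)]
  rw [h2, zero_add]
  unfold gs
  have h3 : i + k - i = k := by omega
  rw [h3]
  apply Finset.sum_congr rfl
  intro r _
  rw [if_pos (by omega)]
  have h4 : i + k - (i + r) = k - r := by omega
  rw [h4]

theorem bb_Gstar (m c : ℕ) :
    bb (m + 1) (c + 1) = ∑ i ∈ range (m + 1 + 1), ((i + c).choose c : ℤ) * Gstar (m + 1) i := by
  rw [Finset.sum_range_succ']
  have h0 : Gstar (m + 1) 0 = ∑ u ∈ range (m + 1), us (m - u) u := by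
    unfold Gstar
    rw [if_pos rfl]
    have := gs_eq_sum m 0 (by omega)
    simpa using this
  have h1 : ∀ i ∈ range (m + 1), ((i + 1 + c).choose c : ℤ) * Gstar (m + 1) (i + 1) =
      ∑ u ∈ range (m + 1), if i ≤ u then ((i + 1 + c).choose c : ℤ) * us (m - u) u else 0 := by
    intro i hi
    have hi' := Finset.mem_range.mp hi
    unfold Gstar
    rw [if_neg (by omega)]
    have e1 : m + 1 - (i + 1) = m - i := by omega
    have e2 : i + 1 - 1 = i := by omega
    rw [e1, e2, gs_eq_sum m i (by omega), Finset.mul_sum]
    apply Finset.sum_congr rfl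
    intro u _
    split_ifs
    · rfl
    · ring
  rw [Finset.sum_congr rfl h1, Finset.sum_comm, h0]
  have hs : ¬ (m + 1 = 0) := by omega
  unfold bb
  rw [if_neg hs]
  have h2 : ((0 + c).choose c : ℤ) = 1 := by simp
  rw [h2, one_mul, ← Finset.sum_add_distrib]
  apply Finset.sum_congr rfl
  intro u hu
  have hu' := Finset.mem_range.mp hu
  have h3 : ∑ i ∈ range (m + 1), (if i ≤ u then ((i + 1 + c).choose c : ℤ) * us (m - u) u else 0) =
      (∑ i ∈ range (u + 1), ((i + 1 + c).choose c : ℤ)) * us (m - u) u := by
    rw [Finset.sum_mul]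
    have hsub : range (u + 1) ⊆ range (m + 1) := Finset.range_subset_range.mpr (by omega)
    rw [← Finset.sum_subset hsub]
    · apply Finset.sum_congr rfl
      intro i hi
      have := Finset.mem_range.mp hi
      rw [if_pos (by omega)]
    · intro i _ hi
      rw [Finset.mem_range] at hi
      rw [if_neg (by omega)]
  rw [h3, ← hockey]
  have e3 : m + 1 - 1 - u = m - u := by omega
  rw [e3]
  unfold us
  ring

theorem main_induction (n : ℕ) : (∀ c, Bn n c = bb n c) ∧ (∀ c, Dn n c = d1 n c) ∧
    (∀ i < n, Wn n (i + 1) = us (n - 1 - i) i) := by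
  induction n using Nat.strong_induction_on with
  | _ n ih =>
  cases n with
  | zero =>
    refine ⟨fun c => by rw [Bn_zero, bb_zero], fun c => by rw [Dn_zero]; simp [d1], ?_⟩
    intro i hi; omega
  | succ m =>
    have hB : ∀ c, Bn (m + 1) c = bb (m + 1) c := by
      intro c
      induction c with
      | zero =>
        rw [Bn_succ_zero, bb_succ_zero, dd_conv]
        apply Finset.sum_congr rfl
        intro t ht
        have ht' := Finset.mem_range.mp ht
        rw [(ih t (by omega)).2.1, (ih (m - t) (by omega)).1, add_zero]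
      | succ c ihc =>
        rw [Bn_succ_succ, bb_succ_succ, dd_conv, ihc]
        congr 1
        apply Finset.sum_congr rfl
        intro t ht
        have ht' := Finset.mem_range.mp ht
        rw [(ih t (by omega)).2.1, (ih (m - t) (by omega)).1]
    have hG : ∀ i ≤ m + 1, Gn (m + 1) i = Gstar (m + 1) i := by
      have := inversion (m + 1) (fun i => Gn (m + 1) i - Gstar (m + 1) i) 0 (by
        intro c _
        simp only [mul_sub, Finset.sum_sub_distrib]
        rw [← Bn_link, ← bb_Gstar, hB, sub_self])
      intro i hi
      exact sub_eq_zero.mp (this i hi)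
    have hW : ∀ i < m + 1, Wn (m + 1) (i + 1) = us (m - i) i := by
      intro i hi
      have h1 := Gn_split (m + 1) (i + 1) (by omega) (by omega)
      have e1 : m + 1 - (i + 1) = m - i := by omega
      rw [hG (i + 1) (by omega), e1, Finset.sum_range_succ] at h1
      have h2 := gs_conv (m - i) i
      rw [Finset.sum_range_succ] at h2
      have h3 : Gstar (m + 1) (i + 1) = gs (m - i) i := by
        unfold Gstar
        rw [if_neg (by omega), e1]
        rfl
      rw [h3, h2] at h1
      have h4 : ∑ t ∈ range (m - i), us t i * bb (m - i - t) t =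
          ∑ t ∈ range (m - i), Wn (t + (i + 1)) (i + 1) * Bn (m - i - t) t := by
        apply Finset.sum_congr rfl
        intro t ht
        have ht' := Finset.mem_range.mp ht
        have h5 := (ih (t + (i + 1)) (by omega)).2.2 i (by omega)
        have e2 : t + (i + 1) - 1 - i = t := by omega
        rw [e2] at h5
        rw [h5, (ih (m - i - t) (by omega)).1]
      rw [h4, Nat.sub_self, bb_zero, Bn_zero, mul_one, mul_one] at h1
      have e3 : m - i + (i + 1) = m + 1 := by omega
      rw [e3] at h1
      exact (add_left_cancel h1).symm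
    refine ⟨hB, ?_, ?_⟩
    · intro c
      have hs : ¬ (m + 1 = 0) := by omega
      unfold d1
      rw [if_neg hs]
      cases c with
      | zero => rw [Dn_zero_right, hB, bb_succ_zero]
      | succ c =>
        rw [Dn_link]
        simp only [mul_sub, Finset.sum_sub_distrib]
        rw [← Bn_link, hB]
        have h1 := bb_succ_succ m c
        have h2 : ∑ i ∈ range (m + 1 + 1), ((i + c).choose c : ℤ) * Wn (m + 1) i = bb (m + 1) c := by
          rw [Finset.sum_range_succ', Wn_zero, mul_zero, add_zero]
          unfold bb
          rw [if_neg hs]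
          apply Finset.sum_congr rfl
          intro u hu
          have hu' := Finset.mem_range.mp hu
          rw [hW u hu']
          rfl
        rw [h2]
        linarith
    · intro i hi
      rw [hW i hi]
      rfl

theorem rpn_eq_Cn (n : ℕ) : rpn n = Cn n := by
  induction n using Nat.strong_induction_on with
  | _ n ih =>
  cases n with
  | zero =>
    unfold rpn rp
    rw [Finset.range_zero, perms_empty, Finset.filter_true_of_mem, Finset.sum_singleton]
    · simp [rmin, Cn]
    · intro l hl
      rw [Finset.mem_singleton] at hl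
      subst hl
      intro i j k _ _ hk
      simp at hk
  | succ n =>
    rw [rpn_succ, ← X_mul_Q_Cn, Q_Cn]
    congr 1
    apply Finset.sum_congr rfl
    intro t ht
    have ht' := Finset.mem_range.mp ht
    rw [ih t (by omega), (main_induction (n - t)).1]

end

end Pool.Agent.H27.PC
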