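import Mathlib
import Pool.Agent.H27.PCMain
import Pool.Agent.H27.PCInv

set_option autoImplicit false

namespace Pool.Agent.H27.PC

open Finset Polynomial

theorem getD_ofFn {n : ℕ} (f : Fin n → ℕ) (i : ℕ) (hi : i < n) :
    (List.ofFn f).getD i 0 = f ⟨i, hi⟩ := by
  rw [List.getD_eq_getElem _ _ (by rw [List.length_ofFn]; exact hi), List.getElem_ofFn]

theorem ofFn_getD {n : ℕ} (l : List ℕ) (hl : l.length = n) :
    List.ofFn (fun i : Fin n => l.getD i 0) = l := by
  apply List.ext_getElem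
  · rw [List.length_ofFn, hl]
  · intro i h1 h2
    rw [List.getElem_ofFn, List.getD_eq_getElem _ _ h2]

theorem rmin_ofFn {n : ℕ} (f : Fin n → ℕ) :
    rmin (List.ofFn f) = Nat.card {i : Fin n // ∀ j : Fin n, i < j → f i < f j} := by
  classical
  rw [Nat.card_eq_fintype_card, Fintype.card_subtype, Finset.card_filter]
  induction n with
  | zero => simp [rmin]
  | succ n ih =>
    rw [List.ofFn_succ, rmin, ih, Fin.sum_univ_succ, add_comm]
    congr 1
    · apply if_congr _ rfl rfl
      constructor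
      · intro h j hj
        obtain ⟨j', rfl⟩ := Fin.exists_succ_eq.mpr (Fin.pos_iff_ne_zero.mp hj)
        apply h
        rw [List.mem_ofFn]
        exact ⟨j', rfl⟩
      · intro h x hx
        rw [List.mem_ofFn] at hx
        obtain ⟨j, rfl⟩ := hx
        exact h _ (Fin.succ_pos j)
    · apply Finset.sum_congr rfl
      intro i _
      apply if_congr _ rfl rfl
      constructor
      · intro h j hj
        obtain ⟨j', rfl⟩ := Fin.exists_succ_eq.mpr
          (Fin.pos_iff_ne_zero.mp (lt_of_le_of_lt (Fin.zero_le _) hj))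
        exact h j' (Fin.succ_lt_succ_iff.mp hj)
      · intro h j hj
        exact h _ (Fin.succ_lt_succ_iff.mpr hj)

theorem count_ofFn {n : ℕ} (f : Fin n → ℕ) :
    (List.ofFn f).count 0 = Nat.card {i : Fin n // f i = 0} := by
  classical
  rw [Nat.card_eq_fintype_card, Fintype.card_subtype, Finset.card_filter]
  induction n with
  | zero => simp
  | succ n ih =>
    rw [List.ofFn_succ, List.count_cons, ih, Fin.sum_univ_succ, add_comm]
    congr 1
    apply if_congr _ rfl rfl
    simp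

theorem av_ofFn {n : ℕ} (π : Equiv.Perm (Fin n)) :
    Av (List.ofFn (fun i => (π i : ℕ))) ↔
      ¬ ∃ i i' j l : Fin n, i'.val = i.val + 1 ∧ i' < j ∧ j < l ∧
            π j < π i ∧ π i < π i' ∧ π i' < π l := by
  constructor
  · rintro h ⟨i, i', j, l, h1, h2, h3, h4, h5, h6⟩
    have := h i.val j.val l.val (by rw [← h1]; exact h2) h3 (by rw [List.length_ofFn]; exact l.isLt)
    rw [getD_ofFn _ _ j.isLt, getD_ofFn _ _ i.isLt, getD_ofFn _ _ l.isLt] at this
    rw [← h1, getD_ofFn _ _ i'.isLt] at this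
    have h7 : (π l).val ≤ (π i').val := this h4 h5
    have h6' : (π i').val < (π l).val := h6
    omega
  · intro h i j k hij hjk hk h1 h2
    rw [List.length_ofFn] at hk
    rw [getD_ofFn _ _ (by omega), getD_ofFn _ _ (by omega)] at h1 h2 ⊢
    by_contra h3
    apply h
    exact ⟨⟨i, by omega⟩, ⟨i + 1, by omega⟩, ⟨j, by omega⟩, ⟨k, hk⟩, rfl, hij, hjk, h1, h2,
      not_le.mp h3⟩

theorem av110_ofFn {n : ℕ} (e : Fin n → Fin n) :
    Av110 (List.ofFn (fun i => (e i : ℕ))) ↔
      ¬ ∃ i j l : Fin n, i < j ∧ j < l ∧ e i = e j ∧ e l < e j := by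
  constructor
  · rintro h ⟨i, j, l, h1, h2, h3, h4⟩
    have := h i.val j.val l.val h1 h2 (by rw [List.length_ofFn]; exact l.isLt)
    rw [getD_ofFn _ _ j.isLt, getD_ofFn _ _ i.isLt, getD_ofFn _ _ l.isLt] at this
    have h5 := this (congrArg Fin.val h3)
    have h4' : (e l).val < (e j).val := h4
    have h5' : (e j).val ≤ (e l).val := h5
    omega
  · intro h i j k hij hjk hk h1
    rw [List.length_ofFn] at hk
    rw [getD_ofFn _ _ (by omega), getD_ofFn _ _ (by omega)] at h1 ⊢
    by_contra h3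
    apply h
    exact ⟨⟨i, by omega⟩, ⟨j, by omega⟩, ⟨k, hk⟩, hij, hjk, Fin.ext h1, not_le.mp h3⟩

theorem coeff_sum_pow (S : Finset (List ℕ)) (f : List ℕ → ℕ) (k : ℕ) :
    (∑ l ∈ S, (X : Polynomial ℤ) ^ (f l)).coeff k = ((S.filter (fun l => f l = k)).card : ℤ) := by
  rw [Polynomial.finsetSum_coeff, Finset.card_filter, Nat.cast_sum]
  apply Finset.sum_congr rfl
  intro l _
  rw [Polynomial.coeff_X_pow]
  by_cases h : f l = k
  · rw [if_pos h, if_pos h.symm]; rfl
  · rw [if_neg h, if_neg (fun h' => h h'.symm)]; rfl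

theorem perm_side (n k : ℕ) :
    (Nat.card {π : Equiv.Perm (Fin n) //
        (¬ ∃ i i' j l : Fin n, i'.val = i.val + 1 ∧ i' < j ∧ j < l ∧
            π j < π i ∧ π i < π i' ∧ π i' < π l) ∧
        Nat.card {i : Fin n // ∀ j : Fin n, i < j → π i < π j} = k} : ℤ) = (rpn n).coeff k := by
  classical
  unfold rpn rp
  rw [coeff_sum_pow, Finset.filter_filter]
  norm_cast
  rw [← Fintype.card_coe, ← Nat.card_eq_fintype_card]
  apply Nat.card_congr
  have hrm : ∀ π : Equiv.Perm (Fin n), rmin (List.ofFn (fun i => (π i : ℕ))) =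
      Nat.card {i : Fin n // ∀ j : Fin n, i < j → π i < π j} := fun π => rmin_ofFn _
  refine Equiv.ofBijective (fun π => ⟨List.ofFn (fun i => (π.1 i : ℕ)), ?_⟩) ⟨?_, ?_⟩
  · rw [Finset.mem_filter, av_ofFn, hrm]
    refine ⟨?_, π.2⟩
    rw [mem_perms]
    constructor
    · rw [List.nodup_ofFn]
      intro a b h
      exact π.1.injective (Fin.ext h)
    · ext x
      rw [List.mem_toFinset, List.mem_ofFn, Finset.mem_range]
      constructor
      · rintro ⟨i, rfl⟩; exact (π.1 i).isLt
      · intro hx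
        exact ⟨π.1.symm ⟨x, hx⟩, by simp⟩
  · intro π σ h
    have h' := congrArg Subtype.val h
    simp only at h'
    have h2 := List.ofFn_injective h'
    apply Subtype.ext
    apply Equiv.ext
    intro i
    exact Fin.ext (congrFun h2 i)
  · rintro ⟨l, hl⟩
    rw [Finset.mem_filter] at hl
    obtain ⟨hl1, hl2, hl3⟩ := hl
    obtain ⟨h1, h2⟩ := mem_perms.mp hl1
    have hlen : l.length = n := by
      rw [← List.toFinset_card_of_nodup h1, h2, Finset.card_range]
    have hlt : ∀ i : Fin n, l.getD i 0 < n := by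
      intro i
      rw [← Finset.mem_range, ← mem_of_perms hl1]
      exact getD_mem l i (by rw [hlen]; exact i.isLt)
    have hinj : Function.Injective (fun i : Fin n => (⟨l.getD i 0, hlt i⟩ : Fin n)) := by
      intro a b h
      have h' : l.getD a 0 = l.getD b 0 := congrArg Fin.val h
      have ha : a.val < l.length := by rw [hlen]; exact a.isLt
      have hb : b.val < l.length := by rw [hlen]; exact b.isLt
      rw [List.getD_eq_getElem _ _ ha, List.getD_eq_getElem _ _ hb] at h'
      exact Fin.ext ((List.Nodup.getElem_inj_iff h1).mp h')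
    have hlist : List.ofFn (fun i : Fin n =>
        ((Equiv.ofBijective _ (Finite.injective_iff_bijective.mp hinj) i : Fin n) : ℕ)) = l :=
      ofFn_getD l hlen
    refine ⟨⟨Equiv.ofBijective _ (Finite.injective_iff_bijective.mp hinj), ?_⟩, ?_⟩
    · rw [← av_ofFn, ← hrm, hlist]
      exact ⟨hl2, hl3⟩
    · apply Subtype.ext
      exact hlist

theorem inv_side (n k : ℕ) :
    (Nat.card {e : Fin n → Fin n //
        (∀ i : Fin n, (e i).val ≤ i.val) ∧
        (¬ ∃ i j l : Fin n, i < j ∧ j < l ∧ e i = e j ∧ e l < e j) ∧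
        Nat.card {i : Fin n // (e i).val = 0} = k} : ℤ) = (ipn n).coeff k := by
  classical
  unfold ipn
  rw [coeff_sum_pow, Finset.filter_filter]
  norm_cast
  rw [← Fintype.card_coe, ← Nat.card_eq_fintype_card]
  apply Nat.card_congr
  have hrm : ∀ e : Fin n → Fin n, (List.ofFn (fun i => (e i : ℕ))).count 0 =
      Nat.card {i : Fin n // (e i).val = 0} := fun e => count_ofFn _
  refine Equiv.ofBijective (fun e => ⟨List.ofFn (fun i => (e.1 i : ℕ)), ?_⟩) ⟨?_, ?_⟩
  · rw [Finset.mem_filter, av110_ofFn, hrm]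
    refine ⟨?_, e.2.2⟩
    rw [mem_InvS]
    refine ⟨List.length_ofFn, ?_⟩
    intro i hi
    rw [getD_ofFn _ _ hi]
    exact e.2.1 ⟨i, hi⟩
  · intro π σ h
    have h' := congrArg Subtype.val h
    simp only at h'
    have h2 := List.ofFn_injective h'
    apply Subtype.ext
    funext i
    exact Fin.ext (congrFun h2 i)
  · rintro ⟨l, hl⟩
    rw [Finset.mem_filter] at hl
    obtain ⟨hl1, hl2, hl3⟩ := hl
    obtain ⟨hlen, h2⟩ := (mem_InvS n l).mp hl1
    have hlt : ∀ i : Fin n, l.getD i 0 < n := by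
      intro i
      exact lt_of_le_of_lt (h2 i i.isLt) i.isLt
    have hlist : List.ofFn (fun i : Fin n =>
        (((fun i : Fin n => (⟨l.getD i 0, hlt i⟩ : Fin n)) i : Fin n) : ℕ)) = l :=
      ofFn_getD l hlen
    refine ⟨⟨fun i : Fin n => (⟨l.getD i 0, hlt i⟩ : Fin n), ?_⟩, ?_⟩
    · rw [← av110_ofFn, ← hrm, hlist]
      exact ⟨fun i => h2 i i.isLt, hl2, hl3⟩
    · apply Subtype.ext
      exact hlist

theorem final (n k : ℕ) :
    Nat.card {π : Equiv.Perm (Fin n) //
        (¬ ∃ i i' j l : Fin n, i'.val = i.val + 1 ∧ i' < j ∧ j < l ∧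
            π j < π i ∧ π i < π i' ∧ π i' < π l) ∧
        Nat.card {i : Fin n // ∀ j : Fin n, i < j → π i < π j} = k} =
      Nat.card {e : Fin n → Fin n //
        (∀ i : Fin n, (e i).val ≤ i.val) ∧
        (¬ ∃ i j l : Fin n, i < j ∧ j < l ∧ e i = e j ∧ e l < e j) ∧
        Nat.card {i : Fin n // (e i).val = 0} = k} := by
  have h : (Nat.card {π : Equiv.Perm (Fin n) //
        (¬ ∃ i i' j l : Fin n, i'.val = i.val + 1 ∧ i' < j ∧ j < l ∧
            π j < π i ∧ π i < π i' ∧ π i' < π l) ∧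
        Nat.card {i : Fin n // ∀ j : Fin n, i < j → π i < π j} = k} : ℤ) =
      (Nat.card {e : Fin n → Fin n //
        (∀ i : Fin n, (e i).val ≤ i.val) ∧
        (¬ ∃ i j l : Fin n, i < j ∧ j < l ∧ e i = e j ∧ e l < e j) ∧
        Nat.card {i : Fin n // (e i).val = 0} = k} : ℤ) := by
    rw [perm_side, inv_side, rpn_eq_Cn, ipn_eq_Cn]
  exact_mod_cast h

end Pool.Agent.H27.PC
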