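import Mathlib

set_option autoImplicit false

namespace Pool.Agent.H27

/-- A Steiner quasigroup (squag). -/
structure Squag {V : Type} (m : V → V → V) : Prop where
  idem : ∀ x, m x x = x
  comm : ∀ x y, m x y = m y x
  inv : ∀ x y, m x (m x y) = y

theorem Squag.ne_left {V : Type} {m : V → V → V} (h : Squag m) {x y : V} (hxy : x ≠ y) :
    m x y ≠ x := by
  intro e
  have := h.inv x y
  rw [e, h.idem] at this
  exact hxy this

theorem Squag.ne_right {V : Type} {m : V → V → V} (h : Squag m) {x y : V} (hxy : x ≠ y) :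
    m x y ≠ y := by
  rw [h.comm]; exact h.ne_left hxy.symm

open Classical in
/-- The blocks of a squag. -/
noncomputable def blocks {V : Type} [Fintype V] (m : V → V → V) : Finset (Finset V) :=
  Finset.univ.filter (fun b => ∃ x y, x ≠ y ∧ b = {x, y, m x y})

open Classical in
theorem mem_blocks {V : Type} [Fintype V] (m : V → V → V) (b : Finset V) :
    b ∈ blocks m ↔ ∃ x y, x ≠ y ∧ b = {x, y, m x y} := by
  simp [blocks]

open Classical in
theorem blocks_card {V : Type} [Fintype V] {m : V → V → V} (h : Squag m) :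
    ∀ b ∈ blocks m, b.card = 3 := by
  intro b hb
  rw [mem_blocks] at hb
  obtain ⟨x, y, hxy, rfl⟩ := hb
  rw [Finset.card_eq_three]
  exact ⟨x, y, m x y, hxy, (h.ne_left hxy).symm, (h.ne_right hxy).symm, rfl⟩

open Classical in
theorem blocks_unique {V : Type} [Fintype V] {m : V → V → V} (h : Squag m) :
    ∀ x y : V, x ≠ y → ∃! b, b ∈ blocks m ∧ x ∈ b ∧ y ∈ b := by
  intro x y hxy
  refine ⟨{x, y, m x y}, ⟨?_, by simp, by simp⟩, ?_⟩
  · rw [mem_blocks]; exact ⟨x, y, hxy, rfl⟩
  · rintro b ⟨hb, hx, hy⟩
    rw [mem_blocks] at hb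
    obtain ⟨u, v, huv, rfl⟩ := hb
    simp only [Finset.mem_insert, Finset.mem_singleton] at hx hy
    have e1 : m u (m u v) = v := h.inv u v
    have e2 : m v (m u v) = u := by rw [h.comm u v]; exact h.inv v u
    rcases hx with rfl | rfl | rfl <;> rcases hy with rfl | rfl | rfl
    · exact absurd rfl hxy
    · rfl
    · rw [e1]; ext z; simp; tauto
    · rw [h.comm x y]; ext z; simp; tauto
    · exact absurd rfl hxy
    · rw [e2]; ext z; simp; tauto
    · rw [h.comm _ y, e1]; ext z; simp; tauto
    · rw [h.comm (m u y) y, e2, h.comm u y]; ext z; simp; tauto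
    · exact absurd rfl hxy

open Classical in
theorem blocks_image {V : Type} [Fintype V] {m : V → V → V}
    (σ : Equiv.Perm V) (hσ : ∀ x y, σ (m x y) = m (σ x) (σ y)) :
    ∀ b ∈ blocks m, b.image (⇑σ) ∈ blocks m := by
  intro b hb
  rw [mem_blocks] at hb ⊢
  obtain ⟨x, y, hxy, rfl⟩ := hb
  refine ⟨σ x, σ y, fun e => hxy (σ.injective e), ?_⟩
  simp [Finset.image_insert, hσ]

/-- Bose construction operation on `ZMod 3 × ZMod (2k+1)`. -/
def bose (k : ℕ) (p q : ZMod 3 × ZMod (2*k+1)) : ZMod 3 × ZMod (2*k+1) :=
  if p.1 = q.1 then (if p.2 = q.2 then p else (p.1 + 1, (p.2 + q.2) * ((k+1 : ℕ) : ZMod (2*k+1))))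
  else if p.2 = q.2 then (-(p.1 + q.1), p.2)
  else if q.1 = p.1 + 1 then (p.1, 2 * q.2 - p.2)
  else (q.1, 2 * p.2 - q.2)

theorem half_spec (k : ℕ) : (2 : ZMod (2*k+1)) * ((k+1 : ℕ) : ZMod (2*k+1)) = 1 := by
  have h : (((2 * k + 1 : ℕ)) : ZMod (2*k+1)) = 0 := ZMod.natCast_self _
  push_cast at h ⊢
  linear_combination h

theorem bose_squag (k : ℕ) : Squag (bose k) := by
  have hh := half_spec k
  set t : ZMod (2*k+1) := ((k+1 : ℕ) : ZMod (2*k+1)) with ht
  have key : ∀ x y : ZMod (2*k+1), 2 * ((x + y) * t) = x + y := by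
    intro x y; linear_combination (x + y) * hh
  have key2 : ∀ x y : ZMod (2*k+1), (x + (2 * y - x)) * t = y := by
    intro x y; linear_combination y * hh
  have key3 : ∀ x y : ZMod (2*k+1), x = (x + y) * t → x = y := by
    intro x y h; 
    have h2 := key x y
    rw [← h] at h2
    linear_combination h2
  have key4 : ∀ x y : ZMod (2*k+1), 2 * x - y = x → x = y := by
    intro x y h; linear_combination h
  have key5 : ∀ x y : ZMod (2*k+1), 2 * x - y = y → x = y := by
    intro x y h; 
    have : 2 * (x - y) = 0 := by linear_combination h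
    have h3 : t * (2 * (x - y)) = 0 := by rw [this, mul_zero]
    have h4 : x - y = 0 := by linear_combination h3 - (x - y) * hh
    linear_combination h4
  refine ⟨?_, ?_, ?_⟩
  · intro x; simp [bose]
  · rintro ⟨a, x⟩ ⟨b, y⟩
    by_cases hab : a = b
    · subst hab
      by_cases hxy : x = y
      · subst hxy; rfl
      · have hyx : ¬ y = x := fun e => hxy e.symm
        simp [bose, hxy, hyx, add_comm]
    · have hba : ¬ b = a := fun e => hab e.symm
      by_cases hxy : x = y
      · subst hxy; simp [bose, hab, hba, add_comm]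
      · have hyx : ¬ y = x := fun e => hxy e.symm
        have h3 : b = a + 1 ∨ a = b + 1 := by
          revert a b; decide
        rcases h3 with h3 | h3
        · have h4 : ¬ a = b + 1 := by
            subst h3; revert a; decide
          simp [bose, hab, hba, hxy, hyx, h3, h4]
          subst h3
          intro h5
          exact absurd h5 h4
        · have h4 : ¬ b = a + 1 := by
            subst h3; revert b; decide
          simp [bose, hab, hba, hxy, hyx, h3, h4]
          subst h3
          intro h5
          exact absurd h5 h4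
  · rintro ⟨a, x⟩ ⟨b, y⟩
    by_cases hab : a = b
    · subst hab
      by_cases hxy : x = y
      · subst hxy; simp [bose]
      · have h1 : ¬ x = (x + y) * t := fun e => hxy (key3 x y e)
        have h2 : ¬ a = a + 1 := by revert a; decide
        simp only [bose, if_true, if_neg hxy, if_neg h1, if_neg h2, ← ht, key]
        ext <;> simp
    · have hba : ¬ b = a := fun e => hab e.symm
      by_cases hxy : x = y
      · subst hxy
        have h1 : ¬ a = -(a + b) := by revert a b; decide
        simp only [bose, if_neg hab, if_true, if_neg h1]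
        ext <;> simp
      · have hyx : ¬ y = x := fun e => hxy e.symm
        have h3 : b = a + 1 ∨ a = b + 1 := by
          revert a b; decide
        rcases h3 with h3 | h3
        · have h1 : ¬ x = 2 * y - x := fun e => hyx (key5 y x e.symm)
          simp only [bose, if_neg hab, if_neg hxy, if_pos h3, if_true, if_neg h1, ← ht, key2]
          ext <;> simp [h3]
        · have h4 : ¬ b = a + 1 := by
            subst h3; revert b; decide
          have h1 : ¬ x = 2 * x - y := fun e => hxy (key4 x y e.symm)
          simp only [bose, if_neg hab, if_neg hxy, if_neg h4, if_neg h1]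
          ext <;> simp

theorem exists_squag_of_card (F : Type) [Fintype F] (hF : Fintype.card F % 6 = 3) :
    ∃ m : F → F → F, Squag m := by
  obtain ⟨k, hk⟩ : ∃ k, Fintype.card F = 3 * (2 * k + 1) := ⟨Fintype.card F / 6, by omega⟩
  have hc : Fintype.card F = Fintype.card (ZMod 3 × ZMod (2*k+1)) := by
    rw [hk, Fintype.card_prod, ZMod.card, ZMod.card]
  let e : F ≃ ZMod 3 × ZMod (2*k+1) := Fintype.equivOfCardEq hc
  refine ⟨fun x y => e.symm (bose k (e x) (e y)), ?_, ?_, ?_⟩
  · intro x; simp [(bose_squag k).idem]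
  · intro x y; simp [(bose_squag k).comm (e x) (e y)]
  · intro x y; simp [(bose_squag k).inv (e x) (e y)]

end Pool.Agent.H27
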