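import Mathlib
import Pool.Agent.H27.Squag

set_option autoImplicit false

namespace Pool.Agent.H27

/-- Index group of layers. -/
abbrev JJ (K : Type) := ZMod 2 × ZMod 2 × K

/-- The data used in the construction. -/
structure Dat (H K : Type) [Group H] [AddCommGroup K] where
  ω : H
  hω : ω * ω * ω = 1
  hω1 : ω ≠ 1
  hK : ∀ x : K, x + x = 0
  ι : H → K
  κ : K → H
  hι : ∀ s, κ (ι s) = s
  q : H → ℕ
  hq : Function.Injective q
  r : JJ K → ℕ
  hr : Function.Injective r

namespace Dat

variable {H K : Type} [Group H] [AddCommGroup K] (D : Dat H K)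

/-- The chosen half of the non-involutions. -/
def S (u : H) : Prop := D.q u < D.q u⁻¹ ∧ u ≠ D.ω ∧ u ≠ D.ω⁻¹

/-- orientation -/
def low (d i : JJ K) : Prop := if d.1 = 1 then i.1 = d.2.1 else D.r i ≤ D.r (i + d)

include D in
theorem hJ (d : JJ K) : d + d = 0 := by
  obtain ⟨a, b, c⟩ := d
  have h2 : ∀ a : ZMod 2, a + a = 0 := by decide
  simp [h2, D.hK]

include D in
theorem add_self_left (i d : JJ K) : i + (i + d) = d := by
  rw [← add_assoc, D.hJ, zero_add]

include D in
theorem add_self_right (i d : JJ K) : i + d + d = i := by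
  rw [add_assoc, D.hJ, add_zero]

include D in
theorem add_eq_zero {i j : JJ K} (h : i + j = 0) : i = j := by
  have : i + j + j = 0 + j := by rw [h]
  rwa [D.add_self_right, zero_add] at this

theorem low_zero (i : JJ K) : D.low 0 i := by
  simp [low]

theorem low_flip {d : JJ K} (hd : d ≠ 0) (i : JJ K) : D.low d (i + d) ↔ ¬ D.low d i := by
  by_cases h1 : d.1 = 1
  · simp only [low, if_pos h1]
    have : ∀ a b : ZMod 2, (a + 1 = b ↔ ¬ a = b) := by decide
    rw [Prod.fst_add, h1]
    exact this _ _
  · simp only [low, if_neg h1]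
    rw [D.add_self_right]
    have hne : D.r i ≠ D.r (i + d) := by
      intro e
      have := D.hr e
      apply hd
      have h2 : i + (i + d) = i + i := by rw [← this]
      rwa [D.add_self_left, D.hJ] at h2
    omega

/-- code of an ordered pair -/
noncomputable def code (w w' : JJ K × H) : JJ K × H := by
  classical
  exact (w.1 + w'.1, if D.low (w.1 + w'.1) w.1 then w.2⁻¹ * w'.2 else w'.2⁻¹ * w.2)

/-- neighbour of a point along a code -/
noncomputable def nb (c w : JJ K × H) : JJ K × H := by
  classical
  exact (w.1 + c.1, if D.low c.1 w.1 then w.2 * c.2 else w.2 * c.2⁻¹)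

/-- codes covered by triangles (and the trivial code) -/
def bad (c : JJ K × H) : Prop :=
  (c.1 = 0 ∧ (c.2 = 1 ∨ c.2 * c.2 ≠ 1)) ∨
    (c.1.1 = 1 ∧ ∃ s, D.S s ∧ c.1.2.2 = D.ι s ∧ (c.2 = 1 ∨ c.2 = s⁻¹))

theorem code_nb (c w : JJ K × H) : D.code w (D.nb c w) = c := by
  classical
  unfold code nb
  simp only [D.add_self_left]
  ext1
  · rfl
  · by_cases h : D.low c.1 w.1
    · simp [h]
    · simp [h]

theorem nb_code (w w' : JJ K × H) : D.nb (D.code w w') w = w' := by
  classical
  unfold code nb
  simp only [D.add_self_left]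
  ext1
  · rfl
  · by_cases h : D.low (w.1 + w'.1) w.1
    · simp [h]
    · simp [h]

theorem code_comm_of_ne (w w' : JJ K × H) (h : w.1 ≠ w'.1) : D.code w w' = D.code w' w := by
  classical
  have hd : w.1 + w'.1 ≠ 0 := fun e => h (D.add_eq_zero e)
  unfold code
  have h1 : D.low (w.1 + w'.1) w'.1 ↔ ¬ D.low (w.1 + w'.1) w.1 := by
    have := D.low_flip hd w.1
    rwa [D.add_self_left] at this
  rw [add_comm w'.1 w.1]
  by_cases h2 : D.low (w.1 + w'.1) w.1
  · have h3 : ¬ D.low (w.1 + w'.1) w'.1 := by rw [h1]; exact not_not.mpr h2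
    simp [h2, h3]
  · have h3 : D.low (w.1 + w'.1) w'.1 := by rw [h1]; exact h2
    simp [h2, h3]

theorem code_same (w w' : JJ K × H) (h : w.1 = w'.1) : D.code w w' = (0, w.2⁻¹ * w'.2) := by
  classical
  unfold code
  rw [h, D.hJ]
  simp [D.low_zero]

theorem bad_comm (w w' : JJ K × H) (h : D.bad (D.code w w')) : D.bad (D.code w' w) := by
  by_cases h1 : w.1 = w'.1
  · rw [D.code_same _ _ h1] at h
    rw [D.code_same _ _ h1.symm]
    rcases h with h | h
    · left
      refine ⟨rfl, ?_⟩
      rcases h.2 with h | h
      · left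
        simp only at h ⊢
        rw [inv_mul_eq_one] at h ⊢
        exact h.symm
      · right
        simp only at h ⊢
        intro e
        apply h
        have : w.2⁻¹ * w'.2 = (w'.2⁻¹ * w.2)⁻¹ := by group
        rw [this, ← mul_inv_rev, e, inv_one]
    · exfalso
      have := h.1
      simp at this
  · rwa [← D.code_comm_of_ne _ _ h1]

theorem code_comm_of_good (w w' : JJ K × H) (h : ¬ D.bad (D.code w w')) :
    D.code w w' = D.code w' w := by
  by_cases h1 : w.1 = w'.1
  · rw [D.code_same _ _ h1] at h
    rw [D.code_same _ _ h1, D.code_same _ _ h1.symm]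
    have h2 : w.2⁻¹ * w'.2 * (w.2⁻¹ * w'.2) = 1 := by
      by_contra h3
      exact h (Or.inl ⟨rfl, Or.inr h3⟩)
    ext1
    · rfl
    · simp only
      have := eq_inv_of_mul_eq_one_left h2
      rw [this]; group
  · exact D.code_comm_of_ne _ _ h1

theorem bad_self (w : JJ K × H) : D.bad (D.code w w) := by
  rw [D.code_same _ _ rfl]
  left
  simp

theorem nb_nb (c w : JJ K × H) (hc : ¬ D.bad c) : D.nb c (D.nb c w) = w := by
  have h1 : D.code w (D.nb c w) = c := D.code_nb c w
  have h2 : ¬ D.bad (D.code w (D.nb c w)) := by rwa [h1]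
  have h3 := D.code_comm_of_good _ _ h2
  rw [h1] at h3
  have h4 := D.nb_code (D.nb c w) w
  rw [← h3] at h4
  exact h4

theorem nb_ne (c w : JJ K × H) (hc : ¬ D.bad c) : D.nb c w ≠ w := by
  intro e
  have h1 : D.code w (D.nb c w) = c := D.code_nb c w
  rw [e] at h1
  rw [← h1] at hc
  exact hc (D.bad_self w)

/-- third point of the triangle through two points with bad code -/
noncomputable def third (w w' : JJ K × H) : JJ K × H := by
  classical
  exact
  if w.1 = w'.1 then
    (if w.2⁻¹ * w'.2 = D.ω ∨ w.2⁻¹ * w'.2 = D.ω⁻¹ then (w.1, w.2 * (w.2⁻¹ * w'.2)⁻¹)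
    else if D.q (w.2⁻¹ * w'.2) < D.q (w.2⁻¹ * w'.2)⁻¹ then
      (w.1 + (1, w.1.1, D.ι (w.2⁻¹ * w'.2)), w.2)
    else (w.1 + (1, w.1.1, D.ι (w.2⁻¹ * w'.2)⁻¹), w'.2))
  else
    (if D.low (w.1 + w'.1) w.1 then
      (if w.2 = w'.2 then (w.1, w.2 * D.κ (w.1 + w'.1).2.2) else (w.1, w'.2))
    else
      (if w.2 = w'.2 then (w'.1, w'.2 * D.κ (w.1 + w'.1).2.2) else (w'.1, w.2)))

theorem ω_inv_ne : D.ω⁻¹ ≠ D.ω := by
  intro e
  have h := D.hω
  have h2 : D.ω * D.ω = 1 := by
    nth_rewrite 1 [← e]; simp
  rw [h2, one_mul] at h
  exact D.hω1 h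

theorem ωω : D.ω * D.ω = D.ω⁻¹ := eq_inv_of_mul_eq_one_left D.hω

theorem ωω' : D.ω⁻¹ * D.ω⁻¹ = D.ω := by
  rw [← mul_inv_rev, D.ωω, inv_inv]

theorem S_ne_inv {s : H} (hs : D.S s) : s ≠ s⁻¹ := by
  intro e
  have := hs.1
  rw [← e] at this
  exact lt_irrefl _ this

theorem S_ne_one {s : H} (hs : D.S s) : s ≠ 1 := by
  rintro rfl
  have := hs.1
  simp at this

theorem S_sq {s : H} (hs : D.S s) : s * s ≠ 1 := fun e =>
  D.S_ne_inv hs (eq_inv_of_mul_eq_one_left e)

theorem third_comm (w w' : JJ K × H) (hne : w ≠ w') (h : D.bad (D.code w w')) :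
    D.third w w' = D.third w' w := by
  classical
  obtain ⟨i, x⟩ := w
  obtain ⟨j, y⟩ := w'
  by_cases hij : i = j
  · subst hij
    obtain ⟨u, rfl⟩ : ∃ u, y = x * u := ⟨x⁻¹ * y, by group⟩
    have hu1 : u ≠ 1 := by
      rintro rfl
      exact hne (by simp)
    have hu2 : u * u ≠ 1 := by
      rw [D.code_same (i, x) (i, x * u) rfl] at h
      rcases h with h | h
      · rcases h.2 with h | h
        · simp at h; exact absurd h hu1
        · simpa using h
      · have := h.1
        simp at this
    have hu3 : u ≠ u⁻¹ := by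
      intro e
      apply hu2
      nth_rewrite 1 [e]; simp
    have hq : D.q u ≠ D.q u⁻¹ := fun e => hu3 (D.hq e)
    have e1 : x⁻¹ * (x * u) = u := by group
    have e2 : (x * u)⁻¹ * x = u⁻¹ := by group
    simp only [third, if_true, e1, e2, inv_inv]
    by_cases h1 : u = D.ω ∨ u = D.ω⁻¹
    · have h2 : u⁻¹ = D.ω ∨ u⁻¹ = D.ω⁻¹ := by
        rcases h1 with rfl | rfl
        · right; rfl
        · left; simp
      rw [if_pos h1, if_pos h2]
      ext1
      · rfl
      · simp only
        rcases h1 with rfl | rfl
        · rw [mul_assoc, D.ωω]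
        · rw [mul_assoc, D.ωω', inv_inv]
    · have h2 : ¬ (u⁻¹ = D.ω ∨ u⁻¹ = D.ω⁻¹) := by
        rintro (h2 | h2)
        · exact h1 (Or.inr (by rw [← h2, inv_inv]))
        · exact h1 (Or.inl (inv_injective h2))
      rw [if_neg h1, if_neg h2]
      by_cases h3 : D.q u < D.q u⁻¹
      · have h4 : ¬ D.q u⁻¹ < D.q u := by omega
        rw [if_pos h3, if_neg h4]
      · have h4 : D.q u⁻¹ < D.q u := by omega
        rw [if_neg h3, if_pos h4]
  · have hji : ¬ j = i := fun e => hij e.symm
    have hd : i + j ≠ 0 := fun e => hij (D.add_eq_zero e)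
    have h1 : D.low (i + j) j ↔ ¬ D.low (i + j) i := by
      have := D.low_flip hd i
      rwa [D.add_self_left] at this
    simp only [third, if_neg hij, if_neg hji]
    rw [add_comm j i]
    by_cases h2 : D.low (i + j) i
    · have h3 : ¬ D.low (i + j) j := by rw [h1]; exact not_not.mpr h2
      rw [if_pos h2, if_neg h3]
      by_cases h4 : x = y
      · rw [if_pos h4, if_pos h4.symm]
      · rw [if_neg h4, if_neg (fun e => h4 e.symm)]
    · have h3 : D.low (i + j) j := by rw [h1]; exact h2
      rw [if_neg h2, if_pos h3]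
      by_cases h4 : x = y
      · rw [if_pos h4, if_pos h4.symm]
      · rw [if_neg h4, if_neg (fun e => h4 e.symm)]

include D in
theorem ne_add (i : JJ K) {d : JJ K} (hd : d ≠ 0) : ¬ i = i + d := by
  intro e
  apply hd
  have : i + i = i + (i + d) := by rw [← e]
  rw [D.hJ, D.add_self_left] at this
  exact this.symm

theorem third_spec (w w' : JJ K × H) (hne : w ≠ w') (h : D.bad (D.code w w')) :
    w ≠ D.third w w' ∧ D.bad (D.code w (D.third w w')) ∧ D.third w (D.third w w') = w' := by
  classical
  obtain ⟨i, x⟩ := w
  obtain ⟨j, y⟩ := w'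
  by_cases hij : i = j
  · subst hij
    obtain ⟨u, rfl⟩ : ∃ u, y = x * u := ⟨x⁻¹ * y, by group⟩
    have hu1 : u ≠ 1 := by
      rintro rfl
      exact hne (by simp)
    have hu2 : u * u ≠ 1 := by
      rw [D.code_same (i, x) (i, x * u) rfl] at h
      rcases h with h | h
      · rcases h.2 with h | h
        · simp at h; exact absurd h hu1
        · simpa using h
      · have := h.1
        simp at this
    have hu3 : u ≠ u⁻¹ := by
      intro e
      apply hu2
      nth_rewrite 1 [e]; simp
    have hq : D.q u ≠ D.q u⁻¹ := fun e => hu3 (D.hq e)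
    have e1 : x⁻¹ * (x * u) = u := by group
    by_cases h1 : u = D.ω ∨ u = D.ω⁻¹
    · have h2 : u⁻¹ = D.ω ∨ u⁻¹ = D.ω⁻¹ := by
        rcases h1 with rfl | rfl
        · right; rfl
        · left; simp
      have e3 : D.third (i, x) (i, x * u) = (i, x * u⁻¹) := by
        simp only [third, if_true, e1]
        rw [if_pos h1]
      have e4 : D.third (i, x) (i, x * u⁻¹) = (i, x * u) := by
        have e1' : x⁻¹ * (x * u⁻¹) = u⁻¹ := by group
        simp only [third, if_true, e1', inv_inv]
        rw [if_pos h2]
      rw [e3]
      refine ⟨?_, ?_, e4⟩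
      · intro e
        have := congrArg Prod.snd e
        simp at this
        exact hu1 this
      · rw [D.code_same (i, x) (i, x * u⁻¹) rfl]
        left
        refine ⟨rfl, Or.inr ?_⟩
        simp only [inv_mul_cancel_left]
        rw [← mul_inv_rev]
        intro e
        exact hu2 (inv_eq_one.mp e)
    · by_cases h3 : D.q u < D.q u⁻¹
      · -- base x
        have hS : D.S u := ⟨h3, fun e => h1 (Or.inl e), fun e => h1 (Or.inr e)⟩
        have e3 : D.third (i, x) (i, x * u) = (i + (1, i.1, D.ι u), x) := by
          simp only [third, if_true, e1]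
          rw [if_neg h1, if_pos h3]
        have hδ : ((1, i.1, D.ι u) : JJ K) ≠ 0 := by
          intro e
          have := congrArg Prod.fst e
          simp at this
        have hni := D.ne_add i hδ
        have hlow : D.low (1, i.1, D.ι u) i := by simp [low]
        rw [e3]
        refine ⟨?_, ?_, ?_⟩
        · intro e
          exact hni (congrArg Prod.fst e)
        · right
          simp only [code, D.add_self_left, if_pos hlow]
          exact ⟨trivial, u, hS, rfl, Or.inl (by simp)⟩
        · simp only [third, if_neg hni, D.add_self_left, if_pos hlow, if_true, D.hι]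
      · -- base y
        have h4 : D.q u⁻¹ < D.q u := by omega
        have hS : D.S u⁻¹ := ⟨by rwa [inv_inv], fun e => h1 (Or.inr (by rw [← e, inv_inv])),
          fun e => h1 (Or.inl (inv_injective e))⟩
        have e3 : D.third (i, x) (i, x * u) = (i + (1, i.1, D.ι u⁻¹), x * u) := by
          simp only [third, if_true, e1]
          rw [if_neg h1, if_neg h3]
        have hδ : ((1, i.1, D.ι u⁻¹) : JJ K) ≠ 0 := by
          intro e
          have := congrArg Prod.fst e
          simp at this
        have hni := D.ne_add i hδ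
        have hlow : D.low (1, i.1, D.ι u⁻¹) i := by simp [low]
        have hxu : ¬ x = x * u := by
          intro e
          exact hu1 (by simpa using e)
        rw [e3]
        refine ⟨?_, ?_, ?_⟩
        · intro e
          exact hni (congrArg Prod.fst e)
        · right
          simp only [code, D.add_self_left, if_pos hlow]
          exact ⟨trivial, u⁻¹, hS, rfl, Or.inr (by simp)⟩
        · simp only [third, if_neg hni, D.add_self_left, if_pos hlow, if_neg hxu]
  · have hji : ¬ j = i := fun e => hij e.symm
    have hd : i + j ≠ 0 := fun e => hij (D.add_eq_zero e)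
    -- extract data
    have hbad := h
    rcases h with h | h
    · exact absurd h.1 hd
    · obtain ⟨hd1, s, hS, hs, hv⟩ := h
      simp only [code] at hd1 hs hv
      have hκ : D.κ (i + j).2.2 = s := by rw [hs, D.hι]
      have hs1 := D.S_ne_one hS
      have hss := D.S_sq hS
      have hsinv1 : s⁻¹ ≠ 1 := by simpa using hs1
      by_cases hlow : D.low (i + j) i
      · -- w is base
        rw [if_pos hlow] at hv
        have hi1 : i.1 = (i + j).2.1 := by
          have := hlow
          simp only [low, if_pos hd1] at this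
          exact this
        have hdelta : ((1, i.1, D.ι s) : JJ K) = i + j := by
          ext1
          · exact hd1.symm
          · ext1
            · exact hi1
            · exact hs.symm
        rcases hv with hv | hv
        · have hxy : x = y := by
            rwa [inv_mul_eq_one] at hv
          subst hxy
          have e3 : D.third (i, x) (j, x) = (i, x * s) := by
            simp only [third, if_neg hij, if_pos hlow, if_true, hκ]
          rw [e3]
          have e1 : x⁻¹ * (x * s) = s := by group
          refine ⟨?_, ?_, ?_⟩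
          · intro e
            have := congrArg Prod.snd e
            simp at this
            exact hs1 this
          · rw [D.code_same (i, x) (i, x * s) rfl]
            left
            exact ⟨rfl, Or.inr (by simpa using hss)⟩
          · simp only [third, if_true, e1]
            have h1 : ¬ (s = D.ω ∨ s = D.ω⁻¹) := by
              rintro (e | e)
              · exact hS.2.1 e
              · exact hS.2.2 e
            rw [if_neg h1, if_pos hS.1, hdelta, D.add_self_left]
        · have hy : y = x * s⁻¹ := by
            rw [← hv]; group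
          subst hy
          have hxy : ¬ x = x * s⁻¹ := by
            intro e
            exact hs1 (by simpa using e)
          have e3 : D.third (i, x) (j, x * s⁻¹) = (i, x * s⁻¹) := by
            simp only [third, if_neg hij, if_pos hlow, if_neg hxy]
          rw [e3]
          have e1 : x⁻¹ * (x * s⁻¹) = s⁻¹ := by group
          refine ⟨?_, ?_, ?_⟩
          · intro e
            exact hxy (congrArg Prod.snd e)
          · rw [D.code_same (i, x) (i, x * s⁻¹) rfl]
            left
            refine ⟨rfl, Or.inr ?_⟩
            simp only [e1]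
            rw [← mul_inv_rev]
            intro e
            exact hss (inv_eq_one.mp e)
          · simp only [third, if_true, e1, inv_inv]
            have h1 : ¬ (s⁻¹ = D.ω ∨ s⁻¹ = D.ω⁻¹) := by
              rintro (e | e)
              · exact hS.2.2 (by rw [← e, inv_inv])
              · exact hS.2.1 (inv_injective e)
            have h2 : ¬ D.q s⁻¹ < D.q s := by
              have := hS.1
              omega
            rw [if_neg h1, if_neg h2, hdelta, D.add_self_left]
      · -- w' is base
        rw [if_neg hlow] at hv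
        rcases hv with hv | hv
        · have hxy : x = y := by
            rw [inv_mul_eq_one] at hv
            exact hv.symm
          subst hxy
          have e3 : D.third (i, x) (j, x) = (j, x * s) := by
            simp only [third, if_neg hij, if_neg hlow, if_true, hκ]
          rw [e3]
          have hxs : ¬ x = x * s := by
            intro e
            exact hs1 (by simpa using e)
          refine ⟨?_, ?_, ?_⟩
          · intro e
            exact hij (congrArg Prod.fst e)
          · right
            simp only [code, if_neg hlow]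
            exact ⟨hd1, s, hS, hs, Or.inr (by simp)⟩
          · simp only [third, if_neg hij, if_neg hlow, if_neg hxs]
        · have hx : x = y * s⁻¹ := by
            rw [← hv]; group
          subst hx
          have hxy : ¬ y * s⁻¹ = y := by
            intro e
            exact hs1 (by simpa using e)
          have e3 : D.third (i, y * s⁻¹) (j, y) = (j, y * s⁻¹) := by
            simp only [third, if_neg hij, if_neg hlow, if_neg hxy]
          rw [e3]
          refine ⟨?_, ?_, ?_⟩
          · intro e
            exact hij (congrArg Prod.fst e)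
          · right
            simp only [code, if_neg hlow]
            exact ⟨hd1, s, hS, hs, Or.inl (by simp)⟩
          · simp only [third, if_neg hij, if_neg hlow, if_true, hκ]
            simp

/-- The set of good codes. -/
def FF : Type := {c : JJ K × H // ¬ D.bad c}

/-- The points of the system. -/
abbrev VV : Type := D.FF ⊕ (JJ K × H)

/-- The operation. -/
noncomputable def op (m : D.FF → D.FF → D.FF) (a b : D.VV) : D.VV := by
  classical
  exact match a, b with
  | Sum.inl c, Sum.inl c' => Sum.inl (m c c')
  | Sum.inl c, Sum.inr w => Sum.inr (D.nb c.1 w)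
  | Sum.inr w, Sum.inl c => Sum.inr (D.nb c.1 w)
  | Sum.inr w, Sum.inr w' =>
      if w = w' then Sum.inr w
      else if h : D.bad (D.code w w') then Sum.inr (D.third w w')
      else Sum.inl ⟨D.code w w', h⟩

theorem op_squag (m : D.FF → D.FF → D.FF) (hm : Squag m) : Squag (D.op m) := by
  classical
  refine ⟨?_, ?_, ?_⟩
  · rintro (c | w)
    · simp [op, hm.idem]
    · simp [op]
  · rintro (c | w) (c' | w')
    · simp [op, hm.comm c c']
    · simp [op]
    · simp [op]
    · by_cases h1 : w = w'
      · subst h1; rfl
      · have h1' : ¬ w' = w := fun e => h1 e.symm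
        by_cases h2 : D.bad (D.code w w')
        · have h2' := D.bad_comm _ _ h2
          simp only [op, if_neg h1, if_neg h1', dif_pos h2, dif_pos h2']
          rw [D.third_comm w w' h1 h2]
        · have h2' : ¬ D.bad (D.code w' w) := fun e => h2 (D.bad_comm _ _ e)
          simp only [op, if_neg h1, if_neg h1', dif_neg h2, dif_neg h2']
          congr 1
          exact Subtype.ext (D.code_comm_of_good w w' h2)
  · rintro (c | w) (c' | w')
    · simp [op, hm.inv c c']
    · simp [op, D.nb_nb c.1 w' c.2]
    · have h1 : ¬ w = D.nb c'.1 w := fun e => D.nb_ne c'.1 w c'.2 e.symm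
      have h2 : D.code w (D.nb c'.1 w) = c'.1 := D.code_nb _ _
      have h3 : ¬ D.bad (D.code w (D.nb c'.1 w)) := by rw [h2]; exact c'.2
      simp only [op, if_neg h1, dif_neg h3]
      congr 1
      exact Subtype.ext h2
    · by_cases h1 : w = w'
      · subst h1; simp [op]
      · by_cases h2 : D.bad (D.code w w')
        · obtain ⟨h3, h4, h5⟩ := D.third_spec w w' h1 h2
          simp only [op, if_neg h1, dif_pos h2, if_neg h3, dif_pos h4, h5]
        · simp only [op, if_neg h1, dif_neg h2, D.nb_code]

/-- The action of `H`. -/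
def act (g : H) (a : D.VV) : D.VV :=
  match a with
  | Sum.inl c => Sum.inl c
  | Sum.inr w => Sum.inr (w.1, g * w.2)

theorem code_act (g : H) (w w' : JJ K × H) :
    D.code (w.1, g * w.2) (w'.1, g * w'.2) = D.code w w' := by
  classical
  simp only [code]
  have e1 : (g * w.2)⁻¹ * (g * w'.2) = w.2⁻¹ * w'.2 := by group
  have e2 : (g * w'.2)⁻¹ * (g * w.2) = w'.2⁻¹ * w.2 := by group
  rw [e1, e2]

theorem nb_act (g : H) (c w : JJ K × H) :
    D.nb c (w.1, g * w.2) = ((D.nb c w).1, g * (D.nb c w).2) := by
  classical
  simp only [nb]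
  by_cases h : D.low c.1 w.1
  · simp [h, mul_assoc]
  · simp [h, mul_assoc]

theorem third_act (g : H) (w w' : JJ K × H) :
    D.third (w.1, g * w.2) (w'.1, g * w'.2) = ((D.third w w').1, g * (D.third w w').2) := by
  classical
  have e1 : (g * w.2)⁻¹ * (g * w'.2) = w.2⁻¹ * w'.2 := by group
  simp only [third, e1, mul_right_inj, mul_assoc]
  split_ifs <;> rfl

theorem op_act (m : D.FF → D.FF → D.FF) (g : H) (a b : D.VV) :
    D.act g (D.op m a b) = D.op m (D.act g a) (D.act g b) := by
  classical
  rcases a with c | w <;> rcases b with c' | w'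
  · rfl
  · simp only [op, act, D.nb_act]
  · simp only [op, act, D.nb_act]
  · have hiff : (((w.1, g * w.2) : JJ K × H) = (w'.1, g * w'.2)) ↔ w = w' := by
      constructor
      · intro e
        have e1 := congrArg Prod.fst e
        have e2 := congrArg Prod.snd e
        simp only [mul_right_inj] at e1 e2
        exact Prod.ext e1 e2
      · rintro rfl; rfl
    by_cases h1 : w = w'
    · subst h1
      simp only [op, act, if_true]
    · have h1' : ¬ (((w.1, g * w.2) : JJ K × H) = (w'.1, g * w'.2)) := fun e => h1 (hiff.mp e)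
      by_cases h2 : D.bad (D.code w w')
      · have h2' : D.bad (D.code (w.1, g * w.2) (w'.1, g * w'.2)) := by rwa [D.code_act]
        simp only [op, act, if_neg h1, if_neg h1', dif_pos h2, dif_pos h2', D.third_act]
      · have h2' : ¬ D.bad (D.code (w.1, g * w.2) (w'.1, g * w'.2)) := by rwa [D.code_act]
        simp only [op, act, if_neg h1, if_neg h1', dif_neg h2, dif_neg h2']
        congr 1
        exact Subtype.ext (D.code_act g w w').symm

/-- The permutation representation. -/
def rep : H →* Equiv.Perm D.VV where
  toFun g :=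
    { toFun := D.act g
      invFun := D.act g⁻¹
      left_inv := by rintro (c | w) <;> simp [act]
      right_inv := by rintro (c | w) <;> simp [act] }
  map_one' := by
    ext a
    rcases a with c | w <;> simp [act]
  map_mul' g h := by
    ext a
    rcases a with c | w <;> simp [act, mul_assoc]

theorem rep_apply (g : H) (a : D.VV) : D.rep g a = D.act g a := rfl

theorem rep_injective : Function.Injective D.rep := by
  intro g h e
  have := congrArg (fun σ : Equiv.Perm D.VV => σ (Sum.inr (0, 1))) e
  simp only [rep_apply, act, mul_one] at this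
  have h2 := Sum.inr_injective this
  exact congrArg Prod.snd h2

noncomputable instance [Fintype H] [Fintype K] : Fintype D.FF := by
  classical
  exact Subtype.fintype _

/-- Parametrization of the bad codes. -/
noncomputable def badMap :
    Fin 3 ⊕ ({s : H // D.S s} × Bool) ⊕ ({s : H // D.S s} × ZMod 2 × Bool) → JJ K × H
  | Sum.inl a => (0, if a = 0 then 1 else if a = 1 then D.ω else D.ω⁻¹)
  | Sum.inr (Sum.inl (s, b)) => (0, if b then s.1 else s.1⁻¹)
  | Sum.inr (Sum.inr (s, t, b)) => ((1, t, D.ι s.1), if b then 1 else s.1⁻¹)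

theorem ω_inv_ne_one : D.ω⁻¹ ≠ 1 := by
  simpa using D.hω1

theorem ι_inj {a b : H} (h : D.ι a = D.ι b) : a = b := by
  rw [← D.hι a, ← D.hι b, h]

theorem badMap_bad (x : Fin 3 ⊕ ({s : H // D.S s} × Bool) ⊕ ({s : H // D.S s} × ZMod 2 × Bool)) :
    D.bad (D.badMap x) := by
  rcases x with a | ⟨s, b⟩ | ⟨s, t, b⟩
  · left
    refine ⟨rfl, ?_⟩
    fin_cases a
    · left; rfl
    · right
      simp [badMap]
      rw [D.ωω]
      exact D.ω_inv_ne_one
    · right
      simp [badMap]
      rw [D.ωω']
      exact D.hω1
  · left
    refine ⟨rfl, Or.inr ?_⟩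
    cases b
    · simp only [badMap]
      intro e
      apply D.S_sq s.2
      simp only [Bool.false_eq_true, if_false] at e
      rw [← mul_inv_rev] at e
      exact inv_eq_one.mp e
    · simpa [badMap] using D.S_sq s.2
  · right
    refine ⟨rfl, s.1, s.2, rfl, ?_⟩
    cases b
    · right; simp [badMap]
    · left; simp [badMap]

theorem badMap_inj : Function.Injective D.badMap := by
  have h01 := D.hω1
  have h02 := D.ω_inv_ne_one
  have h12 := D.ω_inv_ne
  rintro (a | ⟨s, b⟩ | ⟨s, t, b⟩) (a' | ⟨s', b'⟩ | ⟨s', t', b'⟩) e
  · have e2 := congrArg Prod.snd e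
    fin_cases a <;> fin_cases a' <;> simp [badMap] at e2 ⊢ <;>
      first
      | exact absurd e2 h01
      | exact absurd e2.symm h01
      | exact absurd e2 h02
      | exact absurd e2.symm h02
      | exact absurd e2 h12
      | exact absurd e2.symm h12
  · exfalso
    have e2 := congrArg Prod.snd e
    have hs := s'.2
    have hs1 := D.S_ne_one hs
    fin_cases a <;> cases b' <;> simp [badMap] at e2
    · exact hs1 e2
    · exact hs1 e2.symm
    · exact hs.2.2 (by rw [e2, inv_inv])
    · exact hs.2.1 e2.symm
    · exact hs.2.1 e2.symm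
    · exact hs.2.2 e2.symm
  · exfalso
    have e2 := congrArg (fun c : JJ K × H => c.1.1) e
    simp [badMap] at e2
  · exfalso
    have e2 := congrArg Prod.snd e
    have hs := s.2
    have hs1 := D.S_ne_one hs
    fin_cases a' <;> cases b <;> simp [badMap] at e2
    · exact hs1 e2
    · exact hs1 e2
    · exact hs.2.2 (by rw [← e2, inv_inv])
    · exact hs.2.1 e2
    · exact hs.2.1 e2
    · exact hs.2.2 e2
  · have e2 := congrArg Prod.snd e
    have hs := s.2
    have hs' := s'.2
    cases b <;> cases b' <;> simp [badMap] at e2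
    · simp only [Sum.inr.injEq, Sum.inl.injEq, Prod.mk.injEq, and_true]
      exact Subtype.ext e2
    · exfalso
      have h1 := hs.1
      have h2 := hs'.1
      rw [← e2, inv_inv] at h2
      omega
    · exfalso
      have h1 := hs.1
      have h2 := hs'.1
      rw [e2, inv_inv] at h1
      omega
    · simp only [Sum.inr.injEq, Sum.inl.injEq, Prod.mk.injEq, and_true]
      exact Subtype.ext e2
  · exfalso
    have e2 := congrArg (fun c : JJ K × H => c.1.1) e
    simp [badMap] at e2
  · exfalso
    have e2 := congrArg (fun c : JJ K × H => c.1.1) e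
    simp [badMap] at e2
  · exfalso
    have e2 := congrArg (fun c : JJ K × H => c.1.1) e
    simp [badMap] at e2
  · have e1 := congrArg (fun c : JJ K × H => c.1.2.1) e
    have e2 := congrArg (fun c : JJ K × H => c.1.2.2) e
    have e3 := congrArg Prod.snd e
    simp only [badMap] at e1 e2
    have e4 := Subtype.ext (D.ι_inj e2)
    subst e1 e4
    have hs1 := D.S_ne_one s.2
    cases b <;> cases b' <;> simp [badMap] at e3 ⊢
    · exact hs1 e3
    · exact hs1 e3

theorem badMap_surj (c : JJ K × H) (hc : D.bad c) : ∃ x, D.badMap x = c := by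
  rcases hc with ⟨h1, h2⟩ | ⟨h1, s, hs, h2, h3⟩
  · obtain ⟨d, v⟩ := c
    simp only at h1 h2
    subst h1
    rcases h2 with h2 | h2
    · subst h2
      exact ⟨Sum.inl 0, rfl⟩
    · by_cases h3 : v = D.ω
      · subst h3
        exact ⟨Sum.inl 1, rfl⟩
      by_cases h4 : v = D.ω⁻¹
      · subst h4
        exact ⟨Sum.inl 2, rfl⟩
      by_cases h5 : D.q v < D.q v⁻¹
      · exact ⟨Sum.inr (Sum.inl (⟨v, h5, h3, h4⟩, true)), by simp [badMap]⟩
      · have hne : v ≠ v⁻¹ := by
          intro e
          apply h2
          nth_rewrite 1 [e]; simp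
        have hq : D.q v ≠ D.q v⁻¹ := fun e => hne (D.hq e)
        have h6 : D.S v⁻¹ := by
          refine ⟨?_, fun e => h4 (by rw [← e, inv_inv]), fun e => h3 (inv_injective e)⟩
          rw [inv_inv]; omega
        exact ⟨Sum.inr (Sum.inl (⟨v⁻¹, h6⟩, false)), by simp [badMap]⟩
  · obtain ⟨⟨a, t, k⟩, v⟩ := c
    simp only at h1 h2 h3
    subst h1 h2
    rcases h3 with rfl | rfl
    · exact ⟨Sum.inr (Sum.inr (⟨s, hs⟩, t, true)), by simp [badMap]⟩
    · exact ⟨Sum.inr (Sum.inr (⟨s, hs⟩, t, false)), by simp [badMap]⟩

theorem card_FF [Fintype H] [Fintype K] (h3 : 3 ∣ Fintype.card H) :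
    Fintype.card D.FF % 6 = 3 := by
  classical
  have hbad : Fintype.card {c : JJ K × H // D.bad c} = 6 * Fintype.card {s : H // D.S s} + 3 := by
    let f : Fin 3 ⊕ ({s : H // D.S s} × Bool) ⊕ ({s : H // D.S s} × ZMod 2 × Bool) →
        {c : JJ K × H // D.bad c} := fun x => ⟨D.badMap x, D.badMap_bad x⟩
    have hf : Function.Bijective f := by
      constructor
      · intro x y e
        exact D.badMap_inj (congrArg Subtype.val e)
      · rintro ⟨c, hc⟩
        obtain ⟨x, hx⟩ := D.badMap_surj c hc
        exact ⟨x, Subtype.ext hx⟩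
    rw [← Fintype.card_of_bijective hf]
    simp only [Fintype.card_sum, Fintype.card_prod, Fintype.card_fin, Fintype.card_bool, ZMod.card]
    ring
  have htot : Fintype.card {c : JJ K × H // D.bad c} + Fintype.card {c : JJ K × H // ¬ D.bad c} =
      Fintype.card (JJ K × H) := by
    rw [Fintype.card_subtype_compl, ← Nat.add_sub_assoc, Nat.add_sub_cancel_left]
    exact Fintype.card_subtype_le _
  have hFF : Fintype.card D.FF = Fintype.card {c : JJ K × H // ¬ D.bad c} :=
    Fintype.card_congr (Equiv.refl _)
  obtain ⟨h', hh⟩ := h3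
  have hprod : Fintype.card (JJ K × H) = 12 * (Fintype.card K * h') := by
    simp only [Fintype.card_prod, ZMod.card, hh]
    ring
  rw [hFF]
  omega

theorem card_VV_le [Fintype H] [Fintype K] :
    Fintype.card D.VV ≤ 8 * (Fintype.card K * Fintype.card H) := by
  classical
  have hFF : Fintype.card D.FF ≤ Fintype.card (JJ K × H) := Fintype.card_subtype_le _
  have hprod : Fintype.card (JJ K × H) = 4 * (Fintype.card K * Fintype.card H) := by
    simp only [Fintype.card_prod, ZMod.card]
    ring
  rw [Fintype.card_sum]
  omega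

end Dat

end Pool.Agent.H27
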